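import Mathlib

set_option autoImplicit false

/-!
Descent of binary forms through extensions of odd degree, and valuations of their values.
-/

namespace Pool.Agent.H13.OddDeg

open Module Matrix QuadraticAlgebra

/-- abstract determinant identity -/
theorem det_aux {n : Type*} [Fintype n] [DecidableEq n] {k R : Type*} [CommRing k] [CommRing R]
    (i : k →+* R) (s : R →+* R) (w : R) (e c : k) (hw2 : w * w = i (-e)) (hsw : s w = -w)
    (hsi : ∀ a, s (i a) = i a)
    (A B : Matrix n n k) (hAB : A * B = B * A) (h : A * A + e • (B * B) = c • (1 : Matrix n n k)) :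
    ∃ z : R, z * s z = i (c ^ (Fintype.card n)) := by
  let M : Matrix n n R := A.map i + w • B.map i
  have hM : s.mapMatrix M = A.map i - w • B.map i := by
    ext p q
    simp only [M, RingHom.mapMatrix_apply, Matrix.map_apply, Matrix.add_apply, Matrix.sub_apply,
      Matrix.smul_apply, smul_eq_mul, map_add, map_mul, hsw, hsi]
    ring
  have h1 : M * s.mapMatrix M = i.mapMatrix (A * A + e • (B * B)) := by
    rw [hM]
    have e1 : i.mapMatrix (A * A + e • (B * B)) = A.map i * A.map i + (i e) • (B.map i * B.map i) := by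
      rw [map_add]
      congr 1
      · rw [map_mul]; rfl
      · have h3 : i.mapMatrix (B * B) = B.map i * B.map i := map_mul i.mapMatrix B B
        ext p q
        have h4 := congrFun (congrFun h3 p) q
        simp only [RingHom.mapMatrix_apply, Matrix.map_apply] at h4
        simp only [RingHom.mapMatrix_apply, Matrix.map_apply, Matrix.smul_apply, smul_eq_mul,
          map_mul]
        rw [h4]
    have e2 : A.map i * B.map i = B.map i * A.map i := by
      have := congrArg i.mapMatrix hAB
      rw [map_mul, map_mul] at this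
      exact this
    rw [e1]
    simp only [M]
    rw [add_mul, mul_sub, mul_sub]
    simp only [smul_mul_assoc, mul_smul_comm, smul_smul, hw2]
    rw [e2]
    rw [map_neg, neg_smul]
    abel
  refine ⟨M.det, ?_⟩
  rw [RingHom.map_det, ← Matrix.det_mul, h1, ← RingHom.map_det, h, Matrix.det_smul, Matrix.det_one,
      mul_one]

theorem det_quad {n : Type*} [Fintype n] [DecidableEq n] {k : Type*} [Field k] (e c : k)
    (A B : Matrix n n k) (hAB : A * B = B * A) (h : A * A + e • (B * B) = c • (1 : Matrix n n k)) :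
    ∃ u v : k, c ^ (Fintype.card n) = u ^ 2 + e * v ^ 2 := by
  obtain ⟨z, hz⟩ := det_aux (R := QuadraticAlgebra k (-e) 0) (algebraMap k _) (starRingEnd _)
    omega e c (by
      rw [omega_mul_omega_eq_algebraMap, map_zero, zero_mul, add_zero])
    (by
      rw [starRingEnd_apply]
      ext
      · simp
      · simp)
    (by
      intro a
      rw [starRingEnd_apply]
      ext
      · simp
      · simp) A B hAB h
  rw [starRingEnd_apply, ← algebraMap_norm_eq_mul_star, algebraMap_inj] at hz
  refine ⟨z.re, z.im, ?_⟩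
  rw [← hz, QuadraticAlgebra.norm_def]
  ring

/-- a binary form `X² + e Y²` representing a rational number over an extension of odd degree
represents it over the ground field. -/
theorem odd_norm {k F : Type*} [Field k] [Field F] [Algebra k F] [FiniteDimensional k F]
    (hodd : Odd (finrank k F)) (e c : k) (hc : c ≠ 0) (a b : F)
    (h : algebraMap k F c = a ^ 2 + algebraMap k F e * b ^ 2) : ∃ u v : k, c = u ^ 2 + e * v ^ 2 := by
  classical
  let β := Module.finBasis k F
  let L := Algebra.leftMulMatrix β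
  obtain ⟨u, v, huv⟩ := det_quad e c (L a) (L b) (by rw [← map_mul, ← map_mul, mul_comm]) (by
    rw [← map_mul, ← map_mul, ← map_smul, ← map_add]
    have h1 : a * a + e • (b * b) = algebraMap k F c := by
      rw [h, Algebra.smul_def]; ring
    rw [h1, AlgHom.commutes, Algebra.algebraMap_eq_smul_one])
  rw [Fintype.card_fin] at huv
  obtain ⟨m, hm⟩ := hodd
  rw [hm] at huv
  refine ⟨u / c ^ m, v / c ^ m, ?_⟩
  have hcm : c ^ m ≠ 0 := pow_ne_zero _ hc
  have : (u / c ^ m) ^ 2 + e * (v / c ^ m) ^ 2 = (u ^ 2 + e * v ^ 2) / (c ^ m) ^ 2 := by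
    field_simp
  rw [this, ← huv, eq_div_iff (pow_ne_zero 2 hcm)]
  ring

/-- values of `U² + c V²` have even valuation at primes where `-c` is not a square. -/
theorem val_even_int {p : ℕ} [hp : Fact p.Prime] (c : ℤ) (hc : ¬ IsSquare ((-c : ℤ) : ZMod p)) :
    ∀ (n : ℕ) (A U V : ℤ), A.natAbs = n → A ≠ 0 → A = U ^ 2 + c * V ^ 2 →
      Even (padicValInt p A) := by
  intro n
  induction n using Nat.strong_induction_on with
  | _ n ih =>
    intro A U V hn hA h
    by_cases hpA : (p : ℤ) ∣ A
    · have hV : (p : ℤ) ∣ V := by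
        by_contra hV
        apply hc
        have hV' : ((V : ℤ) : ZMod p) ≠ 0 := by
          rwa [Ne, ZMod.intCast_zmod_eq_zero_iff_dvd]
        have hA' : ((A : ℤ) : ZMod p) = 0 := by
          rwa [ZMod.intCast_zmod_eq_zero_iff_dvd]
        rw [h] at hA'
        push_cast at hA'
        refine ⟨(U : ZMod p) / (V : ZMod p), ?_⟩
        rw [div_mul_div_comm, eq_div_iff (mul_ne_zero hV' hV')]
        push_cast
        linear_combination -hA'
      have hU : (p : ℤ) ∣ U := by
        have h1 : (p : ℤ) ∣ U ^ 2 := by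
          have h2 : U ^ 2 = A - c * V ^ 2 := by rw [h]; ring
          rw [h2]
          exact dvd_sub hpA (Dvd.dvd.mul_left (dvd_pow hV two_ne_zero) c)
        exact Int.Prime.dvd_pow' hp.out h1
      obtain ⟨U', rfl⟩ := hU
      obtain ⟨V', rfl⟩ := hV
      have hp0 : (p : ℤ) ≠ 0 := by exact_mod_cast hp.out.ne_zero
      set A' := U' ^ 2 + c * V' ^ 2 with hA'
      have hAA : A = (p : ℤ) ^ 2 * A' := by rw [h, hA']; ring
      have hA'0 : A' ≠ 0 := by
        rintro h0
        rw [h0, mul_zero] at hAA
        exact hA hAA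
      have hlt : A'.natAbs < n := by
        rw [← hn, hAA, Int.natAbs_mul, Int.natAbs_pow, Int.natAbs_natCast]
        have h1 : 0 < A'.natAbs := Int.natAbs_pos.mpr hA'0
        have h2 : 1 < p ^ 2 := Nat.one_lt_pow two_ne_zero hp.out.one_lt
        nlinarith
      have h1 := ih _ hlt A' U' V' rfl hA'0 hA'
      rw [hAA, padicValInt.mul (pow_ne_zero 2 hp0) hA'0]
      have h2 : padicValInt p ((p : ℤ) ^ 2) = 2 := by
        rw [padicValInt, Int.natAbs_pow, Int.natAbs_natCast, padicValNat.prime_pow]
      rw [h2]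
      exact Even.add even_two h1
    · rw [padicValInt.eq_zero_of_not_dvd hpA]
      exact Even.zero

theorem val_even {p : ℕ} [hp : Fact p.Prime] (c : ℤ) (hc : ¬ IsSquare ((-c : ℤ) : ZMod p))
    (m : ℕ) (hm : m ≠ 0) (u v : ℚ) (h : (m : ℚ) = u ^ 2 + c * v ^ 2) : Even (padicValNat p m) := by
  have hu := u.den_ne_zero
  have hv := v.den_ne_zero
  set D : ℤ := (u.den : ℤ) * v.den with hD
  have hD0 : D ≠ 0 := by
    rw [hD]
    exact mul_ne_zero (by exact_mod_cast hu) (by exact_mod_cast hv)
  have hA : (m : ℤ) * D ^ 2 = (u.num * v.den) ^ 2 + c * (v.num * u.den) ^ 2 := by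
    have e1 : u * u.den = u.num := Rat.mul_den_eq_num u
    have e2 : v * v.den = v.num := Rat.mul_den_eq_num v
    have : ((m : ℤ) : ℚ) * (D : ℚ) ^ 2
        = ((u.num : ℚ) * v.den) ^ 2 + c * ((v.num : ℚ) * u.den) ^ 2 := by
      rw [← e1, ← e2, hD]
      push_cast
      rw [h]
      ring
    exact_mod_cast this
  have hm0 : (m : ℤ) ≠ 0 := by exact_mod_cast hm
  have h1 := val_even_int c hc _ _ _ _ rfl (mul_ne_zero hm0 (pow_ne_zero 2 hD0)) hA
  rw [padicValInt.mul hm0 (pow_ne_zero 2 hD0)] at h1
  have h2 : padicValInt p (D ^ 2) = 2 * padicValInt p D := by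
    rw [pow_two, padicValInt.mul hD0 hD0]; ring
  rw [h2, padicValInt.of_nat] at h1
  exact (Nat.even_add.mp h1).mpr (even_two_mul _)

open NumberField IsDedekindDomain UniqueFactorizationMonoid in
/-- If the value of a natural number is a square at all finite places of a number field of odd
degree, it is a perfect square. -/
theorem sq_of_val {F : Type*} [Field F] [NumberField F] (hodd : Odd (finrank ℚ F)) (m : ℕ)
    (hm : m ≠ 0) (h : ∀ v : HeightOneSpectrum (𝓞 F), ∃ f : F,
      v.valuation F (m : F) = v.valuation F f ^ 2) : IsSquare m := by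
  classical
  set r : 𝓞 F := (m : 𝓞 F) with hr
  have hr0 : r ≠ 0 := by
    rw [hr]
    exact_mod_cast hm
  have hI0 : Ideal.span {r} ≠ (0 : Ideal (𝓞 F)) := by
    rw [Ne, Submodule.zero_eq_bot, Ideal.span_singleton_eq_bot]
    exact hr0
  -- all multiplicities are even
  have heven : ∀ P ∈ (normalizedFactors (Ideal.span {r})).toFinset,
      Even (Multiset.count P (normalizedFactors (Ideal.span {r}))) := by
    intro P hP
    rw [Multiset.mem_toFinset] at hP
    have hprime := prime_of_normalized_factor P hP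
    let v : HeightOneSpectrum (𝓞 F) := ⟨P, Ideal.isPrime_of_prime hprime, hprime.ne_zero⟩
    obtain ⟨f, hf⟩ := h v
    have h1 : v.valuation F (m : F) = v.intValuation r := by
      rw [← HeightOneSpectrum.valuation_of_algebraMap (K := F)]
      congr 1
    have h2 := v.intValuation_if_neg hr0
    rw [Ideal.count_associates_factors_eq hI0 v.isPrime v.ne_bot] at h2
    rw [h1, h2] at hf
    have hf0 : v.valuation F f ≠ 0 := by
      intro h0
      rw [h0] at hf
      exact absurd hf (by simp)
    obtain ⟨k, hk⟩ : ∃ k : ℤ, v.valuation F f = WithZero.exp k := by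
      obtain ⟨k, hk⟩ := WithZero.ne_zero_iff_exists.mp hf0
      exact ⟨Multiplicative.toAdd k, by rw [← hk]; rfl⟩
    rw [hk, ← WithZero.exp_nsmul] at hf
    have h3 := WithZero.exp_injective hf
    change Even (Multiset.count v.asIdeal (normalizedFactors (Ideal.span {r})))
    simp only [nsmul_eq_mul] at h3
    push_cast at h3
    rw [Nat.even_iff]
    omega
  have hsq : IsSquare (Ideal.span {r}) := by
    rw [← Ideal.prod_normalizedFactors_eq_self hI0, Finset.prod_multiset_count]
    refine Finset.isSquare_prod _ fun P hP => ?_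
    obtain ⟨k, hk⟩ := heven P hP
    exact ⟨P ^ k, by rw [hk, pow_add]⟩
  obtain ⟨J, hJ⟩ := hsq
  have h1 : Ideal.absNorm (Ideal.span {r}) = m ^ (finrank ℚ F) := by
    rw [Ideal.absNorm_span_singleton]
    have h2 : Algebra.norm ℤ r = (m : ℤ) ^ (finrank ℚ F) := by
      have h3 : r = algebraMap ℤ (𝓞 F) (m : ℤ) := by simp [hr]
      rw [h3, Algebra.norm_algebraMap, RingOfIntegers.rank]
    rw [h2, Int.natAbs_pow, Int.natAbs_natCast]
  rw [hJ, map_mul] at h1
  obtain ⟨k, hk⟩ := hodd
  rw [hk] at h1
  -- `m^(2k+1) = a²`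
  have h4 : (m ^ k) ^ 2 ∣ (Ideal.absNorm J) ^ 2 := ⟨m, by
    rw [sq (Ideal.absNorm J), h1]; ring⟩
  obtain ⟨b, hb⟩ := (Nat.pow_dvd_pow_iff two_ne_zero).mp h4
  rw [hb] at h1
  refine ⟨b, ?_⟩
  have h5 : 0 < m ^ k * m ^ k := by positivity
  apply Nat.eq_of_mul_eq_mul_left h5
  calc m ^ k * m ^ k * m = m ^ (2 * k + 1) := by ring
    _ = m ^ k * m ^ k * (b * b) := by rw [← h1]; ring

end Pool.Agent.H13.OddDeg
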