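import Mathlib
import Pool.Agent.H13.ETF.Witt

set_option autoImplicit false

namespace Pool.Agent.H13.Witt

open Module

variable {K : Type*} [Field K]

/-- `c` is a sum of `n` squares. -/
def SS (n : ℕ) (c : K) : Prop := ∃ a : Fin n → K, ∑ i, a i ^ 2 = c

theorem SS.zero (n : ℕ) : SS n (0 : K) := ⟨fun _ => 0, by simp⟩

theorem SS.add {m n : ℕ} {a b : K} (ha : SS m a) (hb : SS n b) : SS (m + n) (a + b) := by
  obtain ⟨f, hf⟩ := ha
  obtain ⟨g, hg⟩ := hb
  refine ⟨Fin.append f g, ?_⟩
  rw [Fin.sum_univ_add]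
  simp [hf, hg]

theorem SS.split {m n : ℕ} {c : K} (h : SS (m + n) c) : ∃ a b, a + b = c ∧ SS m a ∧ SS n b := by
  obtain ⟨f, hf⟩ := h
  rw [Fin.sum_univ_add] at hf
  exact ⟨_, _, hf, ⟨_, rfl⟩, ⟨_, rfl⟩⟩

theorem SS.mono {m n : ℕ} (hmn : m ≤ n) {c : K} (h : SS m c) : SS n c := by
  obtain ⟨k, rfl⟩ := Nat.exists_eq_add_of_le hmn
  simpa using h.add (SS.zero k)

theorem SS.scale {n : ℕ} {c : K} (h : SS n c) (b : K) : SS n (c * b ^ 2) := by
  obtain ⟨f, hf⟩ := h
  refine ⟨fun i => f i * b, ?_⟩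
  rw [← hf, Finset.sum_mul]
  exact Finset.sum_congr rfl fun i _ => by ring

/-- `c` is the multiplier of a similarity of the sum of `n` squares. -/
def Sim (n : ℕ) (c : K) : Prop :=
  ∃ T : Matrix (Fin n) (Fin n) K, T * T.transpose = c • 1 ∧ T.transpose * T = c • 1

theorem Sim.zero (n : ℕ) : Sim n (0 : K) := ⟨0, by simp, by simp⟩

open Matrix in
theorem Sim.of_left {ι : Type*} [Fintype ι] [DecidableEq ι] {c : K} (hc : c ≠ 0)
    (T : Matrix ι ι K) (h : T * Tᵀ = c • 1) : Tᵀ * T = c • 1 := by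
  have h1 : T * (c⁻¹ • Tᵀ) = 1 := by
    rw [mul_smul_comm, h, smul_smul, inv_mul_cancel₀ hc, one_smul]
  have h2 : (c⁻¹ • Tᵀ) * T = 1 := mul_eq_one_comm.mp h1
  rw [smul_mul_assoc] at h2
  calc Tᵀ * T = c • (c⁻¹ • (Tᵀ * T)) := by rw [smul_smul, mul_inv_cancel₀ hc, one_smul]
    _ = c • 1 := by rw [h2]

open Matrix in
theorem Sim.double {n : ℕ} {a b : K} (ha0 : a ≠ 0) (hab : a + b ≠ 0) (ha : Sim n a)
    (hb : Sim n b) : Sim (n + n) (a + b) := by
  obtain ⟨S, hS, hS'⟩ := ha
  obtain ⟨T, hT, hT'⟩ := hb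
  let X : Matrix (Fin n) (Fin n) K := -(a⁻¹ • (S * Tᵀ * S))
  have hXX : X * Xᵀ = b • 1 := by
    have h1 : S * Tᵀ * S * (S * Tᵀ * S)ᵀ = (a * a * b) • 1 := by
      calc S * Tᵀ * S * (S * Tᵀ * S)ᵀ = S * Tᵀ * (S * Sᵀ) * (T * Sᵀ) := by
            simp only [Matrix.transpose_mul, Matrix.transpose_transpose, Matrix.mul_assoc]
        _ = a • (S * (Tᵀ * T) * Sᵀ) := by
            rw [hS]; simp only [Matrix.mul_smul, Matrix.smul_mul, Matrix.mul_one, Matrix.mul_assoc]
        _ = (a * a * b) • 1 := by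
            rw [hT']
            simp only [Matrix.mul_smul, Matrix.smul_mul, Matrix.mul_one, hS, smul_smul]
            congr 1
            ring
    have h2 : Xᵀ = -(a⁻¹ • (S * Tᵀ * S)ᵀ) := by
      simp only [X, Matrix.transpose_neg, Matrix.transpose_smul]
    rw [h2]
    simp only [X, neg_mul_neg, smul_mul_assoc, mul_smul_comm, h1, smul_smul]
    congr 1
    field_simp
  have hST : S * Xᵀ + T * Sᵀ = 0 := by
    have h2 : Xᵀ = -(a⁻¹ • (Sᵀ * T * Sᵀ)) := by
      simp only [X, Matrix.transpose_neg, Matrix.transpose_smul, Matrix.transpose_mul,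
        Matrix.transpose_transpose, Matrix.mul_assoc]
    rw [h2, mul_neg, mul_smul_comm]
    have h3 : S * (Sᵀ * T * Sᵀ) = a • (T * Sᵀ) := by
      rw [← Matrix.mul_assoc, ← Matrix.mul_assoc, hS]
      simp only [Matrix.smul_mul, Matrix.one_mul]
    rw [h3, smul_smul, inv_mul_cancel₀ ha0, one_smul]
    simp
  have hTS : X * Sᵀ + S * Tᵀ = 0 := by
    have := congrArg Matrix.transpose hST
    simpa only [Matrix.transpose_add, Matrix.transpose_mul, Matrix.transpose_transpose,
      Matrix.transpose_zero] using this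
  let M : Matrix (Fin n ⊕ Fin n) (Fin n ⊕ Fin n) K := Matrix.fromBlocks S T X S
  have hM : M * Mᵀ = (a + b) • 1 := by
    simp only [M, Matrix.fromBlocks_transpose, Matrix.fromBlocks_multiply]
    rw [hS, hT, hXX, hST, hTS]
    rw [← Matrix.fromBlocks_one, Matrix.fromBlocks_smul]
    congr 1
    · rw [add_smul]
    · simp
    · simp
    · rw [add_smul, add_comm]
  let N : Matrix (Fin (n + n)) (Fin (n + n)) K := Matrix.reindex finSumFinEquiv finSumFinEquiv M
  have hN : N * Nᵀ = (a + b) • 1 := by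
    have h1 : Nᵀ = Matrix.reindex finSumFinEquiv finSumFinEquiv Mᵀ := by
      simp [N, Matrix.transpose_submatrix]
    rw [h1]
    simp only [N, Matrix.reindex_apply]
    rw [Matrix.submatrix_mul_equiv, hM]
    ext i j
    simp [Matrix.one_apply]
  exact ⟨N, hN, Sim.of_left hab N hN⟩

theorem Sim.of_SS (k : ℕ) : ∀ {c : K}, c ≠ 0 → SS (2 ^ k) c → Sim (2 ^ k) c := by
  induction k with
  | zero =>
    intro c hc hs
    change SS 1 c at hs
    change Sim 1 c
    obtain ⟨a, ha⟩ := hs
    rw [Fin.sum_univ_one] at ha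
    refine ⟨Matrix.of fun _ _ => a 0, ?_, ?_⟩ <;>
    · ext i j
      have hi : i = 0 := Subsingleton.elim _ _
      have hj : j = 0 := Subsingleton.elim _ _
      subst hi hj
      simp [Matrix.mul_apply, ← ha]
      ring
  | succ k ih =>
    intro c hc hs
    rw [pow_succ, mul_two] at hs ⊢
    obtain ⟨a, b, hab, ha, hb⟩ := hs.split
    have key : ∀ {a b : K}, a + b = c → SS (2 ^ k) a → SS (2 ^ k) b → a ≠ 0 →
        Sim (2 ^ k + 2 ^ k) c := by
      intro a b hab ha hb ha0
      have hSb : Sim (2 ^ k) b := by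
        by_cases hb0 : b = 0
        · subst hb0; exact Sim.zero _
        · exact ih hb0 hb
      rw [← hab]
      exact Sim.double ha0 (hab ▸ hc) (ih ha0 ha) hSb
    by_cases ha0 : a = 0
    · have hb0 : b ≠ 0 := by
        rintro rfl
        apply hc
        rw [← hab, ha0, add_zero]
      exact key (by rw [add_comm]; exact hab) hb ha hb0
    · exact key hab ha hb ha0

theorem SS.mul_pow {k : ℕ} {a b : K} (ha0 : a ≠ 0) (ha : SS (2 ^ k) a) (hb : SS (2 ^ k) b) :
    SS (2 ^ k) (a * b) := by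
  obtain ⟨T, _, hT⟩ := Sim.of_SS k ha0 ha
  obtain ⟨y, hy⟩ := hb
  refine ⟨Matrix.mulVec T y, ?_⟩
  have h1 : (Matrix.mulVec T y) ⬝ᵥ (Matrix.mulVec T y) = a * (y ⬝ᵥ y) := by
    have : Matrix.mulVec T y ⬝ᵥ Matrix.mulVec T y
        = y ⬝ᵥ Matrix.mulVec (T.transpose * T) y := by
      rw [← Matrix.mulVec_mulVec, Matrix.dotProduct_mulVec y, Matrix.vecMul_transpose]
    rw [this, hT, Matrix.smul_mulVec, Matrix.one_mulVec, dotProduct_smul, smul_eq_mul]
  have h2 : y ⬝ᵥ y = b := by
    rw [← hy]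
    simp [dotProduct, sq]
  rw [h2] at h1
  rw [← h1]
  simp [dotProduct, sq]

/-- if the sum of `2^v` squares is isotropic, then `-1` is a sum of `2^(v-1)` squares. -/
theorem SS_neg_one_of_isotropic (v : ℕ) : ∀ (x : Fin (2 ^ v) → K), x ≠ 0 → ∑ i, x i ^ 2 = 0 →
    1 ≤ v ∧ SS (2 ^ (v - 1)) (-1 : K) := by
  induction v with
  | zero =>
    intro x hx h
    exfalso
    haveI : Subsingleton (Fin (2 ^ 0)) := by rw [pow_zero]; infer_instance
    apply hx
    ext i
    rw [Fintype.sum_subsingleton _ i] at h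
    exact pow_eq_zero_iff (two_ne_zero) |>.mp h
  | succ v ih =>
    intro x hx h
    refine ⟨by omega, ?_⟩
    rw [Nat.add_sub_cancel]
    have e : 2 ^ (v + 1) = 2 ^ v + 2 ^ v := by rw [pow_succ, mul_two]
    let y : Fin (2 ^ v + 2 ^ v) → K := fun i => x (Fin.cast e.symm i)
    have hy : ∑ i, y i ^ 2 = 0 := by
      rw [← h]
      exact Equiv.sum_comp (finCongr e.symm) (fun i => x i ^ 2)
    rw [Fin.sum_univ_add] at hy
    set A := ∑ i : Fin (2 ^ v), y (Fin.castAdd (2 ^ v) i) ^ 2 with hA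
    set B := ∑ i : Fin (2 ^ v), y (Fin.natAdd (2 ^ v) i) ^ 2 with hB
    have sA : SS (2 ^ v) A := ⟨_, hA.symm⟩
    have sB : SS (2 ^ v) B := ⟨_, hB.symm⟩
    by_cases hA0 : A = 0
    · have hB0 : B = 0 := by rw [hA0, zero_add] at hy; exact hy
      by_cases h1 : (fun i : Fin (2 ^ v) => y (Fin.castAdd (2 ^ v) i)) = 0
      · by_cases h2 : (fun i : Fin (2 ^ v) => y (Fin.natAdd (2 ^ v) i)) = 0
        · exfalso
          apply hx
          ext i
          have hi : x i = y (Fin.cast e i) := rfl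
          rw [hi]
          refine Fin.addCases (fun j => ?_) (fun j => ?_) (Fin.cast e i)
          · exact congrFun h1 j
          · exact congrFun h2 j
        · obtain ⟨_, h3⟩ := ih _ h2 hB0
          exact h3.mono (Nat.pow_le_pow_right (by norm_num) (by omega))
      · obtain ⟨_, h3⟩ := ih _ h1 hA0
        exact h3.mono (Nat.pow_le_pow_right (by norm_num) (by omega))
    · have h3 := (SS.mul_pow hA0 sA sB).scale A⁻¹
      have h4 : A * B * A⁻¹ ^ 2 = -1 := by
        have : B = -A := by linear_combination hy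
        rw [this]
        field_simp
      rwa [h4] at h3

/-- the sum of `n` squares is metabolic. -/
def HH (K : Type*) [Field K] (n : ℕ) : Prop := MM (Multiset.replicate n (1 : K))

theorem one_replicate (n : ℕ) : (0 : K) ∉ Multiset.replicate n (1 : K) := by
  intro h
  exact zero_ne_one (Multiset.eq_of_mem_replicate h)

theorem HH.add {m n : ℕ} (hm : HH K m) (hn : HH K n) : HH K (m + n) := by
  unfold HH
  rw [Multiset.replicate_add]
  exact MM.add hm hn

theorem HH.cancel {m n : ℕ} (hmn : HH K (m + n)) (hn : HH K n) : HH K m := by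
  unfold HH at hmn
  rw [Multiset.replicate_add] at hmn
  exact hmn.cancel (one_replicate m) (one_replicate n) hn

theorem HH.zero : HH K 0 := by
  unfold HH
  rw [Multiset.replicate_zero]
  have := MM_self_neg (0 : Multiset K)
  simpa using this

/-- the subgroup of integers `z` such that `|z|` squares form a metabolic form. -/
def HHsub (K : Type*) [Field K] : AddSubgroup ℤ where
  carrier := {z | HH K z.natAbs}
  zero_mem' := HH.zero
  neg_mem' := by
    intro z hz
    simpa using hz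
  add_mem' := by
    intro a b ha hb
    simp only [Set.mem_ofPred_eq] at *
    rcases le_total 0 a with h1 | h1 <;> rcases le_total 0 b with h2 | h2
    · have : (a + b).natAbs = a.natAbs + b.natAbs := by omega
      rw [this]; exact ha.add hb
    · rcases le_total b.natAbs a.natAbs with h3 | h3
      · have : a.natAbs = (a + b).natAbs + b.natAbs := by omega
        rw [this] at ha
        exact ha.cancel hb
      · have : b.natAbs = (a + b).natAbs + a.natAbs := by omega
        rw [this] at hb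
        exact hb.cancel ha
    · rcases le_total b.natAbs a.natAbs with h3 | h3
      · have : a.natAbs = (a + b).natAbs + b.natAbs := by omega
        rw [this] at ha
        exact ha.cancel hb
      · have : b.natAbs = (a + b).natAbs + a.natAbs := by omega
        rw [this] at hb
        exact hb.cancel ha
    · have : (a + b).natAbs = a.natAbs + b.natAbs := by omega
      rw [this]; exact ha.add hb

theorem HH.gcd {m n : ℕ} (hm : HH K m) (hn : HH K n) : HH K (Nat.gcd m n) := by
  have h1 : (m : ℤ) ∈ HHsub K := by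
    change HH K (m : ℤ).natAbs
    simpa using hm
  have h2 : (n : ℤ) ∈ HHsub K := by
    change HH K (n : ℤ).natAbs
    simpa using hn
  have h3 : ((Nat.gcd m n : ℕ) : ℤ) ∈ HHsub K := by
    rw [Nat.gcd_eq_gcd_ab]
    refine add_mem ?_ ?_
    · rw [mul_comm, ← smul_eq_mul]
      exact AddSubgroup.zsmul_mem _ h1 _
    · rw [mul_comm, ← smul_eq_mul]
      exact AddSubgroup.zsmul_mem _ h2 _
  simpa [HHsub] using h3

theorem HH.exists_isotropic {n : ℕ} (hn : 0 < n) (h : HH K n) :
    ∃ x : Fin n → K, x ≠ 0 ∧ ∑ i, x i ^ 2 = 0 := by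
  have h1 : Met (fun _ : Fin n => (1 : K)) := by
    apply Met_of_MM
    rw [Multiset.map_const']
    simpa [HH] using h
  obtain ⟨L, hL, hL2⟩ := h1
  rw [Fintype.card_fin] at hL
  have h2 : 0 < finrank K L := by omega
  have h3 : L ≠ ⊥ := by
    rintro rfl
    simp at h2
  obtain ⟨x, hxL, hx0⟩ := Submodule.exists_mem_ne_zero_of_ne_bot h3
  refine ⟨x, hx0, ?_⟩
  have := hL2 x hxL x hxL
  simpa [sq] using this

theorem HH_two_pow_of_SS {k : ℕ} (h : SS (2 ^ k) (-1 : K)) : HH K (2 ^ (k + 1)) := by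
  have h0 : (-1 : K) ≠ 0 := neg_ne_zero.mpr one_ne_zero
  obtain ⟨T, hT, _⟩ := Sim.of_SS k h0 h
  have h1 := MM_sim (1 : K) (-1) T hT
  have h2 : -((1 : K) * -1) = 1 := by ring
  rw [h2, ← Multiset.replicate_add] at h1
  unfold HH
  rw [pow_succ, mul_two]
  exact h1

/-- the main result on the level. -/
theorem level {n : ℕ} (hn : 0 < n) (h : HH K n) (t : ℕ) (ht : ¬ 2 ^ (t + 2) ∣ n) :
    SS (2 ^ t) (-1 : K) := by
  classical
  -- `-1` is a sum of `2^k` squares for some `k`
  have hex : ∃ k, SS (2 ^ k) (-1 : K) := by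
    obtain ⟨x, hx, hx2⟩ := h.exists_isotropic hn
    have hle : n ≤ 2 ^ n := Nat.lt_two_pow_self.le
    let y : Fin (2 ^ n) → K := fun i => if h : (i : ℕ) < n then x ⟨i, h⟩ else 0
    have hy : y ≠ 0 := by
      intro hy
      apply hx
      ext i
      have := congrFun hy (Fin.castLE hle i)
      simpa [y] using this
    have hy2 : ∑ i, y i ^ 2 = 0 := by
      rw [← hx2]
      obtain ⟨m, hm⟩ := Nat.exists_eq_add_of_le hle
      rw [← Equiv.sum_comp (finCongr hm.symm), Fin.sum_univ_add]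
      simp [y]
    obtain ⟨_, h3⟩ := SS_neg_one_of_isotropic n y hy hy2
    exact ⟨_, h3⟩
  set k := Nat.find hex with hk
  have hk1 : SS (2 ^ k) (-1 : K) := Nat.find_spec hex
  by_cases hkt : k ≤ t
  · exact hk1.mono (Nat.pow_le_pow_right (by norm_num) hkt)
  · exfalso
    push Not at hkt
    have h1 := (HH_two_pow_of_SS hk1).gcd h
    obtain ⟨v, hv, hv2⟩ := (Nat.dvd_prime_pow Nat.prime_two).mp (Nat.gcd_dvd_left (2 ^ (k + 1)) n)
    have hvt : v < t + 2 := by
      by_contra hcon
      push Not at hcon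
      apply ht
      refine (Nat.pow_dvd_pow 2 hcon).trans ?_
      rw [← hv2]
      exact Nat.gcd_dvd_right _ _
    rw [hv2] at h1
    obtain ⟨x, hx, hx2⟩ := h1.exists_isotropic (by positivity)
    obtain ⟨hv1, h3⟩ := SS_neg_one_of_isotropic v x hx hx2
    exact Nat.find_min hex (show v - 1 < k by omega) h3

end Pool.Agent.H13.Witt
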