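import Mathlib
import Pool.Agent.H13.ETF.Level

set_option autoImplicit false

namespace Pool.Agent.H13.Witt

open Module

variable {K : Type*} [Field K]

theorem det_block {m : ℕ} (C D : Matrix (Fin m) (Fin m) K) :
    (Matrix.fromBlocks 0 C C.transpose D).det = (-1) ^ m * C.det ^ 2 := by
  have h1 : Matrix.fromBlocks 0 C C.transpose D
      = Matrix.fromBlocks C 0 D C.transpose * Matrix.fromBlocks 0 1 1 0 := by
    simp [Matrix.fromBlocks_multiply]
  have h2 : (Matrix.fromBlocks 0 1 1 0 : Matrix (Fin m ⊕ Fin m) (Fin m ⊕ Fin m) K)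
      = Matrix.fromBlocks 1 1 0 1 * Matrix.fromBlocks (-1) 0 1 1 * Matrix.fromBlocks 1 (-1) 0 1 := by
    simp [Matrix.fromBlocks_multiply]
  rw [h1, Matrix.det_mul, Matrix.det_fromBlocks_zero₁₂, h2, Matrix.det_mul, Matrix.det_mul,
    Matrix.det_fromBlocks_zero₂₁, Matrix.det_fromBlocks_zero₁₂, Matrix.det_fromBlocks_zero₂₁]
  simp [Matrix.det_neg]
  ring

theorem disc {m : ℕ} (w : Fin m ⊕ Fin m → K) (hw0 : ∀ i, w i ≠ 0) (h : Met w) :
    IsSquare ((-1) ^ m * ∏ i, w i) := by
  classical
  obtain ⟨L, hL, hL2⟩ := h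
  rw [Fintype.card_sum, Fintype.card_fin] at hL
  let B : LinearMap.BilinForm K ((Fin m ⊕ Fin m) → K) := Matrix.toBilin' (Matrix.diagonal w)
  have hBapp : ∀ a b, B a b = ∑ i, w i * a i * b i := by
    intro a b
    simp only [B, Matrix.toBilin'_apply]
    simp only [Matrix.diagonal_apply, mul_ite, mul_zero, ite_mul, zero_mul,
      Finset.sum_ite_eq, Finset.mem_univ, if_true]
    refine Finset.sum_congr rfl fun i _ => ?_
    ring
  have hBnd : B.Nondegenerate := by
    apply LinearMap.BilinForm.nondegenerate_toBilin'_of_det_ne_zero'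
    rw [Matrix.det_diagonal, Finset.prod_ne_zero_iff]
    intro i _
    exact hw0 i
  have hfr : finrank K ((Fin m ⊕ Fin m) → K) = m + m := by
    rw [Module.finrank_fintype_fun_eq_card, Fintype.card_sum, Fintype.card_fin]
  have hLo : L ≤ B.orthogonal L := by
    intro x hx
    rw [LinearMap.BilinForm.mem_orthogonal_iff]
    intro y hy
    change B y x = 0
    rw [hBapp]
    exact hL2 y hy x hx
  have hLm : finrank K L = m := by
    have h1 := Submodule.finrank_mono hLo
    rw [LinearMap.BilinForm.finrank_orthogonal hBnd, hfr] at h1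
    omega
  obtain ⟨L', hL'⟩ := Submodule.exists_isCompl L
  have hL'm : finrank K L' = m := by
    have := Submodule.finrank_add_eq_of_isCompl hL'
    rw [hfr] at this
    omega
  let b1 : Basis (Fin m) K L := finBasisOfFinrankEq K L hLm
  let b2 : Basis (Fin m) K L' := finBasisOfFinrankEq K L' hL'm
  let b : Basis (Fin m ⊕ Fin m) K ((Fin m ⊕ Fin m) → K) :=
    (b1.prod b2).map (Submodule.prodEquivOfIsCompl L L' hL')
  have hb1 : ∀ i, b (Sum.inl i) ∈ L := by
    intro i
    simp [b]
  let P : Matrix (Fin m ⊕ Fin m) (Fin m ⊕ Fin m) K := Matrix.of fun i j => b i j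
  have hPdet : P.det ≠ 0 := by
    have h1 := (Pi.basisFun K (Fin m ⊕ Fin m)).isUnit_det b
    rw [Pi.basisFun_det_apply] at h1
    exact h1.ne_zero
  let G := P * Matrix.diagonal w * P.transpose
  have hG : ∀ i j, G i j = B (b i) (b j) := by
    intro i j
    rw [hBapp]
    simp only [G, Matrix.mul_apply, Matrix.transpose_apply, P, Matrix.of_apply,
      Matrix.diagonal_apply, mul_ite, mul_zero, Finset.sum_ite_eq', Finset.mem_univ, if_true]
    refine Finset.sum_congr rfl fun k _ => ?_
    ring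
  have hGs : ∀ i j, G i j = G j i := by
    intro i j
    rw [hG, hG, hBapp, hBapp]
    refine Finset.sum_congr rfl fun k _ => ?_
    ring
  have hG1 : G = Matrix.fromBlocks 0 G.toBlocks₁₂ G.toBlocks₁₂.transpose G.toBlocks₂₂ := by
    ext i j
    rcases i with i | i <;> rcases j with j | j
    · simp only [Matrix.fromBlocks_apply₁₁, Matrix.zero_apply]
      rw [hG, hBapp]
      exact hL2 _ (hb1 i) _ (hb1 j)
    · simp [Matrix.toBlocks₁₂]
    · simp only [Matrix.fromBlocks_apply₂₁, Matrix.transpose_apply, Matrix.toBlocks₁₂,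
        Matrix.of_apply]
      exact hGs _ _
    · simp [Matrix.toBlocks₂₂]
  have h1 : G.det = P.det ^ 2 * ∏ i, w i := by
    simp only [G, Matrix.det_mul, Matrix.det_transpose, Matrix.det_diagonal]
    ring
  have h2 : G.det = (-1) ^ m * G.toBlocks₁₂.det ^ 2 := by
    conv_lhs => rw [hG1]
    rw [det_block]
  refine ⟨G.toBlocks₁₂.det / P.det, ?_⟩
  have h3 : P.det ^ 2 * ∏ i, w i = (-1) ^ m * G.toBlocks₁₂.det ^ 2 := by rw [← h1, h2]
  have h4 : ((-1 : K) ^ m) * (-1) ^ m = 1 := by
    rw [← mul_pow]; simp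
  have h5 : (-1) ^ m * (P.det ^ 2 * ∏ i, w i) = G.toBlocks₁₂.det ^ 2 := by
    rw [h3, ← mul_assoc, h4, one_mul]
  rw [div_mul_div_comm, eq_div_iff (mul_ne_zero hPdet hPdet)]
  linear_combination h5

/-- discriminant of a metabolic form, multiset version. -/
theorem MM.disc {m : ℕ} {s : Multiset K} (hs : (0 : K) ∉ s) (hc : Multiset.card s = 2 * m)
    (h : MM s) : IsSquare ((-1) ^ m * s.prod) := by
  obtain ⟨n, w, rfl⟩ := exists_family s
  have hn : n = m + m := by
    rw [Multiset.card_map] at hc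
    simp at hc
    omega
  subst hn
  have h1 := (Met_of_MM h).of_equiv (finSumFinEquiv (m := m) (n := m)).symm
    (w' := fun i => w (finSumFinEquiv i)) (fun i => by simp)
  have h2 := Witt.disc (fun i => w (finSumFinEquiv i)) (fun i hi => hs
    (Multiset.mem_map.mpr ⟨_, Finset.mem_univ_val _, hi⟩)) h1
  have h3 : ∏ i, w (finSumFinEquiv i) = (Finset.univ.val.map w).prod := by
    rw [Equiv.prod_comp finSumFinEquiv w]
    rfl
  rwa [h3] at h2

end Pool.Agent.H13.Witt
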