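import Mathlib
import Pool.Agent.H13.ETF.SICWitt

set_option autoImplicit false

/-!
Jacobson's theorem for the form `⟨1, δ⟩ ⊗ g`, in the calculus of metabolic diagonal forms.
-/

namespace Pool.Agent.H13.Witt

open Module

variable {K : Type*} [Field K]

/-- `c` is a value of `X² + δ Y²`. -/
def Nrm (δ c : K) : Prop := ∃ p q : K, c = p ^ 2 + δ * q ^ 2

theorem Nrm.one (δ : K) : Nrm δ 1 := ⟨1, 0, by ring⟩

theorem Nrm.mul {δ a b : K} (ha : Nrm δ a) (hb : Nrm δ b) : Nrm δ (a * b) := by
  obtain ⟨p, q, rfl⟩ := ha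
  obtain ⟨r, s, rfl⟩ := hb
  exact ⟨p * r - δ * q * s, p * s + q * r, by ring⟩

theorem Nrm.sq (δ e : K) : Nrm δ (e ^ 2) := ⟨e, 0, by ring⟩

theorem Nrm.inv {δ a : K} (ha : Nrm δ a) : Nrm δ a⁻¹ := by
  by_cases h : a = 0
  · subst h; simpa using ha
  · have : a⁻¹ = a * (a⁻¹) ^ 2 := by field_simp
    rw [this]
    exact ha.mul (Nrm.sq _ _)

theorem Nrm.div {δ a b : K} (ha : Nrm δ a) (hb : Nrm δ b) : Nrm δ (a / b) := by
  rw [div_eq_mul_inv]
  exact ha.mul hb.inv

theorem Nrm.prod {ι : Type*} {δ : K} (S : Finset ι) (f : ι → K) (h : ∀ i ∈ S, Nrm δ (f i)) :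
    Nrm δ (∏ i ∈ S, f i) := by
  classical
  induction S using Finset.induction_on with
  | empty => simpa using Nrm.one δ
  | insert i S hi ih =>
    rw [Finset.prod_insert hi]
    exact (h i (Finset.mem_insert_self _ _)).mul
      (ih fun j hj => h j (Finset.mem_insert_of_mem hj))

theorem MM.smul {s : Multiset K} (k : K) (h : MM s) : MM (s.map (fun a => k * a)) := by
  obtain ⟨n, w, rfl⟩ := exists_family s
  obtain ⟨L, hL, hL2⟩ := Met_of_MM h
  rw [Multiset.map_map]
  refine MM_of_Met ⟨L, hL, fun u hu v hv => ?_⟩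
  have := hL2 u hu v hv
  simp only [Function.comp]
  calc ∑ i, k * w i * u i * v i = k * ∑ i, w i * u i * v i := by
        rw [Finset.mul_sum]
        exact Finset.sum_congr rfl fun i _ => by ring
    _ = 0 := by rw [this, mul_zero]

/-- Witt equivalence of diagonal forms. -/
def WE (s t : Multiset K) : Prop := MM (s + t.map (fun a => -a))

theorem WE.symm {s t : Multiset K} (h : WE s t) : WE t s := by
  have h1 := MM.smul (-1 : K) h
  rw [Multiset.map_add, Multiset.map_map] at h1
  have e1 : t.map ((fun a => -1 * a) ∘ fun a => -a) = t := by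
    conv_rhs => rw [← Multiset.map_id t]
    exact Multiset.map_congr rfl fun a _ => by simp
  have e2 : s.map (fun a => -1 * a) = s.map (fun a => -a) :=
    Multiset.map_congr rfl fun a _ => by ring
  rw [e1, e2, add_comm] at h1
  exact h1

theorem WE.refl (s : Multiset K) : WE s s := MM_self_neg s

theorem WE.smul {s t : Multiset K} (k : K) (h : WE s t) :
    WE (s.map (fun a => k * a)) (t.map (fun a => k * a)) := by
  have h1 := MM.smul k h
  rw [Multiset.map_add, Multiset.map_map] at h1
  unfold WE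
  rw [Multiset.map_map]
  have e : ((fun a : K => -a) ∘ fun a => k * a) = ((fun a => k * a) ∘ fun a : K => -a) := by
    funext a
    simp
  rw [e]
  exact h1

theorem WE.add {s t s' t' : Multiset K} (h : WE s t) (h' : WE s' t') : WE (s + s') (t + t') := by
  unfold WE
  rw [Multiset.map_add]
  convert MM.add h h' using 1
  abel

theorem WE.subst {s t t' : Multiset K} (hs0 : (0 : K) ∉ s) (ht0 : (0 : K) ∉ t)
    (ht'0 : (0 : K) ∉ t') (h : MM (s + t)) (h' : WE t t') : MM (s + t') :=
  h.subst hs0 ht0 ht'0 h'.symm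

theorem WE_norm (a δ t u : K) :
    WE ({a, δ * a} : Multiset K) {(t ^ 2 + δ * u ^ 2) * a, δ * ((t ^ 2 + δ * u ^ 2) * a)} := by
  have h := MM_graph (K := K) (ι := Fin 2) (κ := Fin 2) (w := ![a, δ * a])
    (u := ![(t ^ 2 + δ * u ^ 2) * a, δ * ((t ^ 2 + δ * u ^ 2) * a)]) le_rfl
    (Matrix.toLin' !![t, -(δ * u); u, t]) (fun y z => by
      simp [Fin.sum_univ_two, Matrix.mulVec, dotProduct, Matrix.toLin'_apply]
      ring)
  have e1 : Finset.univ.val.map ![a, δ * a] = ({a, δ * a} : Multiset K) := by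
    rw [Fin.univ_val_map]; rfl
  have e2 : Finset.univ.val.map ![(t ^ 2 + δ * u ^ 2) * a, δ * ((t ^ 2 + δ * u ^ 2) * a)]
      = ({(t ^ 2 + δ * u ^ 2) * a, δ * ((t ^ 2 + δ * u ^ 2) * a)} : Multiset K) := by
    rw [Fin.univ_val_map]; rfl
  rw [e1, e2] at h
  exact h

theorem WE_pair (a b : K) : WE ({a, b} : Multiset K) {a + b, a * b * (a + b)} := by
  have := MM_pair a b
  unfold WE
  simpa using this

theorem WE_sq (a b : K) : WE ({a} : Multiset K) {a * b ^ 2} := by
  have := MM_scale a b
  unfold WE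
  simpa using this

/-- the form `⟨1, δ⟩ ⊗ s` is metabolic. -/
def MMn (δ : K) (s : Multiset K) : Prop := MM (s + s.map (fun a => δ * a))

theorem notMem_pair {a b : K} (ha : a ≠ 0) (hb : b ≠ 0) : (0 : K) ∉ ({a, b} : Multiset K) := by
  intro h
  simp only [Multiset.insert_eq_cons, Multiset.mem_cons, Multiset.mem_singleton] at h
  rcases h with h | h
  · exact ha h.symm
  · exact hb h.symm

theorem notMem_smul {k : K} (hk : k ≠ 0) {s : Multiset K} (h : (0 : K) ∉ s) :
    (0 : K) ∉ s.map (fun a => k * a) := by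
  intro h1
  obtain ⟨a, ha, ha0⟩ := Multiset.mem_map.mp h1
  rcases mul_eq_zero.mp ha0 with h2 | h2
  · exact hk h2
  · exact h (h2 ▸ ha)

theorem notMem_cons {a : K} {s : Multiset K} (ha : a ≠ 0) (hs : (0 : K) ∉ s) :
    (0 : K) ∉ a ::ₘ s := by
  rw [Multiset.mem_cons, not_or]
  exact ⟨ha.symm, hs⟩

theorem MMn.scale1 {δ a t u : K} {r : Multiset K} (hδ : δ ≠ 0) (ha : a ≠ 0)
    (hr : (0 : K) ∉ r) (hc : t ^ 2 + δ * u ^ 2 ≠ 0) (h : MMn δ (a ::ₘ r)) :
    MMn δ ((t ^ 2 + δ * u ^ 2) * a ::ₘ r) := by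
  have e : ∀ b : K, (b ::ₘ r) + (b ::ₘ r).map (fun a => δ * a)
      = (r + r.map (fun a => δ * a)) + ({b, δ * b} : Multiset K) := by
    intro b
    rw [Multiset.map_cons, ← Multiset.singleton_add, ← Multiset.singleton_add]
    have : ({b, δ * b} : Multiset K) = {b} + {δ * b} := rfl
    rw [this]
    abel
  unfold MMn at h ⊢
  rw [e] at h ⊢
  exact WE.subst (notMem_add hr (notMem_smul hδ hr)) (notMem_pair ha (mul_ne_zero hδ ha))
    (notMem_pair (mul_ne_zero hc ha) (mul_ne_zero hδ (mul_ne_zero hc ha))) h (WE_norm a δ t u)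

theorem MMn.pair {δ a b : K} {r : Multiset K} (hδ : δ ≠ 0) (ha : a ≠ 0) (hb : b ≠ 0)
    (hab : a + b ≠ 0) (hr : (0 : K) ∉ r) (h : MMn δ (a ::ₘ b ::ₘ r)) :
    MMn δ ((a + b) ::ₘ (a * b * (a + b)) ::ₘ r) := by
  have e : ∀ a b : K, (a ::ₘ b ::ₘ r) + (a ::ₘ b ::ₘ r).map (fun a => δ * a)
      = ((r + r.map (fun a => δ * a)) + ({a, b} : Multiset K))
        + ({a, b} : Multiset K).map (fun a => δ * a) := by
    intro a b
    have e1 : ({a, b} : Multiset K) = {a} + {b} := rfl
    rw [e1, ← Multiset.singleton_add, ← Multiset.singleton_add, Multiset.map_add, Multiset.map_add,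
      Multiset.map_add]
    abel
  unfold MMn at h ⊢
  rw [e] at h ⊢
  have n1 := notMem_add hr (notMem_smul hδ hr)
  have n2 := notMem_pair ha hb
  have n3 : (0 : K) ∉ ({a + b, a * b * (a + b)} : Multiset K) :=
    notMem_pair hab (mul_ne_zero (mul_ne_zero ha hb) hab)
  have h2 := WE.subst (notMem_add n1 n2) (notMem_smul hδ n2) (notMem_smul hδ n3) h
    ((WE_pair a b).smul δ)
  have h3 : MM ((r + r.map (fun a => δ * a)) + ({a + b, a * b * (a + b)} : Multiset K).map (fun a => δ * a)
      + ({a, b} : Multiset K)) := by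
    convert h2 using 1
    abel
  have h4 := WE.subst (notMem_add n1 (notMem_smul hδ n3)) n2 n3 h3 (WE_pair a b)
  convert h4 using 1
  abel

theorem MMn.cancel_neg {δ a : K} {r : Multiset K} (hδ : δ ≠ 0) (ha : a ≠ 0)
    (hr : (0 : K) ∉ r) (h : MMn δ (a ::ₘ (-a) ::ₘ r)) : MMn δ r := by
  have e : (a ::ₘ (-a) ::ₘ r) + (a ::ₘ (-a) ::ₘ r).map (fun a => δ * a)
      = (r + r.map (fun a => δ * a)) + (({a, -a} : Multiset K)
        + ({a, -a} : Multiset K).map (fun a => δ * a)) := by
    have e1 : ({a, -a} : Multiset K) = {a} + {-a} := rfl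
    rw [e1, ← Multiset.singleton_add, ← Multiset.singleton_add, Multiset.map_add, Multiset.map_add,
      Multiset.map_add]
    abel
  unfold MMn at h ⊢
  rw [e] at h
  have n2 := notMem_pair ha (neg_ne_zero.mpr ha)
  have h1 : MM ({a, -a} : Multiset K) := by
    have := MM_self_neg ({a} : Multiset K)
    simpa using this
  exact h.cancel (notMem_add hr (notMem_smul hδ hr)) (notMem_add n2 (notMem_smul hδ n2))
    (h1.add (h1.smul δ))

theorem step {δ : K} (hδ : δ ≠ 0) : ∀ (n : ℕ) (s r : Multiset K), Multiset.card s = n → s ≠ 0 →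
    (0 : K) ∉ s → (0 : K) ∉ r → s.sum = 0 → MMn δ (s + r) →
    ∃ s' : Multiset K, Multiset.card s' + 2 = Multiset.card s ∧ (0 : K) ∉ s' ∧ MMn δ (s' + r) ∧
      ∃ e : K, e ≠ 0 ∧ s.prod = - e ^ 2 * s'.prod := by
  intro n
  induction n with
  | zero =>
    intro s r hs hs0
    exact absurd (Multiset.card_eq_zero.mp hs) hs0
  | succ n ih =>
    intro s r hs _ h0 hr hsum h
    obtain ⟨a, haS⟩ := Multiset.exists_mem_of_ne_zero (s := s) (by rintro rfl; simp at hs)
    obtain ⟨s1, rfl⟩ := Multiset.exists_cons_of_mem haS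
    rw [Multiset.card_cons] at hs
    have ha : a ≠ 0 := fun h => h0 (by rw [h]; exact Multiset.mem_cons_self _ _)
    have hs1 : s1 ≠ 0 := by
      rintro rfl
      simp at hsum
      exact ha hsum
    obtain ⟨b, hb⟩ := Multiset.exists_mem_of_ne_zero hs1
    obtain ⟨s2, rfl⟩ := Multiset.exists_cons_of_mem hb
    have hb0 : b ≠ 0 := fun h => h0 (by rw [h]; simp)
    have hs20 : (0 : K) ∉ s2 := fun h => h0 (by simp [h])
    by_cases hab : a + b = 0
    · have hba : b = -a := by linear_combination hab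
      subst hba
      refine ⟨s2, by simp, hs20, ?_, a, ha, by simp [Multiset.prod_cons]; ring⟩
      rw [Multiset.cons_add, Multiset.cons_add] at h
      exact h.cancel_neg hδ ha (notMem_add hs20 hr)
    · rw [Multiset.cons_add, Multiset.cons_add] at h
      have h1 := h.pair hδ ha hb0 hab (notMem_add hs20 hr)
      have hc0 : a * b * (a + b) ≠ 0 := mul_ne_zero (mul_ne_zero ha hb0) hab
      have h2 : MMn δ (((a + b) ::ₘ s2) + ((a * b * (a + b)) ::ₘ r)) := by
        convert h1 using 1
        simp only [← Multiset.singleton_add]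
        abel
      obtain ⟨s', hc, hs'0, hs', e, he, hp⟩ := ih ((a + b) ::ₘ s2) ((a * b * (a + b)) ::ₘ r)
        (by rw [Multiset.card_cons] at hs ⊢; omega) (Multiset.cons_ne_zero)
        (notMem_cons hab hs20) (notMem_cons hc0 hr)
        (by rw [Multiset.sum_cons] at *; rw [Multiset.sum_cons] at hsum; linear_combination hsum) h2
      refine ⟨(a * b * (a + b)) ::ₘ s', ?_, notMem_cons hc0 hs'0, ?_, e / (a + b),
        div_ne_zero he hab, ?_⟩
      · rw [Multiset.card_cons] at hc ⊢
        rw [Multiset.card_cons]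
        rw [Multiset.card_cons]
        omega
      · convert hs' using 1
        simp only [← Multiset.singleton_add]
        abel
      · rw [Multiset.prod_cons] at hp ⊢
        rw [Multiset.prod_cons, Multiset.prod_cons]
        field_simp
        linear_combination hp

omit [Field K] in
theorem map_compl_insert {ι : Type*} [Fintype ι] [DecidableEq ι] (w : ι → K) (T : Finset ι) (i : ι)
    (hi : i ∉ T) : (Tᶜ : Finset ι).val.map w = w i ::ₘ ((insert i T)ᶜ : Finset ι).val.map w := by
  have h1 : (Tᶜ : Finset ι) = insert i ((insert i T)ᶜ : Finset ι) := by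
    ext j
    simp only [Finset.mem_compl, Finset.mem_insert]
    constructor
    · intro h
      by_cases hj : j = i
      · exact Or.inl hj
      · exact Or.inr (by simp [hj, h])
    · rintro (rfl | h)
      · exact hi
      · exact fun hh => h (Or.inr hh)
  conv_lhs => rw [h1]
  rw [Finset.insert_val_of_notMem (by simp), Multiset.map_cons]

/-- Jacobson: if `⟨1, δ⟩ ⊗ g` is metabolic, the signed discriminant of `g` is a value of
`⟨1, δ⟩`. -/
theorem jac {δ : K} (hδ : ∀ p q : K, p ^ 2 + δ * q ^ 2 = 0 → p = 0 ∧ q = 0) : ∀ (m : ℕ)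
    (g : Multiset K), Multiset.card g = 2 * m → (0 : K) ∉ g → MMn δ g →
    Nrm δ ((-1) ^ m * g.prod) := by
  classical
  have hδ0 : δ ≠ 0 := by
    rintro rfl
    have := (hδ 0 1 (by ring)).2
    exact one_ne_zero this
  intro m
  induction m with
  | zero =>
    intro g hg _ _
    rw [Nat.mul_zero, Multiset.card_eq_zero] at hg
    subst hg
    simpa using Nrm.one δ
  | succ m ih =>
    intro g hg hg0 h
    obtain ⟨n, w, rfl⟩ := exists_family g
    have hn : n = 2 * (m + 1) := by simpa using hg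
    have hw0 : ∀ i, w i ≠ 0 := fun i hi => hg0 (Multiset.mem_map.mpr ⟨i, Finset.mem_univ_val _, hi⟩)
    have hM : Met (Sum.elim w (fun i => δ * w i)) := by
      apply Met_of_MM
      rw [map_sumElim]
      unfold MMn at h
      rw [Multiset.map_map] at h
      exact h
    obtain ⟨L, hL, hL2⟩ := hM
    have hL3 : L ≠ ⊥ := by
      rintro rfl
      rw [Fintype.card_sum, Fintype.card_fin] at hL
      simp at hL
      omega
    obtain ⟨x, hxL, hx0⟩ := Submodule.exists_mem_ne_zero_of_ne_bot hL3
    have hx := hL2 x hxL x hxL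
    rw [Fintype.sum_sum_type] at hx
    simp only [Sum.elim_inl, Sum.elim_inr] at hx
    let ν : Fin n → K := fun i => x (Sum.inl i) ^ 2 + δ * x (Sum.inr i) ^ 2
    have hsum : ∑ i, w i * ν i = 0 := by
      rw [← hx, ← Finset.sum_add_distrib]
      exact Finset.sum_congr rfl fun i _ => by simp only [ν]; ring
    let S : Finset (Fin n) := Finset.univ.filter fun i => ν i ≠ 0
    have hS : S.Nonempty := by
      by_contra hcon
      rw [Finset.not_nonempty_iff_eq_empty, Finset.filter_eq_empty_iff] at hcon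
      apply hx0
      ext i
      rcases i with i | i
      · exact (hδ _ _ (not_not.mp (hcon (Finset.mem_univ i)))).1
      · exact (hδ _ _ (not_not.mp (hcon (Finset.mem_univ i)))).2
    have key : ∀ T : Finset (Fin n), T ⊆ S →
        MMn δ (T.val.map (fun i => ν i * w i) + (Tᶜ : Finset (Fin n)).val.map w) := by
      intro T
      induction T using Finset.induction_on with
      | empty => intro _; simpa using h
      | insert i T hi ihT =>
        intro hT
        have h1 := ihT fun j hj => hT (Finset.mem_insert_of_mem hj)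
        have hiS : ν i ≠ 0 := by
          have := hT (Finset.mem_insert_self i T)
          exact (Finset.mem_filter.mp this).2
        rw [map_compl_insert w T i hi, Multiset.add_cons] at h1
        have hTS : ∀ j ∈ T, ν j ≠ 0 := fun j hj =>
          (Finset.mem_filter.mp (hT (Finset.mem_insert_of_mem hj))).2
        have h2 := h1.scale1 (t := x (Sum.inl i)) (u := x (Sum.inr i)) hδ0 (hw0 i) (notMem_add (by
            intro hh
            obtain ⟨j, hj, hj0⟩ := Multiset.mem_map.mp hh
            exact mul_ne_zero (hTS j hj) (hw0 j) hj0) (by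
            intro hh
            obtain ⟨j, hj, hj0⟩ := Multiset.mem_map.mp hh
            exact hw0 j hj0)) hiS
        rw [Finset.insert_val_of_notMem hi, Multiset.map_cons, Multiset.cons_add]
        exact h2
    have h3 := key S (Finset.Subset.refl _)
    have hSne : S.val.map (fun i => ν i * w i) ≠ 0 := by
      intro hh
      rw [Multiset.map_eq_zero, Finset.val_eq_zero] at hh
      exact hS.ne_empty hh
    have hS0 : (0 : K) ∉ S.val.map (fun i => ν i * w i) := by
      intro hh
      obtain ⟨j, hj, hj0⟩ := Multiset.mem_map.mp hh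
      exact mul_ne_zero (Finset.mem_filter.mp (Finset.mem_val.mp hj)).2 (hw0 j) hj0
    have hC0 : (0 : K) ∉ (Sᶜ : Finset (Fin n)).val.map w := by
      intro hh
      obtain ⟨j, hj, hj0⟩ := Multiset.mem_map.mp hh
      exact hw0 j hj0
    have hSsum : (S.val.map (fun i => ν i * w i)).sum = 0 := by
      change ∑ i ∈ S, ν i * w i = 0
      rw [← hsum]
      rw [Finset.sum_filter]
      refine Finset.sum_congr rfl fun i _ => ?_
      split_ifs with hi
      · ring
      · rw [not_not.mp hi]; ring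
    obtain ⟨s', hc', hs'0, hs', e, he, hp⟩ := step hδ0 _ _ _ rfl hSne hS0 hC0 hSsum h3
    have hcard : Multiset.card (s' + (Sᶜ : Finset (Fin n)).val.map w) = 2 * m := by
      rw [Multiset.card_map] at hc'
      rw [Multiset.card_add, Multiset.card_map]
      have e1 : S.card + (Sᶜ : Finset (Fin n)).card = n := by
        rw [Finset.card_add_card_compl, Fintype.card_fin]
      change Multiset.card s' + 2 = S.card at hc'
      change Multiset.card s' + (Sᶜ : Finset (Fin n)).card = 2 * m
      omega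
    have h4 := ih _ hcard (notMem_add hs'0 hC0) hs'
    rw [Multiset.prod_add] at h4
    have hν : Nrm δ (∏ i ∈ S, ν i) := Nrm.prod S ν fun i _ => ⟨_, _, rfl⟩
    have hν0 : ∏ i ∈ S, ν i ≠ 0 := Finset.prod_ne_zero_iff.mpr fun i hi => (Finset.mem_filter.mp hi).2
    have hg1 : (Finset.univ.val.map w).prod = (∏ i ∈ S, w i) * ∏ i ∈ Sᶜ, w i := by
      change ∏ i, w i = _
      rw [Finset.prod_mul_prod_compl]
    have hp2 : (∏ i ∈ S, ν i) * ∏ i ∈ S, w i = - e ^ 2 * s'.prod := by
      rw [← hp, ← Finset.prod_mul_distrib]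
      rfl
    have h5 : (-1) ^ (m + 1) * (Finset.univ.val.map w).prod
        = (e ^ 2 * ((-1) ^ m * (s'.prod * ((Sᶜ : Finset (Fin n)).val.map w).prod)))
          / ∏ i ∈ S, ν i := by
      rw [eq_div_iff hν0, hg1]
      change _ = e ^ 2 * ((-1) ^ m * (s'.prod * ∏ i ∈ Sᶜ, w i))
      rw [pow_succ]
      linear_combination (-1) ^ m * (-1) * (∏ i ∈ Sᶜ, w i) * hp2
    rw [h5]
    exact ((Nrm.sq δ e).mul h4).div hν

end Pool.Agent.H13.Witt
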