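import Mathlib
import Pool.Agent.H13.ETF.Jac

set_option autoImplicit false

/-!
The three form-theoretic consequences, over an ordered field.
-/

namespace Pool.Agent.H13.Witt

open Module

section gen

variable {K : Type*} [Field K]

theorem zero_notMem_neg {t : Multiset K} (h : (0 : K) ∉ t) : (0 : K) ∉ t.map (fun a => -a) :=
  zero_notMem_map_neg h

theorem WE.trans {s t u : Multiset K} (hs : (0 : K) ∉ s) (ht : (0 : K) ∉ t) (hu : (0 : K) ∉ u)
    (h1 : WE s t) (h2 : WE t u) : WE s u := by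
  have h3 := MM.add h1 h2
  have e : s + t.map (fun a => -a) + (t + u.map (fun a => -a))
      = (s + u.map (fun a => -a)) + (t + t.map (fun a => -a)) := by abel
  rw [e] at h3
  exact h3.cancel (notMem_add hs (zero_notMem_neg hu)) (notMem_add ht (zero_notMem_neg ht))
    (MM_self_neg t)

theorem WE.cancel {s t u : Multiset K} (hs : (0 : K) ∉ s) (ht : (0 : K) ∉ t) (hu : (0 : K) ∉ u)
    (h : WE (s + u) (t + u)) : WE s t := by
  unfold WE at h ⊢
  have e : s + u + (t + u).map (fun a => -a)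
      = (s + t.map (fun a => -a)) + (u + u.map (fun a => -a)) := by
    rw [Multiset.map_add]; abel
  rw [e] at h
  exact h.cancel (notMem_add hs (zero_notMem_neg ht)) (notMem_add hu (zero_notMem_neg hu))
    (MM_self_neg u)

theorem WE_rep4 {c : K} (hc : Sim 4 c) (q : ℕ) :
    WE (Multiset.replicate (4 * q) (1 : K)) (Multiset.replicate (4 * q) c) := by
  unfold WE
  rw [Multiset.map_replicate]
  exact MM_rep4 c hc q

omit [Field K] in
theorem pair_eq (a b : K) : ({a, b} : Multiset K) = {a} + {b} := rfl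

/-- `⟨1,1,1⟩ ≅ ⟨b, d, bd⟩` for `d = t² + b`, `b = r² + s²`. -/
theorem WE_three {b d t r s : K} (hb0 : b ≠ 0) (hd0 : d ≠ 0) (hb : b = r ^ 2 + s ^ 2)
    (hd : d = t ^ 2 + b) :
    WE ({1} + {1} + {1} : Multiset K) ({b} + {d} + {d * b}) := by
  have h1 : WE ({1} + {1} : Multiset K) ({b} + {b}) := by
    have := WE_norm (1 : K) 1 r s
    have e1 : (r ^ 2 + 1 * s ^ 2) * 1 = b := by rw [hb]; ring
    rw [e1, pair_eq, pair_eq] at this
    simpa using this
  have h2 : WE ({1} + {b} : Multiset K) ({d} + {d * b}) := by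
    have := WE_norm (1 : K) b t 1
    have e1 : (t ^ 2 + b * 1 ^ 2) * 1 = d := by rw [hd]; ring
    have e2 : b * d = d * b := by ring
    rw [e1, pair_eq, pair_eq, e2] at this
    simpa using this
  have n1 : (0 : K) ∉ ({1} : Multiset K) := notMem_singleton one_ne_zero
  have nb : (0 : K) ∉ ({b} : Multiset K) := notMem_singleton hb0
  have nd : (0 : K) ∉ ({d} : Multiset K) := notMem_singleton hd0
  have ndb : (0 : K) ∉ ({d * b} : Multiset K) := notMem_singleton (mul_ne_zero hd0 hb0)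
  have h3 := h1.add (WE.refl ({1} : Multiset K))
  have h4 := h2.add (WE.refl ({b} : Multiset K))
  have e1 : ({b} + {b} + {1} : Multiset K) = {1} + {b} + {b} := by abel
  rw [e1] at h3
  have h5 := WE.trans (notMem_add (notMem_add n1 n1) n1) (notMem_add (notMem_add n1 nb) nb)
    (notMem_add (notMem_add nd ndb) nb) h3 h4
  convert h5 using 1
  abel

theorem MMn_of {δ : K} {s G : Multiset K} 
    (h : MM (s + s.map (fun a => δ * a) + (G + G.map (fun a => δ * a)).map (fun a => -a))) :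
    MMn δ (s + G.map (fun a => -a)) := by
  unfold MMn
  have e : (G.map (fun a => -a)).map (fun a => δ * a) = (G.map (fun a => δ * a)).map (fun a => -a) := by
    rw [Multiset.map_map, Multiset.map_map]
    exact Multiset.map_congr rfl fun a _ => by simp
  rw [Multiset.map_add, e]
  convert h using 1
  rw [Multiset.map_add]
  abel

theorem prod_map_neg (G : Multiset K) : (G.map (fun a => -a)).prod = (-1) ^ (Multiset.card G) * G.prod := by
  induction G using Multiset.induction_on with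
  | empty => simp
  | cons a s ih =>
    rw [Multiset.map_cons, Multiset.prod_cons, ih, Multiset.prod_cons, Multiset.card_cons, pow_succ]
    ring

theorem neg_one_sq (m : ℕ) : ((-1 : K)) ^ m * (-1) ^ m = 1 := by
  rw [← mul_pow]; simp

end gen

variable {F : Type*} [Field F] [LinearOrder F] [IsStrictOrderedRing F]

theorem aniso {δ : F} (hδ : 0 < δ) (p q : F) (h : p ^ 2 + δ * q ^ 2 = 0) : p = 0 ∧ q = 0 := by
  have h1 : 0 ≤ p ^ 2 := sq_nonneg p
  have h2 : 0 ≤ δ * q ^ 2 := mul_nonneg hδ.le (sq_nonneg q)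
  have h3 : p ^ 2 = 0 := by linarith
  have h4 : δ * q ^ 2 = 0 := by linarith
  refine ⟨by simpa using h3, ?_⟩
  rcases mul_eq_zero.mp h4 with h5 | h5
  · exact absurd h5 hδ.ne'
  · simpa using h5

/-- `N ≡ 1 mod 4` -/
theorem thmA {δ : F} (hδ : 0 < δ) (h4 : SS 4 δ) (k : ℕ) (G : Multiset F)
    (hG : Multiset.card G = 4 * k + 1) (hG0 : (0 : F) ∉ G)
    (h : MM (Multiset.replicate (8 * k + 1) (1 : F) + {δ}
      + (G + G.map (fun a => δ * a)).map (fun a => -a))) : Nrm δ G.prod := by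
  have hδ0 : δ ≠ 0 := hδ.ne'
  have nG := zero_notMem_neg (notMem_add hG0 (notMem_smul hδ0 hG0))
  have n1 : ∀ n, (0 : F) ∉ Multiset.replicate n (1 : F) := fun n => notMem_replicate one_ne_zero
  have e1 : 8 * k + 1 = (4 * k + 1) + 4 * k := by ring
  rw [e1, Multiset.replicate_add] at h
  have h1 : MM ((Multiset.replicate (4 * k + 1) (1 : F) + {δ}
      + (G + G.map (fun a => δ * a)).map (fun a => -a)) + Multiset.replicate (4 * k) (1 : F)) := by
    convert h using 1
    abel
  have h2 := WE.subst (notMem_add (notMem_add (n1 _) (notMem_singleton hδ0)) nG) (n1 _)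
    (notMem_replicate hδ0) h1 (WE_rep4 (Sim.of_SS 2 hδ0 h4) k)
  have h3 : MMn δ (Multiset.replicate (4 * k + 1) (1 : F) + G.map (fun a => -a)) := by
    apply MMn_of
    rw [Multiset.map_replicate, mul_one]
    convert h2 using 1
    rw [Multiset.replicate_add (4 * k) 1 δ, Multiset.replicate_one]
    abel
  have h5 := jac (aniso hδ) (4 * k + 1) _ (by simp [hG]; ring)
    (notMem_add (n1 _) (zero_notMem_neg hG0)) h3
  rw [Multiset.prod_add, Multiset.prod_replicate, one_pow, one_mul, prod_map_neg, hG,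
    ← mul_assoc, neg_one_sq, one_mul] at h5
  exact h5

/-- `N ≡ 3 mod 4` -/
theorem thmB {δ b t r s : F} (hb0 : b ≠ 0) (hb : b = r ^ 2 + s ^ 2) (hd : δ = t ^ 2 + b)
    (k : ℕ) (G : Multiset F) (hG : Multiset.card G = 4 * k + 3) (hG0 : (0 : F) ∉ G)
    (h : MM (Multiset.replicate (8 * k + 5) (1 : F) + {δ}
      + (G + G.map (fun a => δ * a)).map (fun a => -a))) : Nrm δ (b * G.prod) := by
  have hbpos : 0 < b := lt_of_le_of_ne (by rw [hb]; positivity) (Ne.symm hb0)
  have hδ : 0 < δ := by rw [hd]; positivity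
  have hδ0 : δ ≠ 0 := hδ.ne'
  have h4 : SS 4 δ := ⟨![t, r, s, 0], by
    rw [Fin.sum_univ_four]
    simp only [Matrix.cons_val]
    rw [hd, hb]; ring⟩
  have nG := zero_notMem_neg (notMem_add hG0 (notMem_smul hδ0 hG0))
  have n1 : ∀ n, (0 : F) ∉ Multiset.replicate n (1 : F) := fun n => notMem_replicate one_ne_zero
  have e1 : 8 * k + 5 = (4 * k + 2) + 4 * k + (1 + 1 + 1) := by ring
  rw [e1, Multiset.replicate_add, Multiset.replicate_add (4 * k + 2), Multiset.replicate_add (1 + 1),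
    Multiset.replicate_add 1 1] at h
  simp only [Multiset.replicate_one] at h
  have n11 : (0 : F) ∉ ({1} : Multiset F) := notMem_singleton one_ne_zero
  have nb : (0 : F) ∉ ({b} : Multiset F) := notMem_singleton hb0
  have nd : (0 : F) ∉ ({δ} : Multiset F) := notMem_singleton hδ0
  have ndb : (0 : F) ∉ ({δ * b} : Multiset F) := notMem_singleton (mul_ne_zero hδ0 hb0)
  have h1 : MM ((Multiset.replicate (4 * k + 2) (1 : F) + {δ} + ({1} + {1} + {1})
      + (G + G.map (fun a => δ * a)).map (fun a => -a)) + Multiset.replicate (4 * k) (1 : F)) := by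
    convert h using 1
    abel
  have h2 := WE.subst (notMem_add (notMem_add (notMem_add (n1 _) nd)
    (notMem_add (notMem_add n11 n11) n11)) nG) (n1 _)
    (notMem_replicate hδ0) h1 (WE_rep4 (Sim.of_SS 2 hδ0 h4) k)
  have h2' : MM ((Multiset.replicate (4 * k + 2) (1 : F) + {δ} + Multiset.replicate (4 * k) δ
      + (G + G.map (fun a => δ * a)).map (fun a => -a)) + ({1} + {1} + {1})) := by
    convert h2 using 1
    abel
  have h3 := WE.subst (notMem_add (notMem_add (notMem_add (n1 _) nd) (notMem_replicate hδ0)) nG)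
    (notMem_add (notMem_add n11 n11) n11) (notMem_add (notMem_add nb nd) ndb) h2'
    (WE_three hb0 hδ0 hb hd)
  have h3' : MMn δ ((Multiset.replicate (4 * k + 2) (1 : F) + {b}) + G.map (fun a => -a)) := by
    apply MMn_of
    rw [Multiset.map_add, Multiset.map_replicate, mul_one, Multiset.map_singleton]
    convert h3 using 1
    rw [Multiset.replicate_add (4 * k) 2 δ]
    have : Multiset.replicate 2 δ = {δ} + {δ} := rfl
    rw [this]
    abel
  have h5 := jac (aniso hδ) (4 * k + 3) _ (by simp [hG]; ring)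
    (notMem_add (notMem_add (n1 _) nb) (zero_notMem_neg hG0)) h3'
  rw [Multiset.prod_add, Multiset.prod_add, Multiset.prod_replicate, one_pow, one_mul,
    prod_map_neg, hG, Multiset.prod_singleton] at h5
  have e2 : (-1 : F) ^ (4 * k + 3) * (b * ((-1) ^ (4 * k + 3) * G.prod)) = b * G.prod := by
    have := neg_one_sq (K := F) (4 * k + 3)
    linear_combination (b * G.prod) * this
  rwa [e2] at h5

/-- `N ≡ 2 mod 4`, the form `2N⟨1⟩` -/
theorem thmC {δ b t r s : F} (hb0 : b ≠ 0) (hb : b = r ^ 2 + s ^ 2) (hd : δ = t ^ 2 + b)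
    (k : ℕ) (G : Multiset F) (hG : Multiset.card G = 4 * k + 2) (hG0 : (0 : F) ∉ G)
    (h : MM (Multiset.replicate (8 * k + 4) (1 : F)
      + (G + G.map (fun a => δ * a)).map (fun a => -a))) : Nrm δ (b * G.prod) := by
  have hbpos : 0 < b := lt_of_le_of_ne (by rw [hb]; positivity) (Ne.symm hb0)
  have hδ : 0 < δ := by rw [hd]; positivity
  have hδ0 : δ ≠ 0 := hδ.ne'
  have h4 : SS 4 δ := ⟨![t, r, s, 0], by
    rw [Fin.sum_univ_four]
    simp only [Matrix.cons_val]
    rw [hd, hb]; ring⟩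
  have nG := zero_notMem_neg (notMem_add hG0 (notMem_smul hδ0 hG0))
  have n1 : ∀ n, (0 : F) ∉ Multiset.replicate n (1 : F) := fun n => notMem_replicate one_ne_zero
  have e1 : 8 * k + 4 = (4 * k + 1) + 4 * k + (1 + 1 + 1) := by ring
  rw [e1, Multiset.replicate_add, Multiset.replicate_add (4 * k + 1), Multiset.replicate_add (1 + 1),
    Multiset.replicate_add 1 1] at h
  simp only [Multiset.replicate_one] at h
  have n11 : (0 : F) ∉ ({1} : Multiset F) := notMem_singleton one_ne_zero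
  have nb : (0 : F) ∉ ({b} : Multiset F) := notMem_singleton hb0
  have nd : (0 : F) ∉ ({δ} : Multiset F) := notMem_singleton hδ0
  have ndb : (0 : F) ∉ ({δ * b} : Multiset F) := notMem_singleton (mul_ne_zero hδ0 hb0)
  have h1 : MM ((Multiset.replicate (4 * k + 1) (1 : F) + ({1} + {1} + {1})
      + (G + G.map (fun a => δ * a)).map (fun a => -a)) + Multiset.replicate (4 * k) (1 : F)) := by
    convert h using 1
    abel
  have h2 := WE.subst (notMem_add (notMem_add (n1 _)
    (notMem_add (notMem_add n11 n11) n11)) nG) (n1 _)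
    (notMem_replicate hδ0) h1 (WE_rep4 (Sim.of_SS 2 hδ0 h4) k)
  have h2' : MM ((Multiset.replicate (4 * k + 1) (1 : F) + Multiset.replicate (4 * k) δ
      + (G + G.map (fun a => δ * a)).map (fun a => -a)) + ({1} + {1} + {1})) := by
    convert h2 using 1
    abel
  have h3 := WE.subst (notMem_add (notMem_add (n1 _) (notMem_replicate hδ0)) nG)
    (notMem_add (notMem_add n11 n11) n11) (notMem_add (notMem_add nb nd) ndb) h2'
    (WE_three hb0 hδ0 hb hd)
  have h3' : MMn δ ((Multiset.replicate (4 * k + 1) (1 : F) + {b}) + G.map (fun a => -a)) := by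
    apply MMn_of
    rw [Multiset.map_add, Multiset.map_replicate, mul_one, Multiset.map_singleton]
    convert h3 using 1
    rw [Multiset.replicate_add (4 * k) 1 δ, Multiset.replicate_one]
    abel
  have h5 := jac (aniso hδ) (4 * k + 2) _ (by simp [hG]; ring)
    (notMem_add (notMem_add (n1 _) nb) (zero_notMem_neg hG0)) h3'
  rw [Multiset.prod_add, Multiset.prod_add, Multiset.prod_replicate, one_pow, one_mul,
    prod_map_neg, hG, Multiset.prod_singleton] at h5
  have e2 : (-1 : F) ^ (4 * k + 2) * (b * ((-1) ^ (4 * k + 2) * G.prod)) = b * G.prod := by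
    have := neg_one_sq (K := F) (4 * k + 2)
    linear_combination (b * G.prod) * this
  rwa [e2] at h5

theorem finA {δ : F} (h : Nrm δ 2) : ∃ a b : F, δ = a ^ 2 - 2 * b ^ 2 := by
  obtain ⟨p, q, h⟩ := h
  by_cases hq : q = 0
  · subst hq
    have hp : p ≠ 0 := by
      rintro rfl
      norm_num at h
    refine ⟨(δ + 1) / 2, (δ - 1) / (2 * p), ?_⟩
    have hp2 : p ^ 2 = 2 := by linear_combination -h
    have : (2 : F) * ((δ - 1) / (2 * p)) ^ 2 = (δ - 1) ^ 2 / 4 := by
      rw [div_pow, mul_pow, hp2]; ring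
    rw [this]
    ring
  · refine ⟨p / q + 2 / q, p / q + 1 / q, ?_⟩
    have : δ = (2 - p ^ 2) / q ^ 2 := by
      rw [eq_div_iff (pow_ne_zero 2 hq)]
      linear_combination -h
    rw [this]
    field_simp
    ring

theorem finB {δ b t r s : F} (hb0 : b ≠ 0) (hb : b = r ^ 2 + s ^ 2) (hd : δ = t ^ 2 + b)
    (h : Nrm δ (2 * b)) : ∃ a c : F, δ = a ^ 2 + 2 * c ^ 2 := by
  have hbpos : 0 < b := lt_of_le_of_ne (by rw [hb]; positivity) (Ne.symm hb0)
  have hδ : 0 < δ := by rw [hd]; positivity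
  have hδ0 : δ ≠ 0 := hδ.ne'
  have h20 : (2 : F) ≠ 0 := two_ne_zero
  obtain ⟨p, q, hpq⟩ := h
  have n1 : (0 : F) ∉ ({1} : Multiset F) := notMem_singleton one_ne_zero
  have nb : (0 : F) ∉ ({b} : Multiset F) := notMem_singleton hb0
  have nd : (0 : F) ∉ ({δ} : Multiset F) := notMem_singleton hδ0
  have ndb : (0 : F) ∉ ({δ * b} : Multiset F) := notMem_singleton (mul_ne_zero hδ0 hb0)
  have n2 : (0 : F) ∉ ({2} : Multiset F) := notMem_singleton h20
  have n2d : (0 : F) ∉ ({2 * δ} : Multiset F) := notMem_singleton (mul_ne_zero h20 hδ0)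
  have nx : (0 : F) ∉ ({2 * b ^ 2} : Multiset F) :=
    notMem_singleton (mul_ne_zero h20 (pow_ne_zero 2 hb0))
  have ny : (0 : F) ∉ ({2 * δ * b ^ 2} : Multiset F) :=
    notMem_singleton (mul_ne_zero (mul_ne_zero h20 hδ0) (pow_ne_zero 2 hb0))
  -- `⟨1,1,1⟩ ≅ ⟨b,δ,δb⟩`
  have h1 := WE_three hb0 hδ0 hb hd
  -- `⟨b, δb⟩ ≅ ⟨2, 2δ⟩`
  have h2 : WE ({b} + {δ * b} : Multiset F) ({2 * b ^ 2} + {2 * δ * b ^ 2}) := by
    have := WE_norm b δ p q
    rw [← hpq, pair_eq, pair_eq] at this
    have e1 : 2 * b * b = 2 * b ^ 2 := by ring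
    have e2 : δ * (2 * b ^ 2) = 2 * δ * b ^ 2 := by ring
    rwa [e1, e2] at this
  have h3 : WE ({2 * b ^ 2} + {2 * δ * b ^ 2} : Multiset F) ({2} + {2 * δ}) :=
    ((WE_sq 2 b).add (WE_sq (2 * δ) b)).symm
  have h4 := WE.trans (notMem_add nb ndb) (notMem_add nx ny) (notMem_add n2 n2d) h2 h3
  have h5 := h4.add (WE.refl ({δ} : Multiset F))
  have e1 : ({b} + {δ * b} + {δ} : Multiset F) = {b} + {δ} + {δ * b} := by abel
  rw [e1] at h5
  have h6 := WE.trans (notMem_add (notMem_add n1 n1) n1) (notMem_add (notMem_add nb nd) ndb)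
    (notMem_add (notMem_add n2 n2d) nd) h1 h5
  -- `⟨1,1⟩ ≅ ⟨2,2⟩`
  have h7 : WE ({1} + {1} : Multiset F) ({2} + {2}) := by
    have := WE_norm (1 : F) 1 1 1
    have e1 : ((1 : F) ^ 2 + 1 * 1 ^ 2) * 1 = 2 := by norm_num
    rw [e1, pair_eq, pair_eq] at this
    simpa using this
  have h8 := WE.trans (notMem_add (notMem_add n2 n2) n1) (notMem_add (notMem_add n1 n1) n1)
    (notMem_add (notMem_add n2 n2d) nd) (h7.symm.add (WE.refl ({1} : Multiset F))) h6
  have e3 : ({2} + {2} + {1} : Multiset F) = ({1} + {2}) + {2} := by abel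
  have e4 : ({2} + {2 * δ} + {δ} : Multiset F) = ({δ} + {2 * δ}) + {2} := by abel
  rw [e3, e4] at h8
  have h9 := WE.cancel (notMem_add n1 n2) (notMem_add nd n2d) n2 h8
  have h10 : MMn (2 : F) ({1, -δ} : Multiset F) := by
    unfold MMn
    unfold WE at h9
    convert h9 using 1
    rw [pair_eq, Multiset.map_add, Multiset.map_add]
    simp only [Multiset.map_singleton, mul_one, mul_neg]
    abel
  have h11 := jac (aniso (by norm_num : (0 : F) < 2)) 1 _ (by simp)
    (notMem_pair one_ne_zero (neg_ne_zero.mpr hδ0)) h10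
  obtain ⟨a, c, hac⟩ := h11
  refine ⟨a, c, ?_⟩
  rw [← hac]
  simp

theorem finC {δ b t r s : F} (hb0 : b ≠ 0) (hb : b = r ^ 2 + s ^ 2) (hd : δ = t ^ 2 + b)
    (h : Nrm δ b) : ∃ a c : F, δ = a ^ 2 + c ^ 2 := by
  have hbpos : 0 < b := lt_of_le_of_ne (by rw [hb]; positivity) (Ne.symm hb0)
  have hδ : 0 < δ := by rw [hd]; positivity
  have hδ0 : δ ≠ 0 := hδ.ne'
  obtain ⟨p, q, hpq⟩ := h
  have n1 : (0 : F) ∉ ({1} : Multiset F) := notMem_singleton one_ne_zero
  have nb : (0 : F) ∉ ({b} : Multiset F) := notMem_singleton hb0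
  have nd : (0 : F) ∉ ({δ} : Multiset F) := notMem_singleton hδ0
  have ndb : (0 : F) ∉ ({δ * b} : Multiset F) := notMem_singleton (mul_ne_zero hδ0 hb0)
  have nx : (0 : F) ∉ ({1 * b ^ 2} : Multiset F) :=
    notMem_singleton (mul_ne_zero one_ne_zero (pow_ne_zero 2 hb0))
  have ny : (0 : F) ∉ ({δ * b ^ 2} : Multiset F) :=
    notMem_singleton (mul_ne_zero hδ0 (pow_ne_zero 2 hb0))
  have h1 := WE_three hb0 hδ0 hb hd
  have h2 : WE ({b} + {δ * b} : Multiset F) ({1 * b ^ 2} + {δ * b ^ 2}) := by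
    have := WE_norm b δ p q
    rw [← hpq, pair_eq, pair_eq] at this
    have e1 : b * b = 1 * b ^ 2 := by ring
    have e2 : δ * (1 * b ^ 2) = δ * b ^ 2 := by ring
    rwa [e1, e2] at this
  have h3 : WE ({1 * b ^ 2} + {δ * b ^ 2} : Multiset F) ({1} + {δ}) :=
    ((WE_sq 1 b).add (WE_sq δ b)).symm
  have h4 := WE.trans (notMem_add nb ndb) (notMem_add nx ny) (notMem_add n1 nd) h2 h3
  have h5 := h4.add (WE.refl ({δ} : Multiset F))
  have e1 : ({b} + {δ * b} + {δ} : Multiset F) = {b} + {δ} + {δ * b} := by abel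
  rw [e1] at h5
  have h6 := WE.trans (notMem_add (notMem_add n1 n1) n1) (notMem_add (notMem_add nb nd) ndb)
    (notMem_add (notMem_add n1 nd) nd) h1 h5
  have e4 : ({1} + {δ} + {δ} : Multiset F) = ({δ} + {δ}) + {1} := by abel
  rw [e4] at h6
  have h9 := WE.cancel (notMem_add n1 n1) (notMem_add nd nd) n1 h6
  have h10 : MMn (1 : F) ({1, -δ} : Multiset F) := by
    unfold MMn
    unfold WE at h9
    convert h9 using 1
    rw [pair_eq, Multiset.map_add, Multiset.map_add]
    simp only [Multiset.map_singleton, one_mul]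
    abel
  have h11 := jac (aniso (by norm_num : (0 : F) < 1)) 1 _ (by simp)
    (notMem_pair one_ne_zero (neg_ne_zero.mpr hδ0)) h10
  obtain ⟨a, c, hac⟩ := h11
  refine ⟨a, c, ?_⟩
  rw [one_mul] at hac
  rw [← hac]
  simp

end Pool.Agent.H13.Witt
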