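import Mathlib
import Pool.Agent.H13.ETF.Forms

set_option autoImplicit false

/-!
From the rational data of a maximal ETF to the Witt relation.
-/

namespace Pool.Agent.H13.Witt

open Module

/-- pairs `(a, b)` with `b < a`. -/
abbrev Pr (d : ℕ) := {p : Fin d × Fin d // p.2 < p.1}

theorem prod_split {M : Type*} [CommMonoid M] {d : ℕ} (f : Fin d → Fin d → M) :
    ∏ a, ∏ b, f a b = (∏ a, f a a) * ∏ p : Pr d, (f p.1.1 p.1.2 * f p.1.2 p.1.1) := by
  classical
  have h1 : ∀ a b, f a b = (if b < a then f a b else 1) * (if a = b then f a b else 1)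
      * (if a < b then f a b else 1) := by
    intro a b
    rcases lt_trichotomy a b with h | h | h
    · simp [h, h.ne, h.not_gt]
    · simp [h]
    · simp [h, h.ne', h.not_gt]
  have h2 : ∏ a, ∏ b, f a b = (∏ a, ∏ b, if b < a then f a b else 1)
      * (∏ a, ∏ b, if a = b then f a b else 1) * (∏ a, ∏ b, if a < b then f a b else 1) := by
    rw [← Finset.prod_mul_distrib, ← Finset.prod_mul_distrib]
    refine Finset.prod_congr rfl fun a _ => ?_
    rw [← Finset.prod_mul_distrib, ← Finset.prod_mul_distrib]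
    exact Finset.prod_congr rfl fun b _ => h1 a b
  have h3 : (∏ a, ∏ b, if a < b then f a b else 1) = ∏ a, ∏ b, if b < a then f b a else 1 := by
    rw [Finset.prod_comm]
  have h4 : ∀ g : Fin d → Fin d → M, (∏ a, ∏ b, if b < a then g a b else 1)
      = ∏ p : Pr d, g p.1.1 p.1.2 := by
    intro g
    rw [← Finset.prod_product', ← Finset.prod_filter]
    exact Finset.prod_subtype _ (by simp) fun p : Fin d × Fin d => g p.1 p.2
  rw [h2, h3, h4, h4 (fun a b => f b a)]
  simp only [Finset.prod_ite_eq, Finset.mem_univ, if_true]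
  rw [Finset.prod_mul_distrib, mul_comm (∏ p : Pr d, f p.1.1 p.1.2), mul_assoc]

theorem sum_split {M : Type*} [AddCommMonoid M] {d : ℕ} (f : Fin d → Fin d → M) :
    ∑ a, ∑ b, f a b = (∑ a, f a a) + ∑ p : Pr d, (f p.1.1 p.1.2 + f p.1.2 p.1.1) := by
  classical
  have h1 : ∀ a b, f a b = (if b < a then f a b else 0) + (if a = b then f a b else 0)
      + (if a < b then f a b else 0) := by
    intro a b
    rcases lt_trichotomy a b with h | h | h
    · simp [h, h.ne, h.not_gt]
    · simp [h]
    · simp [h, h.ne', h.not_gt]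
  have h2 : ∑ a, ∑ b, f a b = (∑ a, ∑ b, if b < a then f a b else 0)
      + (∑ a, ∑ b, if a = b then f a b else 0) + (∑ a, ∑ b, if a < b then f a b else 0) := by
    rw [← Finset.sum_add_distrib, ← Finset.sum_add_distrib]
    refine Finset.sum_congr rfl fun a _ => ?_
    rw [← Finset.sum_add_distrib, ← Finset.sum_add_distrib]
    exact Finset.sum_congr rfl fun b _ => h1 a b
  have h3 : (∑ a, ∑ b, if a < b then f a b else 0) = ∑ a, ∑ b, if b < a then f b a else 0 := by
    rw [Finset.sum_comm]
  have h4 : ∀ g : Fin d → Fin d → M, (∑ a, ∑ b, if b < a then g a b else 0)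
      = ∑ p : Pr d, g p.1.1 p.1.2 := by
    intro g
    rw [← Finset.sum_product', ← Finset.sum_filter]
    exact Finset.sum_subtype _ (by simp) fun p : Fin d × Fin d => g p.1 p.2
  rw [h2, h3, h4, h4 (fun a b => f b a)]
  simp only [Finset.sum_ite_eq, Finset.mem_univ, if_true]
  rw [Finset.sum_add_distrib, add_comm (∑ p : Pr d, f p.1.1 p.1.2), add_assoc]

theorem two_mul_card_Pr (d : ℕ) : 2 * Fintype.card (Pr d) + d = d ^ 2 := by
  have h := sum_split (M := ℕ) (d := d) (fun _ _ => 1)
  simp only [Finset.sum_const, Finset.card_univ, Fintype.card_fin, smul_eq_mul, mul_one] at h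
  rw [pow_two, h]
  ring

section F

variable {K : Type*} [Field K]

/-- the weights `2 h_a h_b`. -/
def wt {d : ℕ} (h : Fin d → K) (p : Pr d) : K := 2 * (h p.1.1 * h p.1.2)

theorem prod_wt {d : ℕ} (h : Fin d → K) (h0 : ∀ a, h a ≠ 0) :
    ∏ p : Pr d, wt h p = 2 ^ (Fintype.card (Pr d)) * (∏ a, h a) ^ (d - 1) := by
  rcases Nat.eq_zero_or_pos d with hd | hd
  · subst hd
    have : IsEmpty (Pr 0) := ⟨fun p => p.1.1.elim0⟩
    simp
  have h1 := prod_split (M := K) (d := d) (fun a _ => h a)
  simp only [Finset.prod_const, Finset.card_univ, Fintype.card_fin] at h1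
  have h2 : (∏ a, h a) ≠ 0 := Finset.prod_ne_zero_iff.mpr fun a _ => h0 a
  have h3 : ∏ p : Pr d, (h p.1.1 * h p.1.2) = (∏ a, h a) ^ (d - 1) := by
    apply mul_left_cancel₀ h2
    rw [← h1, Finset.prod_pow, ← pow_succ']
    congr 1
    omega
  simp only [wt]
  rw [Finset.prod_mul_distrib, h3]
  simp

/-- The Lagrangian attached to the rational data of a maximal equiangular tight frame. -/
theorem Met_data [CharZero K] {d : ℕ} (hd : 1 ≤ d) (δ : K) (h : Fin d → K)
    (A : Fin d → Fin (d ^ 2) → K) (U V : Pr d → Fin (d ^ 2) → K)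
    (hM : ∀ i j, ∑ a, A a i * A a j + ∑ p, wt h p * (U p i * U p j)
      + ∑ p, δ * wt h p * (V p i * V p j) = if i = j then 1 else 1 / ((d : K) + 1)) :
    Met (Sum.elim (Sum.elim (fun _ : Fin (d ^ 2) => (d : K) / ((d : K) + 1))
        (fun _ : Unit => 1 / ((d : K) + 1)))
      (Sum.elim (Sum.elim (fun _ : Fin d => (-1 : K))
        (Sum.elim (fun p : Pr d => - wt h p) (fun p : Pr d => - (δ * wt h p))))
        (fun _ : Unit => (-1 : K)))) := by
  classical
  have hd0 : (d : K) ≠ 0 := by exact_mod_cast (by omega : d ≠ 0)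
  have hd1 : (d : K) + 1 ≠ 0 := by exact_mod_cast Nat.succ_ne_zero d
  let S : (Fin (d ^ 2) → K) → (Fin (d ^ 2) → K) → K := fun y B => ∑ i, y i * B i
  have Sadd : ∀ y z B, S (y + z) B = S y B + S z B := by
    intro y z B
    simp only [S, Pi.add_apply, add_mul, Finset.sum_add_distrib]
  have Ssmul : ∀ (c : K) y B, S (c • y) B = c * S y B := by
    intro c y B
    simp only [S, Pi.smul_apply, smul_eq_mul, Finset.mul_sum, mul_assoc]
  have hS : ∀ y z B, S y B * S z B = ∑ i, ∑ j, y i * z j * (B i * B j) := by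
    intro y z B
    simp only [S, Finset.sum_mul_sum]
    exact Finset.sum_congr rfl fun i _ => Finset.sum_congr rfl fun j _ => by ring
  have hX : ∀ y z, ∑ a, S y (A a) * S z (A a) + ∑ p, wt h p * (S y (U p) * S z (U p))
      + ∑ p, δ * wt h p * (S y (V p) * S z (V p))
      = ((d : K) / ((d : K) + 1)) * ∑ i, y i * z i
        + (1 / ((d : K) + 1)) * ((∑ i, y i) * ∑ i, z i) := by
    intro y z
    have h0 : ∀ (ι : Type) [Fintype ι] (c : ι → K) (B : ι → Fin (d ^ 2) → K),
        ∑ a, c a * (S y (B a) * S z (B a)) = ∑ i, ∑ j, y i * z j * ∑ a, c a * (B a i * B a j) := by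
      intro ι _ c B
      simp only [hS, Finset.mul_sum]
      rw [Finset.sum_comm]
      refine Finset.sum_congr rfl fun i _ => ?_
      rw [Finset.sum_comm]
      refine Finset.sum_congr rfl fun j _ => ?_
      exact Finset.sum_congr rfl fun a _ => by ring
    have h1 := h0 (Fin d) (fun _ => 1) A
    simp only [one_mul] at h1
    rw [h1, h0 (Pr d) (wt h) U, h0 (Pr d) (fun p => δ * wt h p) V]
    have h2 : ∀ i j, y i * z j * (if i = j then 1 else 1 / ((d : K) + 1))
        = (if i = j then ((d : K) / ((d : K) + 1)) * (y i * z j) else 0)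
          + (1 / ((d : K) + 1)) * (y i * z j) := by
      intro i j
      split_ifs
      · field_simp
      · ring
    simp only [← Finset.sum_add_distrib, ← mul_add, hM, h2]
    simp only [Finset.sum_add_distrib, Finset.sum_ite_eq, Finset.mem_univ, if_true,
      ← Finset.mul_sum, Finset.sum_mul_sum]
  let F : ((Fin (d ^ 2) → K) × K) →ₗ[K]
      (((Fin (d ^ 2) ⊕ Unit) ⊕ ((Fin d ⊕ (Pr d ⊕ Pr d)) ⊕ Unit)) → K) :=
    { toFun := fun p => Sum.elim
        (Sum.elim (fun i => p.1 i + p.2 / d) (fun _ => (∑ i, p.1 i) - p.2))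
        (Sum.elim (Sum.elim (fun a => S p.1 (A a)) (Sum.elim (fun q => S p.1 (U q))
          (fun q => S p.1 (V q)))) (fun _ => p.2))
      map_add' := by
        intro p q
        ext i
        rcases i with (i | i) | ((i | (i | i)) | i)
        · simp; ring
        · simp [Finset.sum_add_distrib]; ring
        · simp [Sadd]
        · simp [Sadd]
        · simp [Sadd]
        · simp
      map_smul' := by
        intro c p
        ext i
        rcases i with (i | i) | ((i | (i | i)) | i)
        · simp; ring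
        · simp [← Finset.mul_sum]; ring
        · simp [Ssmul]
        · simp [Ssmul]
        · simp [Ssmul]
        · simp }
  have hFinj : Function.Injective F := by
    intro p q h
    have h2 : p.2 = q.2 := congrFun h (Sum.inr (Sum.inr ()))
    have h1 : p.1 = q.1 := by
      ext i
      have h3 : p.1 i + p.2 / d = q.1 i + q.2 / d := congrFun h (Sum.inl (Sum.inl i))
      rw [h2] at h3
      exact add_right_cancel h3
    exact Prod.ext h1 h2
  refine ⟨LinearMap.range F, ?_, ?_⟩
  · rw [LinearMap.finrank_range_of_inj hFinj, Module.finrank_prod, Module.finrank_self,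
      Module.finrank_fintype_fun_eq_card]
    simp only [Fintype.card_sum, Fintype.card_fin, Fintype.card_unit]
    have h1 := two_mul_card_Pr d
    omega
  · rintro _ ⟨⟨y, c⟩, rfl⟩ _ ⟨⟨z, c'⟩, rfl⟩
    have hX' := hX y z
    simp only [Fintype.sum_sum_type, Sum.elim_inl, Sum.elim_inr, F, LinearMap.coe_mk,
      AddHom.coe_mk, Finset.univ_unique, Finset.sum_singleton]
    have e1 : ∑ i, (d : K) / ((d : K) + 1) * (y i + c / d) * (z i + c' / d)
        = ((d : K) / ((d : K) + 1)) * ∑ i, y i * z i
          + (1 / ((d : K) + 1)) * (c' * ∑ i, y i) + (1 / ((d : K) + 1)) * (c * ∑ i, z i)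
          + (d : K) / ((d : K) + 1) * (c * c') := by
      have e2 : ∀ i, (d : K) / ((d : K) + 1) * (y i + c / d) * (z i + c' / d)
        = ((d : K) / ((d : K) + 1)) * (y i * z i) + (1 / ((d : K) + 1)) * (c' * y i)
          + (1 / ((d : K) + 1)) * (c * z i) + (1 / ((d : K) + 1)) * (c * c' / d) := by
        intro i
        field_simp
        ring
      simp only [e2, Finset.sum_add_distrib, ← Finset.mul_sum, Finset.sum_const,
        Finset.card_univ, Fintype.card_fin, nsmul_eq_mul]
      push_cast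
      field_simp
    have e3 : ∑ a, (-1 : K) * S y (A a) * S z (A a) = - ∑ a, S y (A a) * S z (A a) := by
      rw [← Finset.sum_neg_distrib]
      exact Finset.sum_congr rfl fun a _ => by ring
    have e4 : ∑ p, (- wt h p) * S y (U p) * S z (U p) = - ∑ p, wt h p * (S y (U p) * S z (U p)) := by
      rw [← Finset.sum_neg_distrib]
      exact Finset.sum_congr rfl fun a _ => by ring
    have e5 : ∑ p, (- (δ * wt h p)) * S y (V p) * S z (V p)
        = - ∑ p, δ * wt h p * (S y (V p) * S z (V p)) := by
      rw [← Finset.sum_neg_distrib]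
      exact Finset.sum_congr rfl fun a _ => by ring
    rw [e1, e3, e4, e5]
    have e6 : -(∑ a, S y (A a) * S z (A a)) + (-(∑ p, wt h p * (S y (U p) * S z (U p)))
        + -(∑ p, δ * wt h p * (S y (V p) * S z (V p))))
        = -(((d : K) / ((d : K) + 1)) * ∑ i, y i * z i
        + (1 / ((d : K) + 1)) * ((∑ i, y i) * ∑ i, z i)) := by
      rw [← hX']; ring
    rw [e6]
    field_simp
    ring

/-- the odd case of the reduction. -/
theorem reduce_odd [CharZero K] {d : ℕ} (hodd : Odd d) (R : Multiset K) (hR : (0 : K) ∉ R)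
    (h0 : MM (Multiset.replicate (d ^ 2) ((d : K) / ((d : K) + 1)) + {1 / ((d : K) + 1)} + R)) :
    MM (Multiset.replicate (d ^ 2) (1 : K) + {(d : K)} + R) := by
  classical
  have hd0 : (d : K) ≠ 0 := by
    obtain ⟨k, rfl⟩ := hodd
    exact_mod_cast (by omega : 2 * k + 1 ≠ 0)
  have hd1 : (d : K) + 1 ≠ 0 := by exact_mod_cast Nat.succ_ne_zero d
  set c : K := (d : K) / ((d : K) + 1) with hc
  have hc0 : c ≠ 0 := div_ne_zero hd0 hd1
  have hsim : Sim 4 c := by
    have h1 : SS (2 ^ 2) (((d * (d + 1) : ℕ) : K) * (((d : K) + 1)⁻¹) ^ 2) :=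
      (SS_four_nat _).scale _
    have h2 : (((d * (d + 1) : ℕ) : K) * (((d : K) + 1)⁻¹) ^ 2) = c := by
      rw [hc]; push_cast; field_simp
    rw [h2] at h1
    exact Sim.of_SS 2 hc0 h1
  obtain ⟨q, hq⟩ : ∃ q, d ^ 2 = 4 * q + 1 := by
    obtain ⟨r, hr⟩ := hodd
    exact ⟨r ^ 2 + r, by rw [hr]; ring⟩
  rw [hq, Multiset.replicate_add, Multiset.replicate_one] at h0
  rw [hq, Multiset.replicate_add, Multiset.replicate_one]
  have n1 : (0 : K) ∉ ({1 / ((d : K) + 1)} : Multiset K) :=
    notMem_singleton (one_div_ne_zero hd1)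
  have nc : (0 : K) ∉ ({c} : Multiset K) := notMem_singleton hc0
  have n3 : (0 : K) ∉ Multiset.replicate (4 * q) (1 : K) := notMem_replicate one_ne_zero
  have n4 : (0 : K) ∉ ({(d : K) + 1} : Multiset K) := notMem_singleton hd1
  have n5 : (0 : K) ∉ ({(d : K) * ((d : K) + 1)} : Multiset K) :=
    notMem_singleton (mul_ne_zero hd0 hd1)
  have h1 : MM (({c} + {1 / ((d : K) + 1)} + R) + Multiset.replicate (4 * q) c) := by
    convert h0 using 1
    abel
  have h3 := WE.subst (notMem_add (notMem_add nc n1) hR)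
      (notMem_replicate hc0) (notMem_replicate one_ne_zero) h1 (WE_rep4 hsim q).symm
  have w1 : WE ({1 / ((d : K) + 1)} : Multiset K) {(d : K) + 1} := by
    have h1 := (WE_sq ((d : K) + 1) (((d : K) + 1)⁻¹)).symm
    have h2 : ((d : K) + 1) * ((d : K) + 1)⁻¹ ^ 2 = 1 / ((d : K) + 1) := by field_simp
    rwa [h2] at h1
  have w2 : WE ({c} : Multiset K) {(d : K) * ((d : K) + 1)} := by
    have h1 := (WE_sq ((d : K) * ((d : K) + 1)) (((d : K) + 1)⁻¹)).symm
    have h2 : ((d : K) * ((d : K) + 1)) * ((d : K) + 1)⁻¹ ^ 2 = c := by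
      rw [hc]; field_simp
    rwa [h2] at h1
  have w3 : WE ({c} + {1 / ((d : K) + 1)} : Multiset K) ({1} + {(d : K)}) := by
    refine WE.trans (notMem_add nc n1) (notMem_add n5 n4)
      (notMem_add (notMem_singleton one_ne_zero) (notMem_singleton hd0)) (w2.add w1) ?_
    have h1 := (WE_pair (1 : K) d).symm
    have e1 : (1 : K) + d = d + 1 := by ring
    have e2 : (1 : K) * d * (1 + d) = d * (d + 1) := by ring
    rw [e2, e1, pair_eq, pair_eq] at h1
    convert h1 using 1
    abel
  have h4 : MM ((Multiset.replicate (4 * q) (1 : K) + R) + ({c} + {1 / ((d : K) + 1)})) := by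
    convert h3 using 1
    abel
  have h5 := WE.subst (notMem_add n3 hR) (notMem_add nc n1)
    (notMem_add (notMem_singleton one_ne_zero) (notMem_singleton hd0)) h4 w3
  convert h5 using 1
  abel

/-- The Witt relation over the real subfield. -/
theorem key_real [CharZero K] {d : ℕ} (hd2 : 2 ≤ d) (hodd : Odd d) {δ : K} (hδ : δ ≠ 0) (h : Fin d → K)
    (h0 : ∀ a, h a ≠ 0)
    (A : Fin d → Fin (d ^ 2) → K) (U V : Pr d → Fin (d ^ 2) → K)
    (hM : ∀ i j, ∑ a, A a i * A a j + ∑ p, wt h p * (U p i * U p j)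
      + ∑ p, δ * wt h p * (V p i * V p j) = if i = j then 1 else 1 / ((d : K) + 1)) :
    ∃ G : Multiset K, Multiset.card G = d * (d - 1) / 2 ∧ (0 : K) ∉ G ∧
      G.prod = 2 ^ (d * (d - 1) / 2) * (∏ a, h a) ^ (d - 1) ∧
      MM (Multiset.replicate (d * (d - 1) - 1) (1 : K) + {(d : K)}
        + (G + G.map (fun a => δ * a)).map (fun a => -a)) := by
  classical
  have hd : 1 ≤ d := hodd.pos
  have hd0 : (d : K) ≠ 0 := by exact_mod_cast (by omega : d ≠ 0)
  have hcard : Fintype.card (Pr d) = d * (d - 1) / 2 := by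
    have h1 := two_mul_card_Pr d
    have h2 : d * (d - 1) + d = d ^ 2 := by
      obtain ⟨k, rfl⟩ := Nat.exists_eq_add_of_le hd
      simp
      ring
    omega
  have hwt : ∀ p : Pr d, wt h p ≠ 0 := fun p => mul_ne_zero two_ne_zero (mul_ne_zero (h0 _) (h0 _))
  have hG0 : (0 : K) ∉ (Finset.univ : Finset (Pr d)).val.map (wt h) := by
    intro hh
    obtain ⟨j, _, hj0⟩ := Multiset.mem_map.mp hh
    exact hwt j hj0
  refine ⟨(Finset.univ : Finset (Pr d)).val.map (wt h), ?_, hG0, ?_, ?_⟩
  · rw [Multiset.card_map, ← hcard]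
    rfl
  · change ∏ p : Pr d, wt h p = _
    rw [prod_wt h h0, hcard]
  · have h1 := MM_of_Met (Met_data hd δ h A U V hM)
    have er : ∀ (n : ℕ) (b : K), Finset.univ.val.map (fun _ : Fin n => b)
        = Multiset.replicate n b := by
      intro n b
      rw [Multiset.map_const']
      simp
    have eu : ∀ (b : K), Finset.univ.val.map (fun _ : Unit => b) = ({b} : Multiset K) := by
      intro b
      rfl
    rw [map_sumElim, map_sumElim, map_sumElim, map_sumElim, map_sumElim, er, er, eu, eu] at h1
    set G := (Finset.univ : Finset (Pr d)).val.map (wt h) with hG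
    have e1 : (Finset.univ : Finset (Pr d)).val.map (fun p => - wt h p) = G.map (fun a => -a) := by
      rw [hG, Multiset.map_map]; rfl
    have e2 : (Finset.univ : Finset (Pr d)).val.map (fun p => - (δ * wt h p))
        = (G.map (fun a => δ * a)).map (fun a => -a) := by
      rw [hG, Multiset.map_map, Multiset.map_map]; rfl
    rw [e1, e2] at h1
    have nG := zero_notMem_neg (notMem_add hG0 (notMem_smul hδ hG0))
    have h2 := reduce_odd hodd (Multiset.replicate d (-1 : K) + {-1}
        + (G + G.map (fun a => δ * a)).map (fun a => -a))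
      (notMem_add (notMem_add (notMem_replicate (neg_ne_zero.mpr one_ne_zero))
        (notMem_singleton (neg_ne_zero.mpr one_ne_zero))) nG) (by
        convert h1 using 1
        rw [Multiset.map_add]
        abel)
    have e3 : d ^ 2 = (d * (d - 1) - 1) + (d + 1) := by
      have h2 : d * (d - 1) + d = d ^ 2 := by
        obtain ⟨k, rfl⟩ := Nat.exists_eq_add_of_le hd
        simp
        ring
      have h3 : 1 ≤ d * (d - 1) := Nat.mul_pos (by omega) (by omega)
      omega
    rw [e3, Multiset.replicate_add] at h2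
    have h3 : MM ((Multiset.replicate (d * (d - 1) - 1) (1 : K) + {(d : K)}
        + (G + G.map (fun a => δ * a)).map (fun a => -a))
        + (Multiset.replicate (d + 1) (1 : K) + Multiset.replicate (d + 1) (-1))) := by
      convert h2 using 1
      rw [Multiset.replicate_add (n := 1) (m := d) (a := (-1 : K)), Multiset.replicate_one]
      abel
    exact h3.cancel_one (notMem_add (notMem_add (notMem_replicate one_ne_zero)
      (notMem_singleton hd0)) nG)

end F

end Pool.Agent.H13.Witt
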