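import Mathlib

set_option autoImplicit false

namespace Pool.Agent.H13.SIC

open Matrix
open scoped ComplexOrder

/-- `x` is a maximal equiangular tight frame in `ℂ^d`: `d²` unit vectors with pairwise inner
products of modulus `1/√(d+1)`. -/
def IsMaxETF (d : ℕ) (x : Fin (d ^ 2) → EuclideanSpace ℂ (Fin d)) : Prop :=
  (∀ i, ‖x i‖ = 1) ∧ ∀ i j, i ≠ j → ‖inner ℂ (x i) (x j)‖ = 1 / Real.sqrt ((d : ℝ) + 1)

variable {d : ℕ} {x : Fin (d ^ 2) → EuclideanSpace ℂ (Fin d)}

/-- the rank one projection onto the line of `x i`. -/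
noncomputable def P (x : Fin (d ^ 2) → EuclideanSpace ℂ (Fin d)) (i : Fin (d ^ 2)) :
    Matrix (Fin d) (Fin d) ℂ := Matrix.of fun a b => x i a * star (x i b)

theorem inner_eq (u v : EuclideanSpace ℂ (Fin d)) : inner ℂ u v = ∑ a, star (u a) * v a := by
  rw [EuclideanSpace.inner_eq_star_dotProduct]
  simp [dotProduct, mul_comm]

theorem trace_P_mul (i : Fin (d ^ 2)) (B : Matrix (Fin d) (Fin d) ℂ) :
    trace (P x i * B) = ∑ a, ∑ b, star (x i a) * B a b * x i b := by
  simp only [trace, diag_apply, mul_apply, P, of_apply]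
  rw [Finset.sum_comm]
  refine Finset.sum_congr rfl fun a _ => Finset.sum_congr rfl fun b _ => ?_
  ring

theorem trace_PP_inner (i j : Fin (d ^ 2)) :
    trace (P x i * P x j) = inner ℂ (x i) (x j) * inner ℂ (x j) (x i) := by
  rw [trace_P_mul, inner_eq, inner_eq, Finset.sum_mul_sum]
  refine Finset.sum_congr rfl fun a _ => Finset.sum_congr rfl fun b _ => ?_
  simp only [P, of_apply]
  ring

theorem inner_mul_inner (hx : IsMaxETF d x) (i j : Fin (d ^ 2)) :
    inner ℂ (x i) (x j) * inner ℂ (x j) (x i) = if i = j then (1 : ℂ) else 1 / ((d : ℂ) + 1) := by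
  have h : inner ℂ (x i) (x j) * inner ℂ (x j) (x i) = ((‖inner ℂ (x i) (x j)‖ ^ 2 : ℝ) : ℂ) := by
    rw [← inner_conj_symm (x j) (x i), RCLike.mul_conj]
    norm_cast
  rw [h]
  split_ifs with hij
  · subst hij
    rw [inner_self_eq_norm_sq_to_K, hx.1]
    simp
  · rw [hx.2 i j hij]
    have h0 : (0 : ℝ) ≤ (d : ℝ) + 1 := by positivity
    rw [div_pow, Real.sq_sqrt h0]
    push_cast
    ring

theorem trace_PP (hx : IsMaxETF d x) (i j : Fin (d ^ 2)) :
    trace (P x i * P x j) = if i = j then (1 : ℂ) else 1 / ((d : ℂ) + 1) := by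
  rw [trace_PP_inner, inner_mul_inner hx]

theorem trace_P (hx : IsMaxETF d x) (i : Fin (d ^ 2)) : trace (P x i) = 1 := by
  have h := trace_P_mul (x := x) i (1 : Matrix (Fin d) (Fin d) ℂ)
  rw [Matrix.mul_one] at h
  rw [h]
  have h2 : inner ℂ (x i) (x i) = (1 : ℂ) := by
    rw [inner_self_eq_norm_sq_to_K, hx.1]; simp
  rw [← h2, inner_eq]
  refine Finset.sum_congr rfl fun a _ => ?_
  simp [Matrix.one_apply]

theorem P_herm (i : Fin (d ^ 2)) : (P x i)ᴴ = P x i := by
  ext a b
  simp [P, conjTranspose_apply, mul_comm]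

theorem d1_ne : ((d : ℂ) + 1) ≠ 0 := by
  exact_mod_cast Nat.succ_ne_zero d

/-- sum over `j` of the traces against a fixed projection. -/
theorem sum_trace_PP (hx : IsMaxETF d x) (i : Fin (d ^ 2)) :
    ∑ j, trace (P x i * P x j) = (d : ℂ) := by
  simp only [trace_PP hx]
  have h1 : ∀ j, (if i = j then (1 : ℂ) else 1 / ((d : ℂ) + 1))
      = (if i = j then ((d : ℂ) / ((d : ℂ) + 1)) else 0) + 1 / ((d : ℂ) + 1) := by
    intro j
    have := d1_ne (d := d)
    split_ifs
    · field_simp
    · simp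
  simp only [h1, Finset.sum_add_distrib, Finset.sum_ite_eq, Finset.mem_univ, if_true,
    Finset.sum_const, Finset.card_univ, Fintype.card_fin, nsmul_eq_mul]
  have := d1_ne (d := d)
  push_cast
  field_simp
  ring

theorem sum_P (hx : IsMaxETF d x) : ∑ i, P x i = (d : ℂ) • (1 : Matrix (Fin d) (Fin d) ℂ) := by
  rw [← sub_eq_zero]
  rw [← Matrix.trace_conjTranspose_mul_self_eq_zero_iff]
  have h1 : (∑ i, P x i - (d : ℂ) • (1 : Matrix (Fin d) (Fin d) ℂ))ᴴ
      = (∑ i, P x i - (d : ℂ) • (1 : Matrix (Fin d) (Fin d) ℂ)) := by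
    rw [conjTranspose_sub, conjTranspose_smul, conjTranspose_one, conjTranspose_sum]
    simp only [P_herm]
    simp
  rw [h1]
  rw [sub_mul, mul_sub, mul_sub, trace_sub, trace_sub, trace_sub]
  have h2 : trace ((∑ i, P x i) * (∑ j, P x j)) = (d : ℂ) ^ 3 := by
    rw [Finset.sum_mul_sum, trace_sum]
    simp only [trace_sum, sum_trace_PP hx]
    simp
    ring
  have h3 : trace ((∑ i, P x i) * ((d : ℂ) • (1 : Matrix (Fin d) (Fin d) ℂ))) = (d : ℂ) ^ 3 := by
    rw [mul_smul_comm, Matrix.mul_one, trace_smul, trace_sum]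
    simp only [trace_P hx]
    simp
    ring
  have h4 : trace (((d : ℂ) • (1 : Matrix (Fin d) (Fin d) ℂ)) * (∑ i, P x i)) = (d : ℂ) ^ 3 := by
    rw [smul_mul_assoc, Matrix.one_mul, trace_smul, trace_sum]
    simp only [trace_P hx]
    simp
    ring
  have h5 : trace (((d : ℂ) • (1 : Matrix (Fin d) (Fin d) ℂ)) * ((d : ℂ) • 1)) = (d : ℂ) ^ 3 := by
    simp [trace_smul, smul_mul_assoc]
    ring
  rw [h2, h3, h4, h5]
  ring

theorem linInd_P (hx : IsMaxETF d x) : LinearIndependent ℂ (P x) := by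
  rw [Fintype.linearIndependent_iff]
  intro g hg k
  -- pair with `P k`
  have h1 : ∀ k, ∑ i, g i * trace (P x i * P x k) = 0 := by
    intro k
    have : trace ((∑ i, g i • P x i) * P x k) = 0 := by rw [hg]; simp
    rw [Finset.sum_mul, trace_sum] at this
    simpa [trace_smul, smul_mul_assoc] using this
  have h2 : ∀ k, (d : ℂ) / ((d : ℂ) + 1) * g k + (∑ i, g i) / ((d : ℂ) + 1) = 0 := by
    intro k
    rw [← h1 k]
    simp only [trace_PP hx]
    have h3 : ∀ i, g i * (if i = k then (1 : ℂ) else 1 / ((d : ℂ) + 1))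
      = (if i = k then g i * ((d : ℂ) / ((d : ℂ) + 1)) else 0) + g i * (1 / ((d : ℂ) + 1)) := by
      intro i
      have := d1_ne (d := d)
      split_ifs
      · field_simp
      · simp
    simp only [h3, Finset.sum_add_distrib, Finset.sum_ite_eq', Finset.mem_univ, if_true,
      ← Finset.sum_mul]
    ring
  have hd : (d : ℂ) ≠ 0 := by
    intro h0
    have hd0 : d = 0 := by exact_mod_cast h0
    subst hd0
    exact absurd k.2 (by simp)
  have h4 : ∑ i, g i = 0 := by
    have h5 : ∑ k, ((d : ℂ) / ((d : ℂ) + 1) * g k + (∑ i, g i) / ((d : ℂ) + 1)) = 0 := by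
      simp only [h2, Finset.sum_const_zero]
    rw [Finset.sum_add_distrib, ← Finset.mul_sum] at h5
    simp only [Finset.sum_const, Finset.card_univ, Fintype.card_fin, nsmul_eq_mul] at h5
    have h6 := d1_ne (d := d)
    push_cast at h5
    have h7 : (d : ℂ) * (∑ i, g i) = 0 := by
      have : (d : ℂ) / ((d : ℂ) + 1) * ∑ i, g i + (d : ℂ) ^ 2 * ((∑ i, g i) / ((d : ℂ) + 1))
        = (d : ℂ) * ∑ i, g i := by
        field_simp
        ring
      rw [← this, h5]
    exact (mul_eq_zero.mp h7).resolve_left hd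
  have h8 := h2 k
  rw [h4] at h8
  have h6 := d1_ne (d := d)
  simpa [hd, h6] using h8

theorem span_P (hx : IsMaxETF d x) : Submodule.span ℂ (Set.range (P x)) = ⊤ := by
  rcases Nat.eq_zero_or_pos d with h0 | h0
  · subst h0
    have : Subsingleton (Matrix (Fin 0) (Fin 0) ℂ) := inferInstance
    exact Subsingleton.elim _ _
  · have : Nonempty (Fin (d ^ 2)) := ⟨⟨0, by positivity⟩⟩
    apply (linInd_P hx).span_eq_top_of_card_eq_finrank
    rw [Module.finrank_matrix]
    simp
    ring

/-- the two-design identity. -/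
theorem design (hx : IsMaxETF d x) (B : Matrix (Fin d) (Fin d) ℂ) :
    ∑ i, trace (P x i * B) • P x i = ((d : ℂ) / ((d : ℂ) + 1)) • (B + trace B • 1) := by
  have hB : B ∈ Submodule.span ℂ (Set.range (P x)) := by rw [span_P hx]; trivial
  induction hB using Submodule.span_induction with
  | mem B hB =>
    obtain ⟨k, rfl⟩ := hB
    rw [trace_P hx, one_smul]
    simp only [trace_PP hx]
    have h3 : ∀ i, (if i = k then (1 : ℂ) else 1 / ((d : ℂ) + 1)) • P x i
      = (if i = k then ((d : ℂ) / ((d : ℂ) + 1)) • P x i else 0)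
        + (1 / ((d : ℂ) + 1)) • P x i := by
      intro i
      have := d1_ne (d := d)
      split_ifs
      · rw [← add_smul]
        congr 1
        field_simp
      · simp
    simp only [h3, Finset.sum_add_distrib, Finset.sum_ite_eq', Finset.mem_univ, if_true,
      ← Finset.smul_sum]
    rw [sum_P hx, smul_smul, smul_add]
    congr 2
    ring
  | zero => simp
  | add B C _ _ hB hC =>
    simp only [mul_add, trace_add, add_smul, Finset.sum_add_distrib, hB, hC]
    rw [← smul_add]
    congr 1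
    abel
  | smul c B _ hB =>
    simp only [mul_smul_comm, trace_smul, smul_eq_mul, ← smul_smul, ← Finset.smul_sum, hB]
    rw [← smul_add, smul_comm]

theorem design2 (hx : IsMaxETF d x) (B C : Matrix (Fin d) (Fin d) ℂ) :
    ∑ i, trace (P x i * B) * trace (P x i * C)
      = ((d : ℂ) / ((d : ℂ) + 1)) * (trace (B * C) + trace B * trace C) := by
  have h := congrArg (fun M => trace (M * C)) (design hx B)
  simp only [Finset.sum_mul, trace_sum, smul_mul_assoc, trace_smul, smul_eq_mul, add_mul,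
    trace_add, Matrix.one_mul] at h
  exact h

end Pool.Agent.H13.SIC
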