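import Mathlib
import Pool.Agent.H13.ETF.SICBase

set_option autoImplicit false

namespace Pool.Agent.H13.SIC

open Matrix
open scoped ComplexOrder

variable {d : ℕ} {x : Fin (d ^ 2) → EuclideanSpace ℂ (Fin d)}

theorem span_x (hd : 1 ≤ d) (hx : IsMaxETF d x) : Submodule.span ℂ (Set.range x) = ⊤ := by
  rw [eq_top_iff]
  intro v _
  have h1 : v = ((d : ℂ)⁻¹) • ∑ i, (inner ℂ (x i) v) • x i := by
    have hs := sum_P hx
    have hd0 : (d : ℂ) ≠ 0 := by exact_mod_cast (by omega : d ≠ 0)
    ext a
    have h2 : ∀ b, ∑ i, x i a * star (x i b) = if a = b then (d : ℂ) else 0 := by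
      intro b
      have := congrFun (congrFun hs a) b
      simpa [Matrix.sum_apply, P, Matrix.one_apply] using this
    have h3 : (((d : ℂ)⁻¹) • ∑ i, (inner ℂ (x i) v) • x i) a
        = (d : ℂ)⁻¹ * ∑ i, inner ℂ (x i) v * x i a := by
      simp
    rw [h3]
    simp only [inner_eq, Finset.sum_mul]
    rw [Finset.sum_comm]
    have h4 : ∀ b, ∑ i, star (x i b) * v b * x i a = (if a = b then (d : ℂ) else 0) * v b := by
      intro b
      rw [← h2 b, Finset.sum_mul]
      refine Finset.sum_congr rfl fun i _ => ?_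
      ring
    simp only [h4]
    simp
    field_simp
  rw [h1]
  refine Submodule.smul_mem _ _ (Submodule.sum_mem _ fun i _ => Submodule.smul_mem _ _ ?_)
  exact Submodule.subset_span ⟨i, rfl⟩

theorem trace_vv {R : Type*} [CommRing R] (a b c e : Fin d → R) :
    trace (vecMulVec a b * vecMulVec c e) = (b ⬝ᵥ c) * (e ⬝ᵥ a) := by
  simp only [trace, diag_apply, mul_apply, vecMulVec_apply, dotProduct, Finset.sum_mul_sum]
  rw [Finset.sum_comm]
  refine Finset.sum_congr rfl fun i _ => Finset.sum_congr rfl fun j _ => ?_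
  ring

/-- If a subfield `K` of `ℂ` contains all triple products, then the projections can be
simultaneously conjugated into `M_d(K)`; here we only record the traces of products. -/
theorem exists_matrices (hd : 1 ≤ d) (hx : IsMaxETF d x) (K : Subfield ℂ)
    (hK : ∀ i j k, inner ℂ (x i) (x j) * inner ℂ (x j) (x k) * inner ℂ (x k) (x i) ∈ K) :
    ∃ M : Fin (d ^ 2) → Matrix (Fin d) (Fin d) K,
      ∀ i j, trace (M i * M j) = if i = j then 1 else 1 / ((d : K) + 1) := by
  classical
  have hN : 0 < d ^ 2 := by positivity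
  let i0 : Fin (d ^ 2) := ⟨0, hN⟩
  let lam : Fin (d ^ 2) → ℂ := fun i => inner ℂ (x i) (x i0)
  let z : Fin (d ^ 2) → EuclideanSpace ℂ (Fin d) := fun i => lam i • x i
  have hlam : ∀ i, lam i ≠ 0 := by
    intro i h0
    have h1 := inner_mul_inner hx i i0
    have h2 : inner ℂ (x i) (x i0) = (0 : ℂ) := h0
    rw [h2, zero_mul] at h1
    have := d1_ne (d := d)
    split_ifs at h1
    · exact one_ne_zero h1.symm
    · exact (one_div_ne_zero this) h1.symm
  have hzz : ∀ i j, inner ℂ (z i) (z j)
      = inner ℂ (x i0) (x i) * inner ℂ (x i) (x j) * inner ℂ (x j) (x i0) := by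
    intro i j
    simp only [z, lam, inner_smul_left, inner_smul_right, inner_conj_symm]
    ring
  have hzK : ∀ i j, inner ℂ (z i) (z j) ∈ K := fun i j => by rw [hzz]; exact hK _ _ _
  -- the `z i` span
  have hspan : Submodule.span ℂ (Set.range z) = ⊤ := by
    rw [eq_top_iff, ← span_x hd hx, Submodule.span_le]
    rintro _ ⟨i, rfl⟩
    have : x i = (lam i)⁻¹ • z i := by
      simp only [z, smul_smul, inv_mul_cancel₀ (hlam i), one_smul]
    rw [this]
    exact Submodule.smul_mem _ _ (Submodule.subset_span ⟨i, rfl⟩)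
  obtain ⟨κ, a, ha, haspan, hali⟩ := exists_linearIndependent' ℂ z
  rw [hspan] at haspan
  let b0 : Module.Basis κ ℂ (EuclideanSpace ℂ (Fin d)) := Module.Basis.mk hali (by rw [haspan])
  have : Fintype κ := FiniteDimensional.fintypeBasisIndex b0
  have hcard : Fintype.card κ = d := by
    rw [← Module.finrank_eq_card_basis b0]
    simp
  let e : κ ≃ Fin d := Fintype.equivFinOfCardEq hcard
  let b : Module.Basis (Fin d) ℂ (EuclideanSpace ℂ (Fin d)) := b0.reindex e
  let t : Fin d → Fin (d ^ 2) := fun j => a (e.symm j)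
  have hb : ∀ j, b j = z (t j) := by
    intro j
    simp [b, t, b0]
  -- Gram matrix
  let H : Matrix (Fin d) (Fin d) K := Matrix.of fun i j => ⟨inner ℂ (z (t i)) (z (t j)), hzK _ _⟩
  have hHmap : H.map (algebraMap K ℂ) = Matrix.gram ℂ (fun j => b j) := by
    ext i j
    simp only [Matrix.map_apply, H, Matrix.of_apply, Matrix.gram_apply, hb]
    rfl
  have hHdet : H.det ≠ 0 := by
    intro h0
    have h1 : (H.map (algebraMap K ℂ)).det = 0 := by
      rw [← RingHom.mapMatrix_apply, ← RingHom.map_det, h0, map_zero]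
    rw [hHmap] at h1
    have h2 := (Matrix.posDef_gram_iff_linearIndependent (v := fun j => b j)).mpr
      b.linearIndependent
    exact h2.det_pos.ne' h1
  let u : Fin (d ^ 2) → Fin d → K := fun j i => ⟨inner ℂ (z (t i)) (z j), hzK _ _⟩
  let c : Fin (d ^ 2) → Fin d → K := fun j => H⁻¹ *ᵥ u j
  let w : Fin (d ^ 2) → Fin d → K := fun i j => ⟨inner ℂ (z i) (z (t j)), hzK _ _⟩
  have hc : ∀ j, z j = ∑ i, (c j i : ℂ) • b i := by
    intro j
    have h1 : H *ᵥ c j = u j := by
      simp only [c, Matrix.mulVec_mulVec]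
      rw [Matrix.mul_nonsing_inv _ (isUnit_iff_ne_zero.mpr hHdet), Matrix.one_mulVec]
    -- compare inner products with the basis vectors
    have h2 : ∀ i, inner ℂ (b i) (z j) = inner ℂ (b i) (∑ k, (c j k : ℂ) • b k) := by
      intro i
      have h3 := congrArg (fun f => ((f i : K) : ℂ)) h1
      simp only [Matrix.mulVec, dotProduct, u] at h3
      rw [inner_sum]
      simp only [inner_smul_right]
      rw [hb i, ← h3]
      push_cast
      refine Finset.sum_congr rfl fun k _ => ?_
      simp only [H, Matrix.of_apply, hb]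
      ring
    have h4 : ∀ v, inner ℂ v (z j - ∑ k, (c j k : ℂ) • b k) = 0 := by
      intro v
      have hv := b.sum_repr v
      rw [← hv, sum_inner]
      refine Finset.sum_eq_zero fun i _ => ?_
      rw [inner_smul_left, inner_sub_right, h2 i, sub_self, mul_zero]
    exact sub_eq_zero.mp (inner_self_eq_zero.mp (h4 _))
  have hwc : ∀ i j, (((w i ⬝ᵥ c j : K)) : ℂ) = inner ℂ (z i) (z j) := by
    intro i j
    conv_rhs => rw [hc j]
    rw [inner_sum]
    simp only [inner_smul_right, dotProduct]
    push_cast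
    refine Finset.sum_congr rfl fun k _ => ?_
    simp only [w, hb]
    ring
  let n : Fin (d ^ 2) → K := fun i => ⟨inner ℂ (z i) (z i), hzK _ _⟩
  refine ⟨fun i => (n i)⁻¹ • Matrix.vecMulVec (c i) (w i), ?_⟩
  intro i j
  have h1 : trace (((n i)⁻¹ • Matrix.vecMulVec (c i) (w i)) * ((n j)⁻¹ • Matrix.vecMulVec (c j) (w j)))
      = (n i)⁻¹ * (n j)⁻¹ * ((w i ⬝ᵥ c j) * (w j ⬝ᵥ c i)) := by
    rw [smul_mul_assoc, mul_smul_comm, trace_smul, trace_smul, trace_vv, smul_eq_mul, smul_eq_mul,
      mul_assoc]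
  rw [h1]
  have hn : ∀ i, ((n i : K) : ℂ) = star (lam i) * lam i := by
    intro i
    have h2 : inner ℂ (x i) (x i) = (1 : ℂ) := by
      rw [inner_self_eq_norm_sq_to_K, hx.1]; simp
    simp only [n, z, inner_smul_left, inner_smul_right, h2]
    simp
    ring
  have hz2 : inner ℂ (z i) (z j) * inner ℂ (z j) (z i)
      = (star (lam i) * lam i) * (star (lam j) * lam j)
        * (inner ℂ (x i) (x j) * inner ℂ (x j) (x i)) := by
    simp only [z, inner_smul_left, inner_smul_right]
    simp
    ring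
  have hl : ∀ i, star (lam i) * lam i ≠ 0 := by
    intro i
    exact mul_ne_zero (star_ne_zero.mpr (hlam i)) (hlam i)
  apply Subtype.coe_injective
  push_cast
  rw [hwc, hwc, hz2, hn, hn, inner_mul_inner hx]
  have h3 := hl i
  have h4 := hl j
  have h5 : ((if i = j then (1 : K) else 1 / ((d : K) + 1) : K) : ℂ)
      = if i = j then (1 : ℂ) else 1 / ((d : ℂ) + 1) := by
    split_ifs
    · simp
    · push_cast; rfl
  rw [h5]
  generalize star (lam i) * lam i = α at h3 ⊢
  generalize star (lam j) * lam j = β at h4 ⊢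
  field_simp

end Pool.Agent.H13.SIC
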