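import Mathlib
import Pool.Agent.H13.ETF.SICField
import Pool.Agent.H13.ETF.Data

set_option autoImplicit false

/-!
The rational data of a maximal ETF over the real subfield.
-/

namespace Pool.Agent.H13.SIC

open Module InnerProductSpace
open scoped ComplexOrder

variable {d : ℕ} {x : Fin (d ^ 2) → EuclideanSpace ℂ (Fin d)}

/-- the combinations of the `z i` with coefficients in `K`. -/
def KC (K : Subfield ℂ) {n : ℕ} (z : Fin n → EuclideanSpace ℂ (Fin d))
    (v : EuclideanSpace ℂ (Fin d)) : Prop :=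
  ∃ c : Fin n → ℂ, (∀ i, c i ∈ K) ∧ v = ∑ i, c i • z i

theorem KC.sub {K : Subfield ℂ} {n : ℕ} {z : Fin n → EuclideanSpace ℂ (Fin d)}
    {u v : EuclideanSpace ℂ (Fin d)} (hu : KC K z u) (hv : KC K z v) : KC K z (u - v) := by
  obtain ⟨c, hc, rfl⟩ := hu
  obtain ⟨c', hc', rfl⟩ := hv
  exact ⟨fun i => c i - c' i, fun i => K.sub_mem (hc i) (hc' i), by
    simp only [sub_smul, Finset.sum_sub_distrib]⟩

theorem KC.smul {K : Subfield ℂ} {n : ℕ} {z : Fin n → EuclideanSpace ℂ (Fin d)}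
    {u : EuclideanSpace ℂ (Fin d)} {k : ℂ} (hk : k ∈ K) (hu : KC K z u) : KC K z (k • u) := by
  obtain ⟨c, hc, rfl⟩ := hu
  exact ⟨fun i => k * c i, fun i => K.mul_mem hk (hc i), by
    simp only [Finset.smul_sum, smul_smul]⟩

theorem KC.zero {K : Subfield ℂ} {n : ℕ} {z : Fin n → EuclideanSpace ℂ (Fin d)} :
    KC K z (0 : EuclideanSpace ℂ (Fin d)) :=
  ⟨fun _ => 0, fun _ => K.zero_mem, by simp⟩

theorem KC.add {K : Subfield ℂ} {n : ℕ} {z : Fin n → EuclideanSpace ℂ (Fin d)}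
    {u v : EuclideanSpace ℂ (Fin d)} (hu : KC K z u) (hv : KC K z v) : KC K z (u + v) := by
  obtain ⟨c, hc, rfl⟩ := hu
  obtain ⟨c', hc', rfl⟩ := hv
  exact ⟨fun i => c i + c' i, fun i => K.add_mem (hc i) (hc' i), by
    simp only [add_smul, Finset.sum_add_distrib]⟩

theorem KC.sum {K : Subfield ℂ} {n : ℕ} {z : Fin n → EuclideanSpace ℂ (Fin d)} {ι : Type*}
    (S : Finset ι) (f : ι → EuclideanSpace ℂ (Fin d)) (h : ∀ i ∈ S, KC K z (f i)) :
    KC K z (∑ i ∈ S, f i) := by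
  classical
  induction S using Finset.induction_on with
  | empty => simpa using KC.zero
  | insert i S hi ih =>
    rw [Finset.sum_insert hi]
    exact (h i (Finset.mem_insert_self _ _)).add
      (ih fun j hj => h j (Finset.mem_insert_of_mem hj))

theorem KC.self {K : Subfield ℂ} {n : ℕ} (z : Fin n → EuclideanSpace ℂ (Fin d)) (i : Fin n) :
    KC K z (z i) := by
  classical
  exact ⟨fun j => if j = i then 1 else 0, fun j => by
    dsimp only
    split_ifs
    · exact K.one_mem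
    · exact K.zero_mem, by simp⟩

theorem KC.inner_mem {K : Subfield ℂ} {n : ℕ} {z : Fin n → EuclideanSpace ℂ (Fin d)}
    (hKc : ∀ w ∈ K, (starRingEnd ℂ) w ∈ K) (hz : ∀ i j, inner ℂ (z i) (z j) ∈ K)
    {u v : EuclideanSpace ℂ (Fin d)} (hu : KC K z u) (hv : KC K z v) : inner ℂ u v ∈ K := by
  obtain ⟨c, hc, rfl⟩ := hu
  obtain ⟨c', hc', rfl⟩ := hv
  rw [sum_inner]
  refine K.sum_mem fun i _ => ?_
  rw [inner_sum]
  refine K.sum_mem fun j _ => ?_
  rw [inner_smul_left, inner_smul_right]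
  exact K.mul_mem (hKc _ (hc i)) (K.mul_mem (hc' j) (hz i j))

theorem exists_orth (hd : 1 ≤ d) (hx : IsMaxETF d x) (K : Subfield ℂ)
    (hKc : ∀ w ∈ K, (starRingEnd ℂ) w ∈ K)
    (hK : ∀ i j k, inner ℂ (x i) (x j) * inner ℂ (x j) (x k) * inner ℂ (x k) (x i) ∈ K) :
    ∃ (lam : Fin (d ^ 2) → ℂ) (e : Fin d → EuclideanSpace ℂ (Fin d)),
      (∀ i, lam i ≠ 0) ∧ (∀ i, star (lam i) * lam i ∈ K) ∧ (∀ a, e a ≠ 0) ∧
      (∀ a i, inner ℂ (e a) (lam i • x i) ∈ K) ∧ (∀ a, ((‖e a‖ ^ 2 : ℝ) : ℂ) ∈ K) ∧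
      ∀ u v, inner ℂ u v = ∑ a, inner ℂ u (e a) * inner ℂ (e a) v / ((‖e a‖ ^ 2 : ℝ) : ℂ) := by
  classical
  have hN : 0 < d ^ 2 := by positivity
  let i0 : Fin (d ^ 2) := ⟨0, hN⟩
  let lam : Fin (d ^ 2) → ℂ := fun i => inner ℂ (x i) (x i0)
  let z : Fin (d ^ 2) → EuclideanSpace ℂ (Fin d) := fun i => lam i • x i
  have hlam : ∀ i, lam i ≠ 0 := by
    intro i h0
    have h1 := inner_mul_inner hx i i0
    have h2 : inner ℂ (x i) (x i0) = (0 : ℂ) := h0
    rw [h2, zero_mul] at h1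
    have := d1_ne (d := d)
    split_ifs at h1
    · exact one_ne_zero h1.symm
    · exact (one_div_ne_zero this) h1.symm
  have hzz : ∀ i j, inner ℂ (z i) (z j)
      = inner ℂ (x i0) (x i) * inner ℂ (x i) (x j) * inner ℂ (x j) (x i0) := by
    intro i j
    simp only [z, lam, inner_smul_left, inner_smul_right, inner_conj_symm]
    ring
  have hzK : ∀ i j, inner ℂ (z i) (z j) ∈ K := fun i j => by rw [hzz]; exact hK _ _ _
  -- the `z i` span
  have hspan : Submodule.span ℂ (Set.range z) = ⊤ := by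
    rw [eq_top_iff, ← span_x hd hx, Submodule.span_le]
    rintro _ ⟨i, rfl⟩
    have : x i = (lam i)⁻¹ • z i := by
      simp only [z, smul_smul, inv_mul_cancel₀ (hlam i), one_smul]
    rw [this]
    exact Submodule.smul_mem _ _ (Submodule.subset_span ⟨i, rfl⟩)
  obtain ⟨κ, a, ha, haspan, hali⟩ := exists_linearIndependent' ℂ z
  rw [hspan] at haspan
  let b0 : Module.Basis κ ℂ (EuclideanSpace ℂ (Fin d)) := Module.Basis.mk hali (by rw [haspan])
  have : Fintype κ := FiniteDimensional.fintypeBasisIndex b0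
  have hcard : Fintype.card κ = d := by
    rw [← Module.finrank_eq_card_basis b0]
    simp
  let e : κ ≃ Fin d := Fintype.equivFinOfCardEq hcard
  let b : Module.Basis (Fin d) ℂ (EuclideanSpace ℂ (Fin d)) := b0.reindex e
  let t : Fin d → Fin (d ^ 2) := fun j => a (e.symm j)
  have hb : ∀ j, b j = z (t j) := by
    intro j
    simp [b, t, b0]
  let g : Fin d → EuclideanSpace ℂ (Fin d) := gramSchmidt ℂ (b : Fin d → _)
  have hg : ∀ j, KC K z (g j) := by
    intro j
    induction j using WellFoundedLT.induction with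
    | _ j ih =>
      have h1 := gramSchmidt_def'' ℂ (b : Fin d → EuclideanSpace ℂ (Fin d)) j
      have h2 : g j = b j - ∑ i ∈ Finset.Iio j, (inner ℂ (g i) (b j) / (‖g i‖ : ℂ) ^ 2) • g i :=
        eq_sub_of_add_eq h1.symm
      rw [h2]
      have hbj : KC K z (b j) := by rw [hb]; exact KC.self z _
      refine hbj.sub (KC.sum _ _ fun i hi => ?_)
      have hi' := ih i (Finset.mem_Iio.mp hi)
      refine KC.smul (K.div_mem (KC.inner_mem hKc hzK hi' hbj) ?_) hi'
      have h3 := KC.inner_mem hKc hzK hi' hi'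
      rw [inner_self_eq_norm_sq_to_K] at h3
      exact h3
  have hg0 : ∀ j, g j ≠ 0 := fun j => gramSchmidt_ne_zero j b.linearIndependent
  have hnorm : ∀ j, inner ℂ (g j) (g j) = ((‖g j‖ ^ 2 : ℝ) : ℂ) := by
    intro j
    rw [inner_self_eq_norm_sq_to_K]
    push_cast
    rfl
  have hfin : finrank ℂ (EuclideanSpace ℂ (Fin d)) = Fintype.card (Fin d) := by simp
  let o := gramSchmidtOrthonormalBasis hfin (b : Fin d → EuclideanSpace ℂ (Fin d))
  have ho : ∀ j, o j = (‖g j‖ : ℂ)⁻¹ • g j := by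
    intro j
    have h1 : gramSchmidtNormed ℂ (b : Fin d → EuclideanSpace ℂ (Fin d)) j ≠ 0 := by
      have := gramSchmidtNormed_unit_length (𝕜 := ℂ) j b.linearIndependent
      intro h0
      rw [h0] at this
      simp at this
    exact gramSchmidtOrthonormalBasis_apply hfin h1
  refine ⟨lam, g, hlam, ?_, hg0, ?_, ?_, ?_⟩
  · intro i
    have h2 : inner ℂ (x i) (x i) = (1 : ℂ) := by
      rw [inner_self_eq_norm_sq_to_K, hx.1]; simp
    have h3 := hzK i i
    simp only [z, inner_smul_left, inner_smul_right, h2, mul_one] at h3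
    rw [mul_comm]
    exact h3
  · intro a i
    exact KC.inner_mem hKc hzK (hg a) (KC.self z i)
  · intro a
    rw [← hnorm]
    exact KC.inner_mem hKc hzK (hg a) (hg a)
  · intro u v
    rw [← o.sum_inner_mul_inner u v]
    refine Finset.sum_congr rfl fun j _ => ?_
    rw [ho, inner_smul_left, inner_smul_right]
    have : (‖g j‖ : ℂ) ≠ 0 := by
      have := norm_ne_zero_iff.mpr (hg0 j)
      exact_mod_cast this
    simp
    field_simp

/-- the real subfield of `K`. -/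
noncomputable abbrev Fr (K : Subfield ℂ) : Subfield ℝ := K.comap Complex.ofRealHom

theorem mem_Fr {K : Subfield ℂ} {r : ℝ} : r ∈ Fr K ↔ (r : ℂ) ∈ K := Iff.rfl

theorem re_mem {K : Subfield ℂ} (hKc : ∀ w ∈ K, (starRingEnd ℂ) w ∈ K) {z : ℂ} (hz : z ∈ K) :
    z.re ∈ Fr K := by
  rw [mem_Fr]
  have h : ((z.re : ℝ) : ℂ) = (z + (starRingEnd ℂ) z) / 2 := by
    rw [Complex.add_conj]; push_cast; ring
  rw [h]
  exact K.div_mem (K.add_mem hz (hKc z hz)) (by exact_mod_cast natCast_mem K 2)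

theorem im_mem {K : Subfield ℂ} (hKc : ∀ w ∈ K, (starRingEnd ℂ) w ∈ K) {ρ : ℝ} (hρ0 : ρ ≠ 0)
    (hρ : (ρ : ℂ) * Complex.I ∈ K) {z : ℂ} (hz : z ∈ K) : z.im / ρ ∈ Fr K := by
  rw [mem_Fr]
  have hρc : (ρ : ℂ) ≠ 0 := by exact_mod_cast hρ0
  have h : ((z.im / ρ : ℝ) : ℂ) = (z - (starRingEnd ℂ) z) / (2 * ((ρ : ℂ) * Complex.I)) := by
    rw [Complex.sub_conj]
    have := Complex.I_ne_zero
    push_cast
    field_simp
  rw [h]
  exact K.div_mem (K.sub_mem hz (hKc z hz))
    (K.mul_mem (by exact_mod_cast natCast_mem K 2) hρ)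

open Pool.Agent.H13.Witt in
theorem exists_data (hd : 1 ≤ d) (hx : IsMaxETF d x) (K : Subfield ℂ)
    (hKc : ∀ w ∈ K, (starRingEnd ℂ) w ∈ K)
    (hK : ∀ i j k, inner ℂ (x i) (x j) * inner ℂ (x j) (x k) * inner ℂ (x k) (x i) ∈ K)
    {ρ : ℝ} (hρ0 : ρ ≠ 0) (hρ : (ρ : ℂ) * Complex.I ∈ K) (δ : Fr K) (hδ : (δ : ℝ) = ρ ^ 2) :
    ∃ (h : Fin d → Fr K) (A : Fin d → Fin (d ^ 2) → Fr K) (U V : Pr d → Fin (d ^ 2) → Fr K),
      (∀ a, h a ≠ 0) ∧
      ∀ i j, ∑ a, A a i * A a j + ∑ p, wt h p * (U p i * U p j)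
      + ∑ p, δ * wt h p * (V p i * V p j) = if i = j then 1 else 1 / ((d : Fr K) + 1) := by
  classical
  obtain ⟨lam, e, hlam, hlamK, he0, heK, hnK, hpars⟩ := exists_orth hd hx K hKc hK
  -- the entries
  let β : Fin d → Fin d → Fin (d ^ 2) → ℂ := fun a b i => inner ℂ (e a) (x i) * inner ℂ (x i) (e b)
  have hβc : ∀ a b i, β b a i = (starRingEnd ℂ) (β a b i) := by
    intro a b i
    simp only [β, map_mul, inner_conj_symm]
    ring
  have hβK : ∀ a b i, β a b i ∈ K := by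
    intro a b i
    have h1 : β a b i = inner ℂ (e a) (lam i • x i) * (starRingEnd ℂ) (inner ℂ (e b) (lam i • x i))
        / (star (lam i) * lam i) := by
      simp only [β, inner_smul_right, map_mul, inner_conj_symm]
      have h2 := hlam i
      have h3 : (starRingEnd ℂ) (lam i) ≠ 0 := star_ne_zero.mpr h2
      have h4 : star (lam i) = (starRingEnd ℂ) (lam i) := rfl
      rw [h4]
      field_simp
    rw [h1]
    exact K.div_mem (K.mul_mem (heK a i) (hKc _ (heK b i))) (hlamK i)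
  let hr : Fin d → ℝ := fun a => ‖e a‖ ^ 2
  have hr0 : ∀ a, hr a ≠ 0 := fun a => pow_ne_zero 2 (norm_ne_zero_iff.mpr (he0 a))
  have hrc0 : ∀ a, ((hr a : ℝ) : ℂ) ≠ 0 := fun a => by exact_mod_cast hr0 a
  -- Parseval
  have hsum : ∀ i j, ∑ a, ∑ b, β a b i * β b a j / ((hr a : ℂ) * (hr b : ℂ))
      = if i = j then (1 : ℂ) else 1 / ((d : ℂ) + 1) := by
    intro i j
    rw [← inner_mul_inner hx i j, mul_comm (inner ℂ (x i) (x j))]
    rw [hpars (x j) (x i), hpars (x i) (x j), Finset.sum_mul_sum]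
    refine Finset.sum_congr rfl fun a _ => Finset.sum_congr rfl fun b _ => ?_
    simp only [β, hr]
    rw [div_mul_div_comm]
    congr 1
    ring
  -- real parts
  let f : Fin (d ^ 2) → Fin (d ^ 2) → Fin d → Fin d → ℝ := fun i j a b =>
    ((β a b i).re * (β a b j).re + (β a b i).im * (β a b j).im) / (hr a * hr b)
  have hf : ∀ i j, ∑ a, ∑ b, f i j a b = if i = j then (1 : ℝ) else 1 / ((d : ℝ) + 1) := by
    intro i j
    have h1 := congrArg Complex.re (hsum i j)
    have h2 : ((if i = j then (1 : ℂ) else 1 / ((d : ℂ) + 1)) : ℂ).re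
        = if i = j then (1 : ℝ) else 1 / ((d : ℝ) + 1) := by
      split_ifs
      · simp
      · have : (1 : ℂ) / ((d : ℂ) + 1) = ((1 / ((d : ℝ) + 1) : ℝ) : ℂ) := by push_cast; rfl
        rw [this, Complex.ofReal_re]
    rw [h2] at h1
    rw [← h1, Complex.re_sum]
    refine Finset.sum_congr rfl fun a _ => ?_
    rw [Complex.re_sum]
    refine Finset.sum_congr rfl fun b _ => ?_
    rw [hβc a b j, ← Complex.ofReal_mul, Complex.div_ofReal_re]
    simp only [f, Complex.mul_re, Complex.conj_re, Complex.conj_im]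
    ring
  refine ⟨fun a => ⟨hr a, hnK a⟩,
    fun a i => ⟨(β a a i).re / hr a, (Fr K).div_mem (re_mem hKc (hβK _ _ _)) (hnK a)⟩,
    fun p i => ⟨(β p.1.1 p.1.2 i).re / (hr p.1.1 * hr p.1.2),
      (Fr K).div_mem (re_mem hKc (hβK _ _ _)) ((Fr K).mul_mem (hnK _) (hnK _))⟩,
    fun p i => ⟨(β p.1.1 p.1.2 i).im / ρ / (hr p.1.1 * hr p.1.2),
      (Fr K).div_mem (im_mem hKc hρ0 hρ (hβK _ _ _)) ((Fr K).mul_mem (hnK _) (hnK _))⟩, ?_, ?_⟩
  · intro a h0
    exact hr0 a (congrArg Subtype.val h0)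
  · intro i j
    apply Subtype.ext
    have h1 := hf i j
    rw [sum_split] at h1
    have e0 : ((if i = j then (1 : Fr K) else 1 / ((d : Fr K) + 1) : Fr K) : ℝ)
        = if i = j then (1 : ℝ) else 1 / ((d : ℝ) + 1) := by
      split_ifs
      · rfl
      · push_cast; rfl
    rw [e0, ← h1]
    simp only [wt, Subfield.coe_add, Subfield.coe_mul, AddSubmonoidClass.coe_finsetSum, hδ]
    rw [add_assoc, ← Finset.sum_add_distrib]
    congr 1
    · refine Finset.sum_congr rfl fun a _ => ?_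
      have him : (β a a i).im = 0 := by
        have := congrArg Complex.im (hβc a a i)
        rw [Complex.conj_im] at this
        linarith
      have := hr0 a
      simp only [f, him]
      field_simp
      ring
    · refine Finset.sum_congr rfl fun p _ => ?_
      have h3 : f i j p.1.2 p.1.1 = f i j p.1.1 p.1.2 := by
        simp only [f]
        rw [hβc p.1.1 p.1.2 i, hβc p.1.1 p.1.2 j]
        simp only [Complex.conj_re, Complex.conj_im]
        rw [mul_comm (hr p.1.2)]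
        ring
      rw [h3]
      have h4 := hr0 p.1.1
      have h5 := hr0 p.1.2
      simp only [f]
      have h2 : (((2 : Fr K) : Fr K) : ℝ) = 2 := rfl
      rw [h2]
      field_simp
      ring

end Pool.Agent.H13.SIC
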