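import Mathlib
import Pool.Agent.H13.ETF.ETFData

set_option autoImplicit false

/-!
Assembly.
-/

namespace Pool.Agent.H13.SIC

open Pool.Agent.H13.Witt

variable {d : ℕ} {x : Fin (d ^ 2) → EuclideanSpace ℂ (Fin d)}

/-- discriminant and level -/
theorem disc_level (hd : 2 ≤ d) (hodd : Odd d) (hx : IsMaxETF d x) (K : Subfield ℂ)
    (hK : ∀ i j k, inner ℂ (x i) (x j) * inner ℂ (x j) (x k) * inner ℂ (x k) (x i) ∈ K) :
    IsSquare ((-1) ^ (d * (d - 1) / 2) * (d : K)) ∧ HH K (4 * (d * (d - 1) / 4)) := by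
  obtain ⟨M, hM⟩ := exists_matrices (by omega) hx K hK
  have h1 := MM_key hd M hM
  rw [if_neg (Nat.not_even_iff_odd.mpr hodd)] at h1
  exact key_disc hd (by exact_mod_cast (by omega : d ≠ 0)) h1

theorem HH_SS2 {K : Type*} [Field K] (hd : d % 8 = 3 ∨ d % 8 = 5)
    (h : HH K (4 * (d * (d - 1) / 4))) : SS 2 (-1 : K) := by
  have hodd : (d * (d - 1) / 4) % 2 = 1 := by
    obtain ⟨j, hj⟩ : ∃ j, d = 8 * j + 3 ∨ d = 8 * j + 5 := ⟨d / 8, by omega⟩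
    rcases hj with rfl | rfl
    · have : (8 * j + 3) * (8 * j + 3 - 1) = 4 * (16 * j ^ 2 + 10 * j + 1) + 2 := by
        have : 8 * j + 3 - 1 = 8 * j + 2 := by omega
        rw [this]; ring
      rw [this]
      omega
    · have : (8 * j + 5) * (8 * j + 5 - 1) = 4 * (16 * j ^ 2 + 18 * j + 5) := by
        have : 8 * j + 5 - 1 = 8 * j + 4 := by omega
        rw [this]; ring
      rw [this]
      omega
  exact level (by omega) h 1 (by omega)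

/-- from `-1 = z₁² + z₂²` in `K` to the three squares representation. -/
theorem three_of_level (K : Subfield ℂ) (hKc : ∀ w ∈ K, (starRingEnd ℂ) w ∈ K)
    {ρ : ℝ} (hρ0 : ρ ≠ 0) (hρ : (ρ : ℂ) * Complex.I ∈ K) (δ : Fr K) (hδ : (δ : ℝ) = ρ ^ 2)
    (h : SS 2 (-1 : K)) : ∃ b t r s : Fr K, b ≠ 0 ∧ b = r ^ 2 + s ^ 2 ∧ δ = t ^ 2 + b := by
  obtain ⟨f, hf⟩ := h
  rw [Fin.sum_univ_two] at hf
  have hf2 : ((f 0 : K) : ℂ) ^ 2 + ((f 1 : K) : ℂ) ^ 2 = -1 := by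
    have := congrArg (Subtype.val : K → ℂ) hf
    simpa using this
  set z := ((f 0 : K) : ℂ) with hz
  set w := ((f 1 : K) : ℂ) with hw
  have hzK : z ∈ K := (f 0).2
  have hwK : w ∈ K := (f 1).2
  let p1 : Fr K := ⟨z.re, re_mem hKc hzK⟩
  let p2 : Fr K := ⟨w.re, re_mem hKc hwK⟩
  let q1 : Fr K := ⟨z.im / ρ, im_mem hKc hρ0 hρ hzK⟩
  let q2 : Fr K := ⟨w.im / ρ, im_mem hKc hρ0 hρ hwK⟩
  have hre : p1 ^ 2 + p2 ^ 2 - δ * (q1 ^ 2 + q2 ^ 2) = -1 := by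
    apply Subtype.ext
    have h1 := congrArg Complex.re hf2
    simp only [pow_two, Complex.add_re, Complex.mul_re, Complex.neg_re, Complex.one_re] at h1
    have h2 : ((p1 ^ 2 + p2 ^ 2 - δ * (q1 ^ 2 + q2 ^ 2) : Fr K) : ℝ)
        = z.re ^ 2 + w.re ^ 2 - ρ ^ 2 * ((z.im / ρ) ^ 2 + (w.im / ρ) ^ 2) := by
      push_cast
      rw [hδ]
    rw [h2]
    have h3 : ((-1 : Fr K) : ℝ) = -1 := rfl
    rw [h3, ← h1]
    field_simp
    ring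
  have him : p1 * q1 + p2 * q2 = 0 := by
    apply Subtype.ext
    have h1 := congrArg Complex.im hf2
    simp only [pow_two, Complex.add_im, Complex.mul_im, Complex.neg_im, Complex.one_im] at h1
    have h2 : ((p1 * q1 + p2 * q2 : Fr K) : ℝ) = z.re * (z.im / ρ) + w.re * (w.im / ρ) := rfl
    rw [h2]
    have h3 : ((0 : Fr K) : ℝ) = 0 := rfl
    rw [h3]
    have h4 : z.re * z.im + w.re * w.im = 0 := by linarith
    have h5 : z.re * (z.im / ρ) + w.re * (w.im / ρ) = (z.re * z.im + w.re * w.im) / ρ := by ring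
    rw [h5, h4, zero_div]
  have hn : q1 ^ 2 + q2 ^ 2 ≠ 0 := by
    intro h0
    rw [h0] at hre
    have h1 : 0 ≤ p1 ^ 2 + p2 ^ 2 := by positivity
    linarith
  refine ⟨1 / (q1 ^ 2 + q2 ^ 2), (p1 * q2 - p2 * q1) / (q1 ^ 2 + q2 ^ 2),
    q1 / (q1 ^ 2 + q2 ^ 2), q2 / (q1 ^ 2 + q2 ^ 2), one_div_ne_zero hn, ?_, ?_⟩
  · field_simp
  · have h1 : δ * (q1 ^ 2 + q2 ^ 2) = 1 + (p1 ^ 2 + p2 ^ 2) := by linear_combination -hre
    have h2 : (p1 ^ 2 + p2 ^ 2) * (q1 ^ 2 + q2 ^ 2) = (p1 * q2 - p2 * q1) ^ 2 := by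
      linear_combination (p1 * q1 + p2 * q2) * him
    field_simp
    linear_combination (q1 ^ 2 + q2 ^ 2) * h1 + h2

/-- the Witt relation for a conjugation stable field. -/
theorem real_relation (hd : 2 ≤ d) (hodd : Odd d) (hx : IsMaxETF d x) (K : Subfield ℂ)
    (hKc : ∀ w ∈ K, (starRingEnd ℂ) w ∈ K)
    (hK : ∀ i j k, inner ℂ (x i) (x j) * inner ℂ (x j) (x k) * inner ℂ (x k) (x i) ∈ K)
    {ρ : ℝ} (hρ0 : ρ ≠ 0) (hρ : (ρ : ℂ) * Complex.I ∈ K) (δ : Fr K) (hδ : (δ : ℝ) = ρ ^ 2) :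
    ∃ (G : Multiset (Fr K)) (H : Fr K), H ≠ 0 ∧ Multiset.card G = d * (d - 1) / 2 ∧
      (0 : Fr K) ∉ G ∧ G.prod = 2 ^ (d * (d - 1) / 2) * H ^ (d - 1) ∧
      MM (Multiset.replicate (d * (d - 1) - 1) (1 : Fr K) + {(d : Fr K)}
        + (G + G.map (fun a => δ * a)).map (fun a => -a)) := by
  obtain ⟨h, A, U, V, h0, hM⟩ := exists_data (by omega) hx K hKc hK hρ0 hρ δ hδ
  have hδ0 : δ ≠ 0 := by
    intro h0
    have h1 : (0 : ℝ) = ρ ^ 2 := by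
      rw [← hδ, h0]; rfl
    exact hρ0 (pow_eq_zero_iff two_ne_zero |>.mp h1.symm)
  obtain ⟨G, hG1, hG2, hG3, hG4⟩ := key_real hd hodd hδ0 h h0 A U V hM
  exact ⟨G, ∏ a, h a, Finset.prod_ne_zero_iff.mpr fun a _ => h0 a, hG1, hG2, hG3, hG4⟩

theorem main3 (hd : d % 8 = 3) (hx : IsMaxETF d x) (K : Subfield ℂ)
    (hKc : ∀ w ∈ K, (starRingEnd ℂ) w ∈ K)
    (hK : ∀ i j k, inner ℂ (x i) (x j) * inner ℂ (x j) (x k) * inner ℂ (x k) (x i) ∈ K)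
    (hρ : ((Real.sqrt d : ℝ) : ℂ) * Complex.I ∈ K) :
    ∃ a b : Fr K, (d : Fr K) = a ^ 2 + 2 * b ^ 2 := by
  have hd2 : 2 ≤ d := by omega
  have hodd : Odd d := Nat.odd_iff.mpr (by omega)
  have hρ0 : Real.sqrt d ≠ 0 := (Real.sqrt_pos.mpr (by exact_mod_cast (by omega : 0 < d))).ne'
  have hδ : (((d : ℕ) : Fr K) : ℝ) = Real.sqrt d ^ 2 := by
    rw [Real.sq_sqrt (by positivity)]
    rfl
  obtain ⟨_, hHH⟩ := disc_level hd2 hodd hx K hK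
  obtain ⟨b, t, r, s, hb0, hb, hdt⟩ := three_of_level K hKc hρ0 hρ (d : Fr K) hδ
    (HH_SS2 (Or.inl hd) hHH)
  obtain ⟨G, H, hH, hG1, hG2, hG3, hG4⟩ := real_relation hd2 hodd hx K hKc hK hρ0 hρ _ hδ
  obtain ⟨j, rfl⟩ : ∃ j, d = 8 * j + 3 := ⟨d / 8, by omega⟩
  have e1 : (8 * j + 3) * (8 * j + 3 - 1) = 2 * (4 * (8 * j ^ 2 + 5 * j) + 3) := by
    have : 8 * j + 3 - 1 = 8 * j + 2 := by omega
    rw [this]; ring
  rw [e1] at hG1 hG3 hG4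
  have e2 : 2 * (4 * (8 * j ^ 2 + 5 * j) + 3) / 2 = 4 * (8 * j ^ 2 + 5 * j) + 3 := by omega
  have e3 : 2 * (4 * (8 * j ^ 2 + 5 * j) + 3) - 1 = 8 * (8 * j ^ 2 + 5 * j) + 5 := by omega
  rw [e2] at hG1 hG3
  rw [e3] at hG4
  have h1 := thmB hb0 hb hdt _ G hG1 hG2 hG4
  have h2 : Nrm (((8 * j + 3 : ℕ) : Fr K)) (2 * b) := by
    have h3 := h1.div (Nrm.sq _ (2 ^ (2 * (8 * j ^ 2 + 5 * j) + 1) * H ^ (4 * j + 1)))
    convert h3 using 1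
    rw [hG3, eq_div_iff (pow_ne_zero 2 (mul_ne_zero (pow_ne_zero _ two_ne_zero)
      (pow_ne_zero _ hH)))]
    have : 8 * j + 3 - 1 = 8 * j + 2 := by omega
    rw [this]
    ring
  exact finB hb0 hb hdt h2

theorem main7 (hd : d % 8 = 7) (hx : IsMaxETF d x) (K : Subfield ℂ)
    (hKc : ∀ w ∈ K, (starRingEnd ℂ) w ∈ K)
    (hK : ∀ i j k, inner ℂ (x i) (x j) * inner ℂ (x j) (x k) * inner ℂ (x k) (x i) ∈ K)
    (hρ : ((Real.sqrt d : ℝ) : ℂ) * Complex.I ∈ K) :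
    ∃ a b : Fr K, (d : Fr K) = a ^ 2 - 2 * b ^ 2 := by
  have hd2 : 2 ≤ d := by omega
  have hodd : Odd d := Nat.odd_iff.mpr (by omega)
  have hρ0 : Real.sqrt d ≠ 0 := (Real.sqrt_pos.mpr (by exact_mod_cast (by omega : 0 < d))).ne'
  have hδ : (((d : ℕ) : Fr K) : ℝ) = Real.sqrt d ^ 2 := by
    rw [Real.sq_sqrt (by positivity)]
    rfl
  obtain ⟨G, H, hH, hG1, hG2, hG3, hG4⟩ := real_relation hd2 hodd hx K hKc hK hρ0 hρ _ hδ
  have hpos : (0 : Fr K) < (d : Fr K) := by exact_mod_cast (by omega : 0 < d)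
  have h4 : SS 4 ((d : ℕ) : Fr K) := SS_four_nat d
  obtain ⟨j, rfl⟩ : ∃ j, d = 8 * j + 7 := ⟨d / 8, by omega⟩
  have e1 : (8 * j + 7) * (8 * j + 7 - 1) = 2 * (4 * (8 * j ^ 2 + 13 * j + 5) + 1) := by
    have : 8 * j + 7 - 1 = 8 * j + 6 := by omega
    rw [this]; ring
  rw [e1] at hG1 hG3 hG4
  have e2 : 2 * (4 * (8 * j ^ 2 + 13 * j + 5) + 1) / 2 = 4 * (8 * j ^ 2 + 13 * j + 5) + 1 := by
    omega
  have e3 : 2 * (4 * (8 * j ^ 2 + 13 * j + 5) + 1) - 1 = 8 * (8 * j ^ 2 + 13 * j + 5) + 1 := by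
    omega
  rw [e2] at hG1 hG3
  rw [e3] at hG4
  have h1 := thmA hpos h4 _ G hG1 hG2 hG4
  have h2 : Nrm (((8 * j + 7 : ℕ) : Fr K)) 2 := by
    have h3 := h1.div (Nrm.sq _ (2 ^ (2 * (8 * j ^ 2 + 13 * j + 5)) * H ^ (4 * j + 3)))
    convert h3 using 1
    rw [hG3, eq_div_iff (pow_ne_zero 2 (mul_ne_zero (pow_ne_zero _ two_ne_zero)
      (pow_ne_zero _ hH)))]
    have : 8 * j + 7 - 1 = 8 * j + 6 := by omega
    rw [this]
    ring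
  exact finA h2

theorem main5 (hd : d % 8 = 5) (hx : IsMaxETF d x) (K : Subfield ℂ)
    (hKc : ∀ w ∈ K, (starRingEnd ℂ) w ∈ K)
    (hK : ∀ i j k, inner ℂ (x i) (x j) * inner ℂ (x j) (x k) * inner ℂ (x k) (x i) ∈ K)
    (hsq : ∃ u : Fr K, (d : Fr K) = u ^ 2)
    {ρ : ℝ} (hρ0 : ρ ≠ 0) (hρ : (ρ : ℂ) * Complex.I ∈ K) (δ : Fr K) (hδ : (δ : ℝ) = ρ ^ 2) :
    ∃ a b : Fr K, δ = a ^ 2 + b ^ 2 := by
  have hd2 : 2 ≤ d := by omega
  have hodd : Odd d := Nat.odd_iff.mpr (by omega)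
  obtain ⟨_, hHH⟩ := disc_level hd2 hodd hx K hK
  obtain ⟨b, t, r, s, hb0, hb, hdt⟩ := three_of_level K hKc hρ0 hρ δ hδ
    (HH_SS2 (Or.inr hd) hHH)
  obtain ⟨G, H, hH, hG1, hG2, hG3, hG4⟩ := real_relation hd2 hodd hx K hKc hK hρ0 hρ _ hδ
  obtain ⟨u, hu⟩ := hsq
  have hdne : ((d : ℕ) : Fr K) ≠ 0 := by exact_mod_cast (by omega : d ≠ 0)
  have hδ0 : δ ≠ 0 := by
    intro h0
    have h1 : (0 : ℝ) = ρ ^ 2 := by
      rw [← hδ, h0]; rfl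
    exact hρ0 (pow_eq_zero_iff two_ne_zero |>.mp h1.symm)
  obtain ⟨j, rfl⟩ : ∃ j, d = 8 * j + 5 := ⟨d / 8, by omega⟩
  have e1 : (8 * j + 5) * (8 * j + 5 - 1) = 2 * (4 * (8 * j ^ 2 + 9 * j + 2) + 2) := by
    have : 8 * j + 5 - 1 = 8 * j + 4 := by omega
    rw [this]; ring
  rw [e1] at hG1 hG3 hG4
  have e2 : 2 * (4 * (8 * j ^ 2 + 9 * j + 2) + 2) / 2 = 4 * (8 * j ^ 2 + 9 * j + 2) + 2 := by omega
  have e3 : 2 * (4 * (8 * j ^ 2 + 9 * j + 2) + 2) - 1 = 8 * (8 * j ^ 2 + 9 * j + 2) + 3 := by omega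
  rw [e2] at hG1 hG3
  rw [e3] at hG4
  have hw : WE ({((8 * j + 5 : ℕ) : Fr K)} : Multiset (Fr K)) {1} := by
    have := (WE_sq (1 : Fr K) u).symm
    rwa [one_mul, ← hu] at this
  have nG := zero_notMem_neg (notMem_add hG2 (notMem_smul hδ0 hG2))
  have hG5 : MM ((Multiset.replicate (8 * (8 * j ^ 2 + 9 * j + 2) + 3) (1 : Fr K)
      + (G + G.map (fun a => δ * a)).map (fun a => -a)) + {((8 * j + 5 : ℕ) : Fr K)}) := by
    convert hG4 using 1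
    abel
  have hG6 := WE.subst (notMem_add (notMem_replicate one_ne_zero) nG) (notMem_singleton hdne)
    (notMem_singleton one_ne_zero) hG5 hw
  have hG7 : MM (Multiset.replicate (8 * (8 * j ^ 2 + 9 * j + 2) + 4) (1 : Fr K)
      + (G + G.map (fun a => δ * a)).map (fun a => -a)) := by
    convert hG6 using 1
    rw [show 8 * (8 * j ^ 2 + 9 * j + 2) + 4 = (8 * (8 * j ^ 2 + 9 * j + 2) + 3) + 1 by ring,
      Multiset.replicate_add _ 1, Multiset.replicate_one]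
    abel
  have h1 := thmC hb0 hb hdt _ G hG1 hG2 hG7
  have h2 : Nrm δ b := by
    have h3 := h1.div (Nrm.sq _ (2 ^ (2 * (8 * j ^ 2 + 9 * j + 2) + 1) * H ^ (4 * j + 2)))
    convert h3 using 1
    rw [hG3, eq_div_iff (pow_ne_zero 2 (mul_ne_zero (pow_ne_zero _ two_ne_zero)
      (pow_ne_zero _ hH)))]
    have : 8 * j + 5 - 1 = 8 * j + 4 := by omega
    rw [this]
    ring
  exact finC hb0 hb hdt h2

end Pool.Agent.H13.SIC
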