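import Mathlib
import Pool.Agent.H13.ETF.SICField
import Pool.Agent.H13.ETF.Data

set_option autoImplicit false

/-!
Complex conjugation is not in the inertia group of a valuation unless `d` is in the maximal ideal.
-/

namespace Pool.Agent.H13.SIC

open Pool.Agent.H13.Witt Module Matrix

/-- `n` unit vectors of `ℂ^d` with pairwise inner products of modulus `1/√(d+1)`. -/
def IsAngle (d n : ℕ) (x : Fin n → EuclideanSpace ℂ (Fin d)) : Prop :=
  (∀ i, ‖x i‖ = 1) ∧ ∀ i j, i ≠ j → ‖inner ℂ (x i) (x j)‖ = 1 / Real.sqrt ((d : ℝ) + 1)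

variable {d n : ℕ} {x : Fin n → EuclideanSpace ℂ (Fin d)}

theorem angle_mul (hx : IsAngle d n x) (i j : Fin n) :
    inner ℂ (x i) (x j) * inner ℂ (x j) (x i) = if i = j then (1 : ℂ) else 1 / ((d : ℂ) + 1) := by
  have h : inner ℂ (x i) (x j) * inner ℂ (x j) (x i) = ((‖inner ℂ (x i) (x j)‖ ^ 2 : ℝ) : ℂ) := by
    rw [← inner_conj_symm (x j) (x i), RCLike.mul_conj]
    norm_cast
  rw [h]
  split_ifs with hij
  · subst hij
    rw [inner_self_eq_norm_sq_to_K, hx.1]
    simp
  · rw [hx.2 i j hij]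
    have h0 : (0 : ℝ) ≤ (d : ℝ) + 1 := by positivity
    rw [div_pow, Real.sq_sqrt h0]
    push_cast
    ring

/-- `(w³ ⟨y_i, y_j⟩)² - (w³ ⟨y_0, y_j⟩)²` has a linear relation between its rows. -/
theorem det_zero (hd : d ^ 2 + d + 2 < 2 * n) (y : Fin n → EuclideanSpace ℂ (Fin d)) (i0 : Fin n)
    (W : ℂ) : (Matrix.of fun (i j : {i : Fin n // i ≠ i0}) =>
      (W * inner ℂ (y i) (y j)) ^ 2 - (W * inner ℂ (y i0) (y j)) ^ 2).det = 0 := by
  classical
  let I := {i : Fin n // i ≠ i0}
  have hI : Fintype.card I = n - 1 := by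
    simp [I, Fintype.card_subtype_compl]
  let L : (I → ℂ) →ₗ[ℂ] ((Fin d ⊕ Pr d) → ℂ) :=
    { toFun := fun c => Sum.elim
        (fun a => ∑ i : I, c i * (star (y i a) * star (y i a) - star (y i0 a) * star (y i0 a)))
        (fun p => ∑ i : I, c i * (star (y i p.1.1) * star (y i p.1.2)
          - star (y i0 p.1.1) * star (y i0 p.1.2)))
      map_add' := by
        intro u v
        ext i
        rcases i with i | i
        · simp [add_mul, Finset.sum_add_distrib]
        · simp [add_mul, Finset.sum_add_distrib]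
      map_smul' := by
        intro c u
        ext i
        rcases i with i | i
        · simp [Finset.mul_sum, mul_assoc]
        · simp [Finset.mul_sum, mul_assoc] }
  have hlt : finrank ℂ ((Fin d ⊕ Pr d) → ℂ) < finrank ℂ (I → ℂ) := by
    rw [Module.finrank_fintype_fun_eq_card, Module.finrank_fintype_fun_eq_card, hI,
      Fintype.card_sum, Fintype.card_fin]
    have h1 := two_mul_card_Pr d
    omega
  have hker := LinearMap.ker_ne_bot_of_finrank_lt (f := L) hlt
  obtain ⟨c, hc, hc0⟩ := Submodule.exists_mem_ne_zero_of_ne_bot hker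
  rw [← Matrix.exists_vecMul_eq_zero_iff]
  refine ⟨c, hc0, ?_⟩
  have hL := LinearMap.mem_ker.mp hc
  have h1 : ∀ a, ∑ i : I, c i * (star (y i a) * star (y i a) - star (y i0 a) * star (y i0 a)) = 0 :=
    fun a => congrFun hL (Sum.inl a)
  have h2 : ∀ p : Pr d, ∑ i : I, c i * (star (y i p.1.1) * star (y i p.1.2)
      - star (y i0 p.1.1) * star (y i0 p.1.2)) = 0 := fun p => congrFun hL (Sum.inr p)
  have h3 : ∀ a b, ∑ i : I, c i * (star (y i a) * star (y i b) - star (y i0 a) * star (y i0 b)) = 0 := by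
    intro a b
    rcases lt_trichotomy a b with h | h | h
    · have := h2 ⟨(b, a), h⟩
      rw [← this]
      refine Finset.sum_congr rfl fun i _ => ?_
      dsimp only
      ring
    · subst h; exact h1 a
    · exact h2 ⟨(a, b), h⟩
  ext j
  simp only [Matrix.vecMul, dotProduct, Matrix.of_apply, Pi.zero_apply]
  have h4 : ∀ i : Fin n, (W * inner ℂ (y i) (y j)) ^ 2
      = ∑ a, ∑ b, W ^ 2 * (y j a * y j b) * (star (y i a) * star (y i b)) := by
    intro i
    rw [mul_pow, inner_eq, sq (∑ a, star (y i a) * y j a), Finset.sum_mul_sum, Finset.mul_sum]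
    refine Finset.sum_congr rfl fun a _ => ?_
    rw [Finset.mul_sum]
    exact Finset.sum_congr rfl fun b _ => by ring
  calc ∑ i : I, c i * ((W * inner ℂ (y i) (y j)) ^ 2 - (W * inner ℂ (y i0) (y j)) ^ 2)
      = ∑ i : I, ∑ a, ∑ b, W ^ 2 * (y j a * y j b)
        * (c i * (star (y i a) * star (y i b) - star (y i0 a) * star (y i0 b))) := by
        refine Finset.sum_congr rfl fun i _ => ?_
        rw [h4, h4, ← Finset.sum_sub_distrib, Finset.mul_sum]
        refine Finset.sum_congr rfl fun a _ => ?_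
        rw [← Finset.sum_sub_distrib, Finset.mul_sum]
        exact Finset.sum_congr rfl fun b _ => by ring
    _ = ∑ a, ∑ b, W ^ 2 * (y j a * y j b)
        * ∑ i : I, c i * (star (y i a) * star (y i b) - star (y i0 a) * star (y i0 b)) := by
        rw [Finset.sum_comm]
        refine Finset.sum_congr rfl fun a _ => ?_
        rw [Finset.sum_comm]
        refine Finset.sum_congr rfl fun b _ => ?_
        rw [Finset.mul_sum]
    _ = 0 := by simp only [h3, mul_zero, Finset.sum_const_zero]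

/-- the squared modulus of a rephased pair. -/
theorem mod_sq (hx : IsAngle d n x) (l : Fin n → ℂ)
    (hl : ∀ i, l i * (starRingEnd ℂ) (l i) = 1 / ((d : ℂ) + 1)) (i j : Fin n) :
    inner ℂ (l i • x i) (l j • x j) * (starRingEnd ℂ) (inner ℂ (l i • x i) (l j • x j))
      = (1 / ((d : ℂ) + 1)) ^ 2 * (if i = j then (1 : ℂ) else 1 / ((d : ℂ) + 1)) := by
  rw [← angle_mul hx i j, inner_conj_symm]
  simp only [inner_smul_left, inner_smul_right]
  calc l j * ((starRingEnd ℂ) (l i) * inner ℂ (x i) (x j))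
        * (l i * ((starRingEnd ℂ) (l j) * inner ℂ (x j) (x i)))
      = (l i * (starRingEnd ℂ) (l i)) * (l j * (starRingEnd ℂ) (l j))
        * (inner ℂ (x i) (x j) * inner ℂ (x j) (x i)) := by ring
    _ = _ := by rw [hl, hl]; ring

/-- gauge fixing with all Gram entries in `K` and an explicit element of norm `d + 1`. -/
theorem exists_gauge (hn3 : 3 ≤ n) (hx : IsAngle d n x) (K : Subfield ℂ)
    (hKc : ∀ w ∈ K, (starRingEnd ℂ) w ∈ K)
    (hK : ∀ i j k, inner ℂ (x i) (x j) * inner ℂ (x j) (x k) * inner ℂ (x k) (x i) ∈ K) :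
    ∃ (y : Fin n → EuclideanSpace ℂ (Fin d)) (W : ℂ), W ∈ K ∧
      W * (starRingEnd ℂ) W = (d : ℂ) + 1 ∧ (∀ i j, inner ℂ (y i) (y j) ∈ K) ∧
      (∀ i, inner ℂ (y i) (y i) = 1 / ((d : ℂ) + 1)) ∧
      ∀ i j, inner ℂ (y i) (y j) * (starRingEnd ℂ) (inner ℂ (y i) (y j))
        = (1 / ((d : ℂ) + 1)) ^ 2 * (if i = j then (1 : ℂ) else 1 / ((d : ℂ) + 1)) := by
  classical
  let i0 : Fin n := ⟨0, by omega⟩
  let i1 : Fin n := ⟨1, by omega⟩
  let i2 : Fin n := ⟨2, by omega⟩
  have h01 : i0 ≠ i1 := by simp [i0, i1]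
  have h12 : i1 ≠ i2 := by simp [i1, i2]
  have h20 : i2 ≠ i0 := by simp [i2, i0]
  have hd1 := d1_ne (d := d)
  have hd1K : ((d : ℂ) + 1) ∈ K := K.add_mem (natCast_mem K d) K.one_mem
  have hcd : (starRingEnd ℂ) ((d : ℂ) + 1) = (d : ℂ) + 1 := by simp
  have hmod : ∀ i j, i ≠ j → inner ℂ (x i) (x j) * (starRingEnd ℂ) (inner ℂ (x i) (x j))
      = 1 / ((d : ℂ) + 1) := by
    intro i j hij
    rw [inner_conj_symm, angle_mul hx, if_neg hij]
  let T : ℂ := inner ℂ (x i0) (x i1) * inner ℂ (x i1) (x i2) * inner ℂ (x i2) (x i0)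
  let W : ℂ := ((d : ℂ) + 1) ^ 2 * T
  have hWK : W ∈ K := K.mul_mem (K.pow_mem hd1K 2) (hK _ _ _)
  have hWW : W * (starRingEnd ℂ) W = (d : ℂ) + 1 := by
    simp only [W, T, map_mul, map_pow, hcd]
    calc ((d : ℂ) + 1) ^ 2 * (inner ℂ (x i0) (x i1) * inner ℂ (x i1) (x i2) * inner ℂ (x i2) (x i0))
          * (((d : ℂ) + 1) ^ 2 * ((starRingEnd ℂ) (inner ℂ (x i0) (x i1))
            * (starRingEnd ℂ) (inner ℂ (x i1) (x i2)) * (starRingEnd ℂ) (inner ℂ (x i2) (x i0))))
        = ((d : ℂ) + 1) ^ 4 * (inner ℂ (x i0) (x i1) * (starRingEnd ℂ) (inner ℂ (x i0) (x i1)))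
          * (inner ℂ (x i1) (x i2) * (starRingEnd ℂ) (inner ℂ (x i1) (x i2)))
          * (inner ℂ (x i2) (x i0) * (starRingEnd ℂ) (inner ℂ (x i2) (x i0))) := by ring
      _ = (d : ℂ) + 1 := by
          rw [hmod _ _ h01, hmod _ _ h12, hmod _ _ h20]
          field_simp
  have hW0 : W ≠ 0 := by
    intro h0
    rw [h0, zero_mul] at hWW
    exact hd1 hWW.symm
  have hWc0 : (starRingEnd ℂ) W ≠ 0 := by
    intro h0
    rw [h0, mul_zero] at hWW
    exact hd1 hWW.symm
  let l : Fin n → ℂ := fun i => if i = i0 then W⁻¹ else inner ℂ (x i) (x i0)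
  have hl : ∀ i, l i * (starRingEnd ℂ) (l i) = 1 / ((d : ℂ) + 1) := by
    intro i
    by_cases hi : i = i0
    · simp only [l, if_pos hi, map_inv₀]
      rw [← mul_inv, hWW, one_div]
    · simp only [l, if_neg hi]
      exact hmod _ _ hi
  have hxx : ∀ i, inner ℂ (x i) (x i) = (1 : ℂ) := by
    intro i
    rw [inner_self_eq_norm_sq_to_K, hx.1]; simp
  refine ⟨fun i => l i • x i, W, hWK, hWW, ?_, ?_, fun i j => mod_sq hx l hl i j⟩
  · intro i j
    simp only [inner_smul_left, inner_smul_right]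
    by_cases hi : i = i0
    · by_cases hj : j = i0
      · subst hi
        subst hj
        rw [hxx, mul_one, hl]
        exact K.div_mem K.one_mem hd1K
      · have h1 : inner ℂ (x j) (x i0) * inner ℂ (x i0) (x j) = 1 / ((d : ℂ) + 1) := by
          rw [angle_mul hx, if_neg hj]
        simp only [l, if_pos hi, if_neg hj]
        subst hi
        have h2 : inner ℂ (x j) (x i0) * ((starRingEnd ℂ) W⁻¹ * inner ℂ (x i0) (x j))
            = (starRingEnd ℂ) W⁻¹ * (1 / ((d : ℂ) + 1)) := by
          rw [← h1]; ring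
        rw [h2]
        exact K.mul_mem (hKc _ (K.inv_mem hWK)) (K.div_mem K.one_mem hd1K)
    · by_cases hj : j = i0
      · simp only [l, if_pos hj, if_neg hi]
        subst hj
        rw [inner_conj_symm]
        have h1 : inner ℂ (x i0) (x i) * inner ℂ (x i) (x i0) = 1 / ((d : ℂ) + 1) := by
          rw [angle_mul hx, if_neg (Ne.symm hi)]
        rw [h1]
        exact K.mul_mem (K.inv_mem hWK) (K.div_mem K.one_mem hd1K)
      · simp only [l, if_neg hi, if_neg hj]
        rw [inner_conj_symm]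
        have : inner ℂ (x j) (x i0) * (inner ℂ (x i0) (x i) * inner ℂ (x i) (x j))
            = inner ℂ (x i0) (x i) * inner ℂ (x i) (x j) * inner ℂ (x j) (x i0) := by ring
        rw [this]
        exact hK _ _ _
  · intro i
    simp only [inner_smul_left, inner_smul_right, hxx, mul_one]
    exact hl i

theorem mul_lt_one_aux {Γ : Type*} [LinearOrderedCommGroupWithZero Γ] {a b : Γ} (ha : a ≤ 1)
    (hb : b < 1) : a * b < 1 := by
  have h : a * b ≤ 1 * b := mul_le_mul' ha le_rfl
  rw [one_mul] at h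
  exact lt_of_le_of_lt h hb

/-- Complex conjugation is not inert at a valuation `v` with `v(d) = 1`. -/
theorem not_inertia_lines (hd : 1 ≤ d) (hn : d ^ 2 + d + 2 < 2 * n) (hx : IsAngle d n x) (K : Subfield ℂ)
    (c : K → K) (hc : ∀ a, ((c a : K) : ℂ) = (starRingEnd ℂ) (a : ℂ))
    (hK : ∀ i j k, inner ℂ (x i) (x j) * inner ℂ (x j) (x k) * inner ℂ (x k) (x i) ∈ K)
    {Γ : Type*} [LinearOrderedCommGroupWithZero Γ] (v : Valuation K Γ)
    (hv : ∀ a, v a ≤ 1 → v (c a - a) < 1) : v (d : K) < 1 := by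
  classical
  have hKc : ∀ w ∈ K, (starRingEnd ℂ) w ∈ K := fun w hw => by
    have := (c ⟨w, hw⟩).2
    rwa [hc] at this
  obtain ⟨y, W, hWK, hWW, hyK, hyy, hmod⟩ := exists_gauge (by nlinarith) hx K hKc hK
  let i0 : Fin n := ⟨0, by omega⟩
  have hd1 : ((d : K) + 1) ≠ 0 := by exact_mod_cast Nat.succ_ne_zero d
  have hd1C := d1_ne (d := d)
  have cmul : ∀ a b, c (a * b) = c a * c b := fun a b => Subtype.ext (by
    rw [hc]; push_cast; rw [map_mul, hc, hc])
  have cone : c 1 = 1 := Subtype.ext (by rw [hc]; push_cast; rw [map_one])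
  have cle : ∀ a, v a ≤ 1 → v (c a) ≤ 1 := by
    intro a ha
    have h1 : c a = (c a - a) + a := by ring
    rw [h1]
    exact v.map_add_le (hv a ha).le ha
  have key : ∀ a, v (a * c a) ≤ 1 → v a ≤ 1 := by
    intro a ha
    by_contra hcon
    push Not at hcon
    have ha0 : a ≠ 0 := by
      rintro rfl
      simp at hcon
    have h1 : v a⁻¹ ≤ 1 := by
      rw [map_inv₀]
      exact inv_le_one_of_one_le₀ hcon.le
    have h2 := cle _ h1
    have h3 : c a * c a⁻¹ = 1 := by rw [← cmul, mul_inv_cancel₀ ha0, cone]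
    have h4 : 1 ≤ v (c a) := by
      by_contra h5
      push Not at h5
      have h6 : v (c a) * v (c a⁻¹) = 1 := by rw [← map_mul, h3, map_one]
      have h7 : v (c a) * v (c a⁻¹) < 1 := mul_lt_one_of_lt_of_le h5 h2
      exact absurd h6 h7.ne
    rw [map_mul] at ha
    have h8 : 1 < v a * v (c a) := one_lt_mul_of_lt_of_le' hcon h4
    exact absurd ha (not_le.mpr h8)
  have hnat : ∀ n : ℕ, v (n : K) ≤ 1 := by
    intro n
    induction n with
    | zero => simp
    | succ n ih =>
      push_cast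
      exact v.map_add_le ih (by simp)
  let u : Fin n → Fin n → K := fun i j => ⟨W, hWK⟩ ^ 3 * ⟨inner ℂ (y i) (y j), hyK i j⟩
  have huc : ∀ i j, ((u i j : K) : ℂ) = W ^ 3 * inner ℂ (y i) (y j) := fun i j => rfl
  have huu : ∀ i j, u i j * c (u i j) = if i = j then (d : K) + 1 else 1 := by
    intro i j
    apply Subtype.ext
    have h1 : (((if i = j then (d : K) + 1 else 1 : K)) : ℂ) = if i = j then (d : ℂ) + 1 else 1 := by
      split_ifs
      · push_cast; rfl
      · rfl
    rw [h1]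
    push_cast
    rw [hc, huc, map_mul, map_pow]
    calc W ^ 3 * inner ℂ (y i) (y j) * ((starRingEnd ℂ) W ^ 3 * (starRingEnd ℂ) (inner ℂ (y i) (y j)))
        = (W * (starRingEnd ℂ) W) ^ 3
          * (inner ℂ (y i) (y j) * (starRingEnd ℂ) (inner ℂ (y i) (y j))) := by ring
      _ = _ := by
          rw [hWW, hmod]
          split_ifs
          · field_simp
          · field_simp
  have hu1 : ∀ i j, v (u i j) ≤ 1 := by
    intro i j
    apply key
    rw [huu]
    split_ifs
    · have := hnat (d + 1)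
      push_cast at this
      exact this
    · simp
  let R := v.integer
  let M : Ideal R :=
    { carrier := {a | v (a : K) < 1}
      add_mem' := fun {a b} ha hb => v.map_add_lt ha hb
      zero_mem' := by simp
      smul_mem' := fun a b hb => by
        change v ((a * b : R) : K) < 1
        push_cast
        rw [map_mul]
        exact mul_lt_one_aux a.2 hb }
  let φ := Ideal.Quotient.mk M
  let U : Fin n → Fin n → R := fun i j => ⟨u i j, hu1 i j⟩
  have hU : ∀ i j, φ (U i j ^ 2) = φ (if i = j then (d : R) + 1 else 1) := by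
    intro i j
    rw [Ideal.Quotient.eq]
    change v ((U i j ^ 2 - (if i = j then (d : R) + 1 else 1) : R) : K) < 1
    have h1 : ((U i j ^ 2 - (if i = j then (d : R) + 1 else 1) : R) : K)
        = u i j ^ 2 - u i j * c (u i j) := by
      rw [huu]
      split_ifs
      · push_cast; rfl
      · push_cast; rfl
    rw [h1]
    have h2 : u i j ^ 2 - u i j * c (u i j) = - (u i j * (c (u i j) - u i j)) := by ring
    rw [h2, Valuation.map_neg, map_mul]
    exact mul_lt_one_aux (hu1 i j) (hv _ (hu1 i j))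
  let N : Matrix {i : Fin n // i ≠ i0} {i : Fin n // i ≠ i0} R :=
    Matrix.of fun i j => U i j ^ 2 - U i0 j ^ 2
  have hN0 : N.det = 0 := by
    let ι : R →+* ℂ := K.subtype.comp R.subtype
    have hι : Function.Injective ι := Subtype.coe_injective.comp Subtype.coe_injective
    apply hι
    rw [map_zero, RingHom.map_det, ← det_zero hn y i0 (W ^ 3)]
    congr 1
  have hφN : φ.mapMatrix N = (φ (d : R)) • (1 : Matrix _ _ _) := by
    ext i j
    simp only [RingHom.mapMatrix_apply, Matrix.map_apply, N, Matrix.of_apply, map_sub, hU,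
      Matrix.smul_apply, smul_eq_mul]
    have h1 : ¬ (i0 = (j : Fin n)) := fun h => j.2 h.symm
    rw [if_neg h1]
    by_cases hij : i = j
    · subst hij
      simp
    · have h2 : ¬ ((i : Fin n) = j) := fun h => hij (Subtype.ext h)
      rw [if_neg h2, Matrix.one_apply_ne hij]
      simp
  have h5 : φ ((d : R)) ^ (Fintype.card {i : Fin n // i ≠ i0}) = 0 := by
    have h1 : (φ.mapMatrix N).det = 0 := by
      rw [← RingHom.map_det, hN0, map_zero]
    rw [hφN, Matrix.det_smul, Matrix.det_one, mul_one] at h1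
    exact h1
  rw [← map_pow, Ideal.Quotient.eq_zero_iff_mem] at h5
  have h6 : v ((d : K)) ^ (Fintype.card {i : Fin n // i ≠ i0}) < 1 := by
    have : v (((d : R) ^ (Fintype.card {i : Fin n // i ≠ i0}) : R) : K) < 1 := h5
    push_cast at this
    rwa [map_pow] at this
  by_contra hcon
  push Not at hcon
  exact absurd h6 (not_lt.mpr (one_le_pow₀ hcon))

/-- Complex conjugation is not inert at a valuation `v` with `v(d) = 1`: maximal ETFs. -/
theorem not_inertia (hd : 3 ≤ d) {x : Fin (d ^ 2) → EuclideanSpace ℂ (Fin d)}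
    (hx : IsMaxETF d x) (K : Subfield ℂ)
    (c : K → K) (hc : ∀ a, ((c a : K) : ℂ) = (starRingEnd ℂ) (a : ℂ))
    (hK : ∀ i j k, inner ℂ (x i) (x j) * inner ℂ (x j) (x k) * inner ℂ (x k) (x i) ∈ K)
    {Γ : Type*} [LinearOrderedCommGroupWithZero Γ] (v : Valuation K Γ)
    (hv : ∀ a, v a ≤ 1 → v (c a - a) < 1) : v (d : K) < 1 :=
  not_inertia_lines (by omega) (by nlinarith) hx K c hc hK v hv

end Pool.Agent.H13.SIC
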