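import Mathlib
import Pool.Agent.H13.ETF.Ram
import Pool.Agent.H13.ETF.Main

set_option autoImplicit false

/-!
Valuations on the real subfield.
-/

namespace Pool.Agent.H13.SIC

open Pool.Agent.H13.Witt Module

variable {d : ℕ} {x : Fin (d ^ 2) → EuclideanSpace ℂ (Fin d)}

theorem normSq_mem {K : Subfield ℂ} (hKc : ∀ w ∈ K, (starRingEnd ℂ) w ∈ K) (z : K) :
    Complex.normSq (z : ℂ) ∈ Fr K := by
  rw [mem_Fr, ← Complex.mul_conj]
  exact K.mul_mem z.2 (hKc _ z.2)

/-- A valuation of the real subfield `F` at which `ρ²` (with `iρ ∈ K`) is not a square value has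
`v(d) < 1`. -/
theorem unram_real (hd : 3 ≤ d) (hx : IsMaxETF d x) (K : Subfield ℂ)
    (hKc : ∀ w ∈ K, (starRingEnd ℂ) w ∈ K)
    (hK : ∀ i j k, inner ℂ (x i) (x j) * inner ℂ (x j) (x k) * inner ℂ (x k) (x i) ∈ K)
    {ρ : ℝ} (hρ0 : ρ ≠ 0) (hρ : (ρ : ℂ) * Complex.I ∈ K) (δ : Fr K) (hδ : (δ : ℝ) = ρ ^ 2)
    {Γ : Type*} [LinearOrderedCommGroupWithZero Γ] (v : Valuation (Fr K) Γ)
    (hv : ∀ f : Fr K, v δ ≠ v f ^ 2) : v (d : Fr K) < 1 := by
  classical
  let N : K → Fr K := fun z => ⟨Complex.normSq (z : ℂ), normSq_mem hKc z⟩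
  let A : K → Fr K := fun z => ⟨(z : ℂ).re, re_mem hKc z.2⟩
  let B : K → Fr K := fun z => ⟨(z : ℂ).im / ρ, im_mem hKc hρ0 hρ z.2⟩
  have hN : ∀ z, N z = A z ^ 2 + B z ^ 2 * δ := by
    intro z
    apply Subtype.ext
    push_cast
    rw [hδ]
    change Complex.normSq (z : ℂ) = (z : ℂ).re ^ 2 + ((z : ℂ).im / ρ) ^ 2 * ρ ^ 2
    rw [Complex.normSq_apply]
    field_simp
  have hA : ∀ z w, A (z + w) = A z + A w := fun z w => Subtype.ext (by
    change ((z + w : K) : ℂ).re = (z : ℂ).re + (w : ℂ).re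
    push_cast
    rw [Complex.add_re])
  have hB : ∀ z w, B (z + w) = B z + B w := fun z w => Subtype.ext (by
    change ((z + w : K) : ℂ).im / ρ = (z : ℂ).im / ρ + (w : ℂ).im / ρ
    push_cast
    rw [Complex.add_im]
    ring)
  have hNv : ∀ z, v (N z) = max (v (A z) ^ 2) (v (B z) ^ 2 * v δ) := by
    intro z
    have hne : v (A z ^ 2) ≠ v (B z ^ 2 * δ) ∨ B z = 0 := by
      by_cases hb : B z = 0
      · exact Or.inr hb
      · left
        intro h
        apply hv (A z / B z)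
        rw [map_div₀, div_pow, eq_div_iff (pow_ne_zero 2 ((Valuation.ne_zero_iff v).mpr hb)),
          ← map_pow v (A z), h, map_mul, map_pow, mul_comm]
    rw [hN]
    rcases hne with h | h
    · rcases lt_or_gt_of_ne h with h1 | h1
      · rw [Valuation.map_add_eq_of_lt_right v h1, map_mul, map_pow]
        rw [max_eq_right]
        rw [map_pow, map_mul, map_pow] at h1
        exact h1.le
      · rw [Valuation.map_add_eq_of_lt_left v h1, map_pow]
        rw [max_eq_left]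
        rw [map_pow, map_mul, map_pow] at h1
        exact h1.le
    · rw [h]
      simp
  let V : Valuation K Γ :=
    { toFun := fun z => v (N z)
      map_zero' := by
        have : N 0 = 0 := Subtype.ext (by
          change Complex.normSq ((0 : K) : ℂ) = 0
          simp)
        rw [this, map_zero]
      map_one' := by
        have : N 1 = 1 := Subtype.ext (by
          change Complex.normSq ((1 : K) : ℂ) = 1
          simp)
        rw [this, map_one]
      map_mul' := fun z w => by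
        have : N (z * w) = N z * N w := Subtype.ext (by
          change Complex.normSq ((z * w : K) : ℂ) = Complex.normSq (z : ℂ) * Complex.normSq (w : ℂ)
          push_cast
          rw [Complex.normSq_mul])
        rw [this, map_mul]
      map_add_le_max' := fun z w => by
        change v (N (z + w)) ≤ max (v (N z)) (v (N w))
        rw [hNv (z + w), hA, hB]
        have h1 : v (A z) ^ 2 ≤ v (N z) := by rw [hNv]; exact le_max_left _ _
        have h2 : v (B z) ^ 2 * v δ ≤ v (N z) := by rw [hNv]; exact le_max_right _ _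
        have h3 : v (A w) ^ 2 ≤ v (N w) := by rw [hNv]; exact le_max_left _ _
        have h4 : v (B w) ^ 2 * v δ ≤ v (N w) := by rw [hNv]; exact le_max_right _ _
        apply max_le
        · rcases le_total (v (A z)) (v (A w)) with h | h
          · have h5 : v (A z + A w) ≤ v (A w) := v.map_add_le h le_rfl
            exact le_max_of_le_right ((pow_le_pow_left₀ zero_le h5 2).trans h3)
          · have h5 : v (A z + A w) ≤ v (A z) := v.map_add_le le_rfl h
            exact le_max_of_le_left ((pow_le_pow_left₀ zero_le h5 2).trans h1)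
        · rcases le_total (v (B z)) (v (B w)) with h | h
          · have h5 : v (B z + B w) ≤ v (B w) := v.map_add_le h le_rfl
            exact le_max_of_le_right ((mul_le_mul' (pow_le_pow_left₀ zero_le h5 2) le_rfl).trans h4)
          · have h5 : v (B z + B w) ≤ v (B z) := v.map_add_le le_rfl h
            exact le_max_of_le_left ((mul_le_mul' (pow_le_pow_left₀ zero_le h5 2) le_rfl).trans h2) }
  have hV : ∀ z, V z = v (N z) := fun z => rfl
  let c : K → K := fun z => ⟨(starRingEnd ℂ) (z : ℂ), hKc _ z.2⟩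
  have h1 := not_inertia hd hx K c (fun a => rfl) hK V (by
    intro a ha
    rw [hV, hNv]
    have hAc : A (c a - a) = 0 := Subtype.ext (by
      change ((c a - a : K) : ℂ).re = 0
      push_cast
      change ((starRingEnd ℂ) (a : ℂ) - (a : ℂ)).re = 0
      simp)
    have hBc : B (c a - a) = - (2 * B a) := Subtype.ext (by
      change ((c a - a : K) : ℂ).im / ρ = - (2 * ((a : ℂ).im / ρ))
      push_cast
      change ((starRingEnd ℂ) (a : ℂ) - (a : ℂ)).im / ρ = - (2 * ((a : ℂ).im / ρ))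
      rw [Complex.sub_im, Complex.conj_im]
      ring)
    rw [hAc, hBc, Valuation.map_neg, map_zero, zero_pow two_ne_zero]
    rw [max_eq_right zero_le]
    have h2 : v (B a) ^ 2 * v δ ≤ 1 := by
      rw [hV, hNv] at ha
      exact (le_max_right _ _).trans ha
    have h3 : v (2 : Fr K) ≤ 1 := by
      have : (2 : Fr K) = 1 + 1 := by norm_num
      rw [this]
      exact v.map_add_le (by simp) (by simp)
    have h4 : v (2 * B a) ^ 2 * v δ ≤ 1 := by
      rw [map_mul, mul_pow, mul_assoc]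
      calc v (2 : Fr K) ^ 2 * (v (B a) ^ 2 * v δ) ≤ 1 * 1 :=
            mul_le_mul' (pow_le_one₀ zero_le h3) h2
        _ = 1 := one_mul 1
    refine lt_of_le_of_ne h4 fun h5 => ?_
    have h6 : v (2 * B a) ≠ 0 := by
      intro h0
      rw [h0, zero_pow two_ne_zero, zero_mul] at h5
      exact zero_ne_one h5
    apply hv (1 / (2 * B a))
    rw [map_div₀, map_one, div_pow, one_pow, eq_div_iff (pow_ne_zero 2 h6), mul_comm]
    exact h5)
  rw [hV] at h1
  have h2 : N ((d : ℕ) : K) = (d : Fr K) ^ 2 := Subtype.ext (by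
    change Complex.normSq (((d : ℕ) : K) : ℂ) = (((d : ℕ) : Fr K) ^ 2 : Fr K)
    push_cast
    rw [Complex.normSq_natCast, sq])
  rw [h2, map_pow] at h1
  by_contra hcon
  push Not at hcon
  exact absurd h1 (not_lt.mpr (one_le_pow₀ hcon))

/-- the largest conjugation stable subfield. -/
noncomputable def cc (K : Subfield ℂ) : Subfield ℂ := K ⊓ K.comap (starRingEnd ℂ)

theorem mem_cc {K : Subfield ℂ} {z : ℂ} : z ∈ cc K ↔ z ∈ K ∧ (starRingEnd ℂ) z ∈ K := Iff.rfl

theorem cc_conj (K : Subfield ℂ) : ∀ w ∈ cc K, (starRingEnd ℂ) w ∈ cc K := by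
  intro w hw
  rw [mem_cc] at hw ⊢
  refine ⟨hw.2, ?_⟩
  rw [Complex.conj_conj]
  exact hw.1

theorem cc_triple {K : Subfield ℂ}
    (hK : ∀ i j k, inner ℂ (x i) (x j) * inner ℂ (x j) (x k) * inner ℂ (x k) (x i) ∈ K) :
    ∀ i j k, inner ℂ (x i) (x j) * inner ℂ (x j) (x k) * inner ℂ (x k) (x i) ∈ cc K := by
  intro i j k
  rw [mem_cc]
  refine ⟨hK i j k, ?_⟩
  rw [map_mul, map_mul, inner_conj_symm, inner_conj_symm, inner_conj_symm]
  have := hK i k j
  have e : inner ℂ (x j) (x i) * inner ℂ (x k) (x j) * inner ℂ (x i) (x k)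
      = inner ℂ (x i) (x k) * inner ℂ (x k) (x j) * inner ℂ (x j) (x i) := by ring
  rw [e]
  exact this

theorem Fr_cc (K : Subfield ℂ) : Fr (cc K) = Fr K := by
  ext r
  rw [mem_Fr, mem_Fr, mem_cc, Complex.conj_ofReal]
  exact and_self_iff

theorem imag_cc {K : Subfield ℂ} {ρ : ℝ} (h : (ρ : ℂ) * Complex.I ∈ K) :
    (ρ : ℂ) * Complex.I ∈ cc K := by
  rw [mem_cc]
  refine ⟨h, ?_⟩
  rw [map_mul, Complex.conj_ofReal, Complex.conj_I, mul_neg]
  exact K.neg_mem h

theorem sqrtI_of {K : Subfield ℂ} {m : ℕ} (h : IsSquare (-(m : K))) :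
    ((Real.sqrt m : ℝ) : ℂ) * Complex.I ∈ K := by
  obtain ⟨r, hr⟩ := h
  have h1 : (((Real.sqrt m : ℝ) : ℂ) * Complex.I) ^ 2 = (r : ℂ) ^ 2 := by
    have h2 := congrArg (Subtype.val : K → ℂ) hr
    push_cast at h2
    rw [sq (r : ℂ), ← h2, mul_pow, Complex.I_sq, ← Complex.ofReal_pow,
      Real.sq_sqrt (Nat.cast_nonneg m)]
    push_cast
    ring
  rcases sq_eq_sq_iff_eq_or_eq_neg.mp h1 with h3 | h3
  · rw [h3]; exact r.2
  · rw [h3]; exact K.neg_mem r.2

theorem sqrt_of {K : Subfield ℂ} {m : ℕ} (h : IsSquare (m : K)) :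
    IsSquare (m : Fr K) := by
  obtain ⟨r, hr⟩ := h
  have h1 : (((Real.sqrt m : ℝ) : ℂ)) ^ 2 = (r : ℂ) ^ 2 := by
    have h2 := congrArg (Subtype.val : K → ℂ) hr
    push_cast at h2
    rw [sq (r : ℂ), ← h2, ← Complex.ofReal_pow,
      Real.sq_sqrt (Nat.cast_nonneg m)]
    push_cast
    rfl
  have h4 : Real.sqrt m ∈ Fr K := by
    rw [mem_Fr]
    rcases sq_eq_sq_iff_eq_or_eq_neg.mp h1 with h3 | h3
    · rw [h3]; exact r.2
    · rw [h3]; exact K.neg_mem r.2
  refine ⟨⟨_, h4⟩, Subtype.ext ?_⟩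
  change ((m : ℕ) : ℝ) = Real.sqrt m * Real.sqrt m
  rw [Real.mul_self_sqrt (Nat.cast_nonneg m)]

theorem disc_any (hd : 2 ≤ d) (hx : IsMaxETF d x) (K : Subfield ℂ)
    (hK : ∀ i j k, inner ℂ (x i) (x j) * inner ℂ (x j) (x k) * inner ℂ (x k) (x i) ∈ K) :
    IsSquare ((-1) ^ (d * (d - 1) / 2) * (((if Even d then d + 1 else d : ℕ)) : K)) := by
  obtain ⟨M, hM⟩ := exists_matrices (by omega) hx K hK
  have h1 := MM_key hd M hM
  refine (key_disc hd ?_ h1).1
  split_ifs
  · exact_mod_cast Nat.succ_ne_zero d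
  · exact_mod_cast (by omega : d ≠ 0)

theorem half_parity (d : ℕ) : (d % 4 = 2 ∨ d % 4 = 3 → Odd (d * (d - 1) / 2)) ∧
    (d % 4 = 0 ∨ d % 4 = 1 → Even (d * (d - 1) / 2)) := by
  obtain ⟨j, hj⟩ : ∃ j, d = 4 * j ∨ d = 4 * j + 1 ∨ d = 4 * j + 2 ∨ d = 4 * j + 3 := ⟨d / 4, by omega⟩
  rcases hj with rfl | rfl | rfl | rfl
  · refine ⟨fun h => by omega, fun _ => ?_⟩
    have : 4 * j * (4 * j - 1) = 2 * (2 * j * (4 * j - 1)) := by ring
    rw [this, Nat.mul_div_cancel_left _ (by norm_num)]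
    exact ⟨j * (4 * j - 1), by ring⟩
  · refine ⟨fun h => by omega, fun _ => ?_⟩
    have : (4 * j + 1) * (4 * j + 1 - 1) = 2 * (2 * j * (4 * j + 1)) := by
      rw [Nat.add_sub_cancel]; ring
    rw [this, Nat.mul_div_cancel_left _ (by norm_num)]
    exact ⟨j * (4 * j + 1), by ring⟩
  · refine ⟨fun _ => ?_, fun h => by omega⟩
    have : (4 * j + 2) * (4 * j + 2 - 1) = 2 * (2 * (4 * j ^ 2 + 3 * j) + 1) := by
      have : 4 * j + 2 - 1 = 4 * j + 1 := by omega
      rw [this]; ring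
    rw [this, Nat.mul_div_cancel_left _ (by norm_num)]
    exact ⟨4 * j ^ 2 + 3 * j, rfl⟩
  · refine ⟨fun _ => ?_, fun h => by omega⟩
    have : (4 * j + 3) * (4 * j + 3 - 1) = 2 * (2 * (4 * j ^ 2 + 5 * j + 1) + 1) := by
      have : 4 * j + 3 - 1 = 4 * j + 2 := by omega
      rw [this]; ring
    rw [this, Nat.mul_div_cancel_left _ (by norm_num)]
    exact ⟨4 * j ^ 2 + 5 * j + 1, rfl⟩

/-- `d ≡ 3 mod 4`: `√-d ∈ K`. -/
theorem sqrt_mem3 (hd : d % 4 = 3) (hx : IsMaxETF d x) (K : Subfield ℂ)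
    (hK : ∀ i j k, inner ℂ (x i) (x j) * inner ℂ (x j) (x k) * inner ℂ (x k) (x i) ∈ K) :
    ((Real.sqrt d : ℝ) : ℂ) * Complex.I ∈ K := by
  have h := disc_any (by omega) hx K hK
  rw [((half_parity d).1 (Or.inr hd)).neg_one_pow, if_neg (by rw [Nat.even_iff]; omega),
    neg_one_mul] at h
  exact sqrtI_of h

/-- `d ≡ 2 mod 4`: `√-(d+1) ∈ K`. -/
theorem sqrt_mem2 (hd : d % 4 = 2) (hx : IsMaxETF d x) (K : Subfield ℂ)
    (hK : ∀ i j k, inner ℂ (x i) (x j) * inner ℂ (x j) (x k) * inner ℂ (x k) (x i) ∈ K) :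
    ((Real.sqrt (d + 1 : ℕ) : ℝ) : ℂ) * Complex.I ∈ K := by
  have h := disc_any (by omega) hx K hK
  rw [((half_parity d).1 (Or.inl hd)).neg_one_pow, if_pos (by rw [Nat.even_iff]; omega),
    neg_one_mul] at h
  exact sqrtI_of h

/-- `d ≡ 1 mod 4`: `√d` is a real element of `K`. -/
theorem sqrt_mem1 (hd2 : 2 ≤ d) (hd : d % 4 = 1) (hx : IsMaxETF d x) (K : Subfield ℂ)
    (hK : ∀ i j k, inner ℂ (x i) (x j) * inner ℂ (x j) (x k) * inner ℂ (x k) (x i) ∈ K) :
    IsSquare ((d : ℕ) : Fr K) := by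
  have h := disc_any hd2 hx K hK
  rw [((half_parity d).2 (Or.inr hd)).neg_one_pow, if_neg (by rw [Nat.even_iff]; omega),
    one_mul] at h
  exact sqrt_of h

/-- `d ≡ 0 mod 4`: `√(d+1)` is a real element of `K`. -/
theorem sqrt_mem0 (hd2 : 2 ≤ d) (hd : d % 4 = 0) (hx : IsMaxETF d x) (K : Subfield ℂ)
    (hK : ∀ i j k, inner ℂ (x i) (x j) * inner ℂ (x j) (x k) * inner ℂ (x k) (x i) ∈ K) :
    IsSquare ((d + 1 : ℕ) : Fr K) := by
  have h := disc_any hd2 hx K hK
  rw [((half_parity d).2 (Or.inl hd)).neg_one_pow, if_pos (by rw [Nat.even_iff]; omega),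
    one_mul] at h
  exact sqrt_of h

/-- `d ≡ 2 mod 4`, `d > 2`: the value of `d + 1` is a square at every valuation of the real
subfield. -/
theorem square_val (hd3 : 3 ≤ d) (hd : d % 4 = 2) (hx : IsMaxETF d x) (K : Subfield ℂ)
    (hKc : ∀ w ∈ K, (starRingEnd ℂ) w ∈ K)
    (hK : ∀ i j k, inner ℂ (x i) (x j) * inner ℂ (x j) (x k) * inner ℂ (x k) (x i) ∈ K)
    {Γ : Type*} [LinearOrderedCommGroupWithZero Γ] (v : Valuation (Fr K) Γ) :
    ∃ f : Fr K, v ((d + 1 : ℕ) : Fr K) = v f ^ 2 := by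
  by_contra hcon
  push Not at hcon
  have hρ := sqrt_mem2 hd hx K hK
  have hρ0 : Real.sqrt (d + 1 : ℕ) ≠ 0 :=
    (Real.sqrt_pos.mpr (by exact_mod_cast Nat.succ_pos d)).ne'
  have hδ : ((((d + 1 : ℕ) : Fr K)) : ℝ) = Real.sqrt (d + 1 : ℕ) ^ 2 := by
    rw [Real.sq_sqrt (Nat.cast_nonneg _)]
    rfl
  have h1 := unram_real hd3 hx K hKc hK hρ0 hρ _ hδ v hcon
  apply hcon 1
  rw [map_one, one_pow]
  push_cast
  rw [add_comm]
  exact Valuation.map_one_add_of_lt v h1

end Pool.Agent.H13.SIC
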