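import Mathlib
import Pool.Agent.H13.ETF.Unram
import Pool.Agent.H13.ETF.OddDeg

set_option autoImplicit false

/-!
The final statements for a general field.
-/

namespace Pool.Agent.H13.SIC

open Pool.Agent.H13.Witt Pool.Agent.H13.OddDeg Module

variable {d : ℕ} {x : Fin (d ^ 2) → EuclideanSpace ℂ (Fin d)}

/-- `d ≡ 2 mod 4`: complex conjugation is in no inertia group. -/
theorem no_inertia2 (hd3 : 3 ≤ d) (hd : d % 4 = 2) (hx : IsMaxETF d x) (K : Subfield ℂ)
    (c : K → K) (hc : ∀ a, ((c a : K) : ℂ) = (starRingEnd ℂ) (a : ℂ))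
    (hK : ∀ i j k, inner ℂ (x i) (x j) * inner ℂ (x j) (x k) * inner ℂ (x k) (x i) ∈ K)
    {Γ : Type*} [LinearOrderedCommGroupWithZero Γ] (v : Valuation K Γ)
    (hv : ∀ a, v a ≤ 1 → v (c a - a) < 1) : False := by
  have h1 := not_inertia hd3 hx K c hc hK v hv
  have hω := sqrt_mem2 hd hx K hK
  set ω : K := ⟨_, hω⟩ with hωdef
  have hω2 : ω ^ 2 = -((d : K) + 1) := by
    apply Subtype.ext
    push_cast
    rw [mul_pow, Complex.I_sq, ← Complex.ofReal_pow, Real.sq_sqrt (Nat.cast_nonneg _)]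
    push_cast
    ring
  have hcω : c ω = - ω := by
    apply Subtype.ext
    rw [hc]
    push_cast
    rw [map_mul, Complex.conj_ofReal, Complex.conj_I]
    ring
  obtain ⟨k, hk⟩ : ∃ k, d = 4 * k + 2 := ⟨d / 4, by omega⟩
  have hnat : ∀ n : ℕ, v (n : K) ≤ 1 := by
    intro n
    induction n with
    | zero => simp
    | succ n ih =>
      push_cast
      exact v.map_add_le ih (by simp)
  set a : K := (1 + ω) / 2 with ha
  have ha2 : a ^ 2 = a - ((k + 1 : ℕ) : K) := by
    have h3 : ω ^ 2 = - (4 * (k : K) + 3) := by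
      rw [hω2, hk]; push_cast; ring
    rw [ha]
    push_cast
    linear_combination (1 / 4) * h3
  have hva : v a ≤ 1 := by
    by_contra hcon
    push Not at hcon
    have h3 : v a ^ 2 ≤ v a := by
      rw [← map_pow, ha2]
      exact (v.map_sub_le le_rfl ((hnat _).trans hcon.le))
    have h4 : v a ≠ 0 := (lt_trans zero_lt_one hcon).ne'
    have h5 : v a * v a ≤ v a * 1 := by rw [← sq, mul_one]; exact h3
    have h6 := le_of_mul_le_mul_left h5 (lt_trans zero_lt_one hcon)
    exact absurd h6 (not_le.mpr hcon)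
  have h3 := hv a hva
  have h4 : c a - a = - ω := by
    have : c a = (1 - ω) / 2 := by
      apply Subtype.ext
      rw [hc]
      have h5 := congrArg (Subtype.val : K → ℂ) hcω
      rw [hc] at h5
      push_cast at h5
      rw [ha]
      push_cast
      rw [map_div₀, map_add, map_one, h5]
      have h6 : (starRingEnd ℂ) (2 : ℂ) = 2 := by
        exact Complex.conj_ofNat 2
      have h7 : ((2 : K) : ℂ) = 2 := rfl
      rw [h7, h6]
      ring
    rw [this, ha]
    ring
  rw [h4, Valuation.map_neg] at h3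
  have h5 : v ((d : K) + 1) < 1 := by
    have h6 : v (ω ^ 2) < 1 := by
      rw [map_pow, sq]
      exact mul_lt_one_aux h3.le h3
    rwa [hω2, Valuation.map_neg] at h6
  have h7 : v (1 : K) < 1 := by
    have : (1 : K) = ((d : K) + 1) - d := by ring
    rw [this]
    exact v.map_sub_lt h5 h1
  rw [map_one] at h7
  exact lt_irrefl _ h7

theorem nat_sq_of_odd {F : Type*} [Field F] [CharZero F] [FiniteDimensional ℚ F]
    (hodd : Odd (finrank ℚ F)) {m : ℕ} (h : IsSquare (m : F)) : IsSquare m := by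
  obtain ⟨f, hf⟩ := h
  have h1 := Algebra.norm_algebraMap (S := F) (m : ℚ)
  have h2 : algebraMap ℚ F (m : ℚ) = f * f := by rw [← hf]; simp
  rw [h2, map_mul] at h1
  obtain ⟨k, hk⟩ := hodd
  rw [hk] at h1
  by_cases hm : m = 0
  · subst hm; exact ⟨0, rfl⟩
  have hm0 : (m : ℚ) ≠ 0 := by exact_mod_cast hm
  rw [← Rat.isSquare_natCast_iff]
  refine ⟨Algebra.norm ℚ f / (m : ℚ) ^ k, ?_⟩
  rw [div_mul_div_comm, h1, eq_div_iff (mul_ne_zero (pow_ne_zero _ hm0) (pow_ne_zero _ hm0))]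
  ring

/-- the classification for real subfields of odd degree. -/
theorem odd_degree (hd3 : 3 ≤ d) (hx : IsMaxETF d x) (K : Subfield ℂ)
    (hK : ∀ i j k, inner ℂ (x i) (x j) * inner ℂ (x j) (x k) * inner ℂ (x k) (x i) ∈ K)
    (hfin : FiniteDimensional ℚ (Fr K)) (hodd : Odd (finrank ℚ (Fr K))) :
    (d % 8 = 0 ∧ IsSquare (d + 1)) ∨ (d % 8 = 1 ∧ IsSquare d) ∨
    (d % 8 = 3 ∧ ∀ p : ℕ, p.Prime → Odd (d.factorization p) → p % 8 = 1 ∨ p % 8 = 3) ∨
    (d % 8 = 7 ∧ ∀ p : ℕ, p.Prime → Odd (d.factorization p) → p % 8 = 1 ∨ p % 8 = 7) := by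
  have hsq4 : ∀ m : ℕ, IsSquare m → m % 8 = 0 ∨ m % 8 = 1 ∨ m % 8 = 4 := by
    rintro m ⟨r, rfl⟩
    have : r % 8 = 0 ∨ r % 8 = 1 ∨ r % 8 = 2 ∨ r % 8 = 3 ∨ r % 8 = 4 ∨ r % 8 = 5 ∨ r % 8 = 6 ∨
      r % 8 = 7 := by omega
    rcases this with h | h | h | h | h | h | h | h <;> simp [Nat.mul_mod, h]
  have hd8 : d % 8 = 0 ∨ d % 8 = 1 ∨ d % 8 = 2 ∨ d % 8 = 3 ∨ d % 8 = 4 ∨ d % 8 = 5 ∨ d % 8 = 6 ∨
      d % 8 = 7 := by omega
  have hd0 : d ≠ 0 := by omega
  have hnf : NumberField (Fr K) := ⟨⟩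
  have case2 : d % 4 = 2 → False := by
    intro h
    have h1 : IsSquare (d + 1) := by
      have hodd' : Odd (finrank ℚ (Fr (cc K))) := by rw [Fr_cc]; exact hodd
      have hfin' : FiniteDimensional ℚ (Fr (cc K)) := by rw [Fr_cc]; exact hfin
      have hnf' : NumberField (Fr (cc K)) := ⟨⟩
      exact sq_of_val hodd' (d + 1) (Nat.succ_ne_zero d) fun v =>
        square_val hd3 h hx (cc K) (cc_conj K) (cc_triple hK) _
    have := hsq4 _ h1
    omega
  rcases hd8 with h | h | h | h | h | h | h | h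
  · exact Or.inl ⟨h, nat_sq_of_odd hodd (sqrt_mem0 (by omega) (by omega) hx K hK)⟩
  · exact Or.inr (Or.inl ⟨h, nat_sq_of_odd hodd (sqrt_mem1 (by omega) (by omega) hx K hK)⟩)
  · exact (case2 (by omega)).elim
  · refine Or.inr (Or.inr (Or.inl ⟨h, ?_⟩))
    intro p hp hpodd
    have : Fact p.Prime := ⟨hp⟩
    obtain ⟨a, b, hab⟩ := main3 h hx (cc K) (cc_conj K) (cc_triple hK)
      (sqrt_mem3 (by omega) hx (cc K) (cc_triple hK))
    have hodd' : Odd (finrank ℚ (Fr (cc K))) := by rw [Fr_cc]; exact hodd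
    have hfin' : FiniteDimensional ℚ (Fr (cc K)) := by rw [Fr_cc]; exact hfin
    obtain ⟨u, v, huv⟩ := odd_norm hodd' (2 : ℚ) (d : ℚ) (by exact_mod_cast hd0) a b (by
      simpa using hab)
    have hp2 : p ≠ 2 := by
      rintro rfl
      have h2 : ¬ 2 ∣ d := by omega
      rw [Nat.factorization_eq_zero_of_not_dvd h2] at hpodd
      exact absurd hpodd (by decide)
    by_contra hcon
    have hns : ¬ IsSquare ((-(2 : ℤ) : ℤ) : ZMod p) := by
      intro hs
      apply hcon
      have h3 : IsSquare (-2 : ZMod p) := by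
        have : ((-(2 : ℤ) : ℤ) : ZMod p) = -2 := by push_cast; ring
        rwa [this] at hs
      exact (ZMod.exists_sq_eq_neg_two_iff hp2).mp h3
    have h4 := val_even (p := p) 2 hns d hd0 u v (by rw [huv]; push_cast; ring)
    rw [Nat.factorization_def d hp] at hpodd
    exact (Nat.not_even_iff_odd.mpr hpodd) h4
  · have h1 := nat_sq_of_odd hodd (sqrt_mem0 (d := d) (by omega) (by omega) hx K hK)
    have := hsq4 _ h1
    omega
  · have h1 := nat_sq_of_odd hodd (sqrt_mem1 (d := d) (by omega) (by omega) hx K hK)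
    have := hsq4 _ h1
    omega
  · exact (case2 (by omega)).elim
  · refine Or.inr (Or.inr (Or.inr ⟨h, ?_⟩))
    intro p hp hpodd
    have : Fact p.Prime := ⟨hp⟩
    obtain ⟨a, b, hab⟩ := main7 h hx (cc K) (cc_conj K) (cc_triple hK)
      (sqrt_mem3 (by omega) hx (cc K) (cc_triple hK))
    have hodd' : Odd (finrank ℚ (Fr (cc K))) := by rw [Fr_cc]; exact hodd
    have hfin' : FiniteDimensional ℚ (Fr (cc K)) := by rw [Fr_cc]; exact hfin
    obtain ⟨u, v, huv⟩ := odd_norm hodd' (-2 : ℚ) (d : ℚ) (by exact_mod_cast hd0) a b (by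
      rw [sub_eq_add_neg, ← neg_mul] at hab
      simpa using hab)
    have hp2 : p ≠ 2 := by
      rintro rfl
      have h2 : ¬ 2 ∣ d := by omega
      rw [Nat.factorization_eq_zero_of_not_dvd h2] at hpodd
      exact absurd hpodd (by decide)
    by_contra hcon
    have hns : ¬ IsSquare ((-(-2 : ℤ) : ℤ) : ZMod p) := by
      intro hs
      apply hcon
      have h3 : IsSquare (2 : ZMod p) := by
        have : ((-(-2 : ℤ) : ℤ) : ZMod p) = 2 := by push_cast; ring
        rwa [this] at hs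
      exact (ZMod.exists_sq_eq_two_iff hp2).mp h3
    have h4 := val_even (p := p) (-2) hns d hd0 u v (by rw [huv]; push_cast; ring)
    rw [Nat.factorization_def d hp] at hpodd
    exact (Nat.not_even_iff_odd.mpr hpodd) h4

end Pool.Agent.H13.SIC
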