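import Mathlib
import Pool.Agent.H13.ETF.Final

set_option autoImplicit false

/-!
Prime ideals of number fields.
-/

namespace Pool.Agent.H13.SIC

open Pool.Agent.H13.Witt Pool.Agent.H13.OddDeg Module NumberField IsDedekindDomain

/-- If conjugation acts trivially modulo `P`, then it is in the inertia group of the valuation
of `P`. -/
theorem inertia_of_prime (K : Subfield ℂ) [NumberField K]
    (hKc : ∀ w ∈ K, (starRingEnd ℂ) w ∈ K) (c : K → K)
    (hc : ∀ a, ((c a : K) : ℂ) = (starRingEnd ℂ) (a : ℂ)) (P : HeightOneSpectrum (𝓞 K))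
    (hP : ∀ a b : 𝓞 K, (((b : K)) : ℂ) = (starRingEnd ℂ) (((a : K)) : ℂ) → b - a ∈ P.asIdeal) :
    ∀ a : K, P.valuation K a ≤ 1 → P.valuation K (c a - a) < 1 := by
  intro a ha
  let C : K →+* K := (starRingEnd ℂ).restrict K K (fun x hx => hKc x hx)
  have hC : ∀ a, C a = c a := fun a => Subtype.ext (by rw [hc]; rfl)
  obtain ⟨n, s, hs⟩ := P.exists_primeCompl_mul_eq_of_integer a ha
  -- the conjugates of integers
  have hint : ∀ r : 𝓞 K, ∃ r' : 𝓞 K, (r' : K) = c (r : K) := by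
    intro r
    have h1 : IsIntegral ℤ (C (r : K)) := map_isIntegral_int C r.2
    rw [hC] at h1
    exact ⟨⟨c (r : K), h1⟩, rfl⟩
  obtain ⟨n', hn'⟩ := hint n
  obtain ⟨s', hs'⟩ := hint (s : 𝓞 K)
  have hn1 : n' - n ∈ P.asIdeal := hP n n' (by rw [hn', hc])
  have hs1 : s' - (s : 𝓞 K) ∈ P.asIdeal := hP s s' (by rw [hs', hc])
  have hsP : (s : 𝓞 K) ∉ P.asIdeal := s.2
  have hs'P : s' ∉ P.asIdeal := by
    intro h
    apply hsP
    have := P.asIdeal.sub_mem h hs1
    rwa [sub_sub_cancel] at this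
  have hs0 : ((s : 𝓞 K) : K) ≠ 0 := by
    intro h0
    apply hsP
    have : (s : 𝓞 K) = 0 := by exact_mod_cast h0
    rw [this]; exact P.asIdeal.zero_mem
  have hs'0 : (s' : K) ≠ 0 := by
    intro h0
    apply hs'P
    have : s' = 0 := by exact_mod_cast h0
    rw [this]; exact P.asIdeal.zero_mem
  have hnum : n' * s - n * s' ∈ P.asIdeal := by
    have : n' * s - n * s' = (n' - n) * s - n * (s' - s) := by ring
    rw [this]
    exact P.asIdeal.sub_mem (P.asIdeal.mul_mem_right _ hn1) (P.asIdeal.mul_mem_left _ hs1)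
  have hca : c a * (s' : K) = (n' : K) := by
    rw [hs', hn', ← hC, ← hC, ← hC, ← map_mul]
    exact congrArg C hs
  have heq : (c a - a) * (((s : 𝓞 K) : K) * (s' : K)) = ((n' * s - n * s' : 𝓞 K) : K) := by
    have h1 : a * ((s : 𝓞 K) : K) = (n : K) := hs
    have h3 : ((n' * s - n * s' : 𝓞 K) : K) = (n' : K) * ((s : 𝓞 K) : K) - (n : K) * (s' : K) := by
      change algebraMap (𝓞 K) K (n' * s - n * s') = algebraMap (𝓞 K) K n' * algebraMap (𝓞 K) K s
        - algebraMap (𝓞 K) K n * algebraMap (𝓞 K) K s'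
      rw [map_sub, map_mul, map_mul]
    rw [h3, ← hca, ← h1]
    ring
  have hv1 : ∀ t : 𝓞 K, t ∉ P.asIdeal → P.valuation K (t : K) = 1 := by
    intro t ht
    exact P.valuation_eq_one_iff_notMem.mpr ht
  have h2 : P.valuation K ((c a - a) * (((s : 𝓞 K) : K) * (s' : K))) < 1 := by
    rw [heq]
    exact (P.valuation_lt_one_iff_mem _).mpr hnum
  rw [map_mul, map_mul, hv1 _ hsP, hv1 _ hs'P, mul_one, mul_one] at h2
  exact h2

end Pool.Agent.H13.SIC
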