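import Mathlib
import Pool.Agent.H13.ETF.Primes

set_option autoImplicit false

/-!
The fields of the `p`-power roots of unity.
-/

namespace Pool.Agent.H13.SIC

open Module NumberField IsDedekindDomain Polynomial

/-- `ℚ(ζ)` as a subfield of `ℂ` -/
noncomputable def cyc (ζ : ℂ) : Subfield ℂ := (IntermediateField.adjoin ℚ {ζ}).toSubfield

theorem mem_cyc {ζ : ℂ} (h : IsIntegral ℚ ζ) {z : ℂ} : z ∈ cyc ζ ↔ z ∈ Algebra.adjoin ℚ {ζ} := by
  rw [← IntermediateField.adjoin_simple_toSubalgebra_of_isAlgebraic h.isAlgebraic]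
  exact Iff.rfl

theorem self_mem_cyc (ζ : ℂ) : ζ ∈ cyc ζ := IntermediateField.mem_adjoin_simple_self ℚ ζ

noncomputable def cycEquiv {ζ : ℂ} (h : IsIntegral ℚ ζ) :
    (Algebra.adjoin ℚ {ζ} : Subalgebra ℚ ℂ) ≃ₐ[ℚ] cyc ζ :=
  AlgEquiv.ofRingEquiv
    (f := { toFun := fun a => ⟨a, (mem_cyc h).mpr a.2⟩
            invFun := fun a => ⟨a, (mem_cyc h).mp a.2⟩
            left_inv := fun a => rfl
            right_inv := fun a => rfl
            map_mul' := fun a b => rfl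
            map_add' := fun a b => rfl })
    (fun r => Subtype.ext (by
      change ((algebraMap ℚ (Algebra.adjoin ℚ {ζ} : Subalgebra ℚ ℂ) r : _) : ℂ)
        = (((algebraMap ℚ (cyc ζ) r : cyc ζ)) : ℂ)
      rw [eq_ratCast (algebraMap ℚ (cyc ζ)) r]
      change (algebraMap ℚ ℂ r : ℂ) = _
      push_cast
      rfl))

theorem cyc_cyclotomic {n : ℕ} [NeZero n] {ζ : ℂ} (h : IsPrimitiveRoot ζ n) :
    IsCyclotomicExtension {n} ℚ (cyc ζ) := by
  have hi : IsIntegral ℚ ζ := (h.isIntegral (NeZero.pos n)).tower_top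
  have := h.adjoin_isCyclotomicExtension ℚ
  exact IsCyclotomicExtension.equiv {n} ℚ _ (cycEquiv hi)

theorem cyclo_val {p : ℕ} [hp : Fact p.Prime] (k : ℕ) {ζ : ℂ} (hζ : IsPrimitiveRoot ζ (p ^ (k + 1))) :
    ∃ v : Valuation (cyc ζ) (WithZero (Multiplicative ℤ)),
      (∀ w ∈ cyc ζ, (starRingEnd ℂ) w ∈ cyc ζ) ∧
      (∀ c : cyc ζ → cyc ζ, (∀ a, ((c a : cyc ζ) : ℂ) = (starRingEnd ℂ) (a : ℂ)) →
        ∀ a, v a ≤ 1 → v (c a - a) < 1) ∧
      ∀ n : ℕ, v (n : cyc ζ) < 1 → p ∣ n := by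
  have : NeZero (p ^ (k + 1)) := ⟨pow_ne_zero _ hp.out.ne_zero⟩
  have := cyc_cyclotomic hζ
  have : NumberField (cyc ζ) := IsCyclotomicExtension.numberField {p ^ (k + 1)} ℚ _
  let z : cyc ζ := ⟨ζ, self_mem_cyc ζ⟩
  have hz : IsPrimitiveRoot z (p ^ (k + 1)) := by
    rw [← IsPrimitiveRoot.coe_submonoidClass_iff]
    exact hζ
  have hi : IsIntegral ℚ ζ := (hζ.isIntegral (NeZero.pos _)).tower_top
  have hpow : ζ ^ (p ^ (k + 1)) = 1 := hζ.pow_eq_one
  have hconjζ : (starRingEnd ℂ) ζ = ζ ^ (p ^ (k + 1) - 1) := by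
    have h1 : ‖ζ‖ = 1 := Complex.norm_eq_one_of_pow_eq_one hpow (NeZero.ne _)
    have h0 : ζ ≠ 0 := by rintro rfl; simp at h1
    have h2 : ζ * (starRingEnd ℂ) ζ = 1 := by
      rw [Complex.mul_conj, Complex.normSq_eq_norm_sq, h1]; norm_num
    have h3 : ζ * ζ ^ (p ^ (k + 1) - 1) = 1 := by
      rw [← pow_succ', Nat.sub_add_cancel (NeZero.one_le), hpow]
    exact mul_left_cancel₀ h0 (h2.trans h3.symm)
  have hKc : ∀ w ∈ cyc ζ, (starRingEnd ℂ) w ∈ cyc ζ := by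
    intro w hw
    rw [mem_cyc hi] at hw ⊢
    induction hw using Algebra.adjoin_induction with
    | mem x hx =>
      rw [Set.mem_singleton_iff] at hx
      rw [hx, hconjζ]
      exact Subalgebra.pow_mem _ (Algebra.self_mem_adjoin_singleton ℚ ζ) _
    | algebraMap r =>
      have : (starRingEnd ℂ) (algebraMap ℚ ℂ r) = algebraMap ℚ ℂ r := by
        simp
      rw [this]
      exact Subalgebra.algebraMap_mem _ r
    | add x y _ _ hx hy => rw [map_add]; exact Subalgebra.add_mem _ hx hy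
    | mul x y _ _ hx hy => rw [map_mul]; exact Subalgebra.mul_mem _ hx hy
  have hprime : Prime (hz.toInteger - 1) := hz.zeta_sub_one_prime
  let P : HeightOneSpectrum (𝓞 (cyc ζ)) :=
    { asIdeal := Ideal.span {hz.toInteger - 1}
      isPrime := (Ideal.span_singleton_prime hprime.ne_zero).mpr hprime
      ne_bot := by rw [Ne, Ideal.span_singleton_eq_bot]; exact hprime.ne_zero }
  have hP1 : hz.toInteger - 1 ∈ P.asIdeal := Ideal.mem_span_singleton_self _
  have hpowP : ∀ m : ℕ, hz.toInteger ^ m - 1 ∈ P.asIdeal := by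
    intro m
    have : hz.toInteger - 1 ∣ hz.toInteger ^ m - 1 := sub_one_dvd_pow_sub_one _ m
    exact Ideal.mem_of_dvd _ this hP1
  -- conjugation is trivial modulo `P`
  have hconj : ∀ a b : 𝓞 (cyc ζ), (((b : cyc ζ)) : ℂ) = (starRingEnd ℂ) (((a : cyc ζ)) : ℂ) →
      b - a ∈ P.asIdeal := by
    have hadj : ∀ w : cyc ζ, w ∈ Algebra.adjoin ℤ ({z} : Set (cyc ζ)) →
        ∃ a b : 𝓞 (cyc ζ), (a : cyc ζ) = w ∧ (((b : cyc ζ)) : ℂ) = (starRingEnd ℂ) (w : ℂ) ∧
          b - a ∈ P.asIdeal := by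
      intro w hw
      induction hw using Algebra.adjoin_induction with
      | mem x hx =>
        rw [Set.mem_singleton_iff] at hx
        refine ⟨hz.toInteger, hz.toInteger ^ (p ^ (k + 1) - 1), by rw [hx]; rfl, ?_, ?_⟩
        · rw [hx]
          change (((algebraMap (𝓞 (cyc ζ)) (cyc ζ)) (hz.toInteger ^ (p ^ (k + 1) - 1)) : cyc ζ) : ℂ)
            = (starRingEnd ℂ) ζ
          rw [map_pow, hconjζ]
          rfl
        · have h1 := P.asIdeal.sub_mem (hpowP (p ^ (k + 1) - 1)) hP1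
          rwa [sub_sub_sub_cancel_right] at h1
      | algebraMap r =>
        refine ⟨algebraMap ℤ _ r, algebraMap ℤ _ r, ?_, ?_, by rw [sub_self]; exact P.asIdeal.zero_mem⟩
        · simp
        · simp
      | add x y _ _ hx hy =>
        obtain ⟨a, b, h1, h2, h3⟩ := hx
        obtain ⟨a', b', h1', h2', h3'⟩ := hy
        refine ⟨a + a', b + b', ?_, ?_, ?_⟩
        · rw [← h1, ← h1']; exact map_add (algebraMap (𝓞 (cyc ζ)) (cyc ζ)) a a'
        · push_cast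
          rw [map_add, ← h2, ← h2']
        · have := P.asIdeal.add_mem h3 h3'
          rwa [sub_add_sub_comm] at this
      | mul x y _ _ hx hy =>
        obtain ⟨a, b, h1, h2, h3⟩ := hx
        obtain ⟨a', b', h1', h2', h3'⟩ := hy
        refine ⟨a * a', b * b', ?_, ?_, ?_⟩
        · rw [← h1, ← h1']; exact map_mul (algebraMap (𝓞 (cyc ζ)) (cyc ζ)) a a'
        · push_cast
          rw [map_mul, ← h2, ← h2']
        · have e : b * b' - a * a' = (b - a) * b' + a * (b' - a') := by ring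
          rw [e]
          exact P.asIdeal.add_mem (P.asIdeal.mul_mem_right _ h3) (P.asIdeal.mul_mem_left _ h3')
    intro a b hab
    have hcl := IsCyclotomicExtension.Rat.isIntegralClosure_adjoin_singleton_of_prime_pow hz
    obtain ⟨y, hy⟩ := hcl.isIntegral_iff.mp a.2
    obtain ⟨a', b', h1, h2, h3⟩ := hadj _ y.2
    have ha : a' = a := by
      apply RingOfIntegers.ext
      rw [h1]
      exact hy
    have hb : b' = b := by
      apply RingOfIntegers.ext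
      apply Subtype.ext
      rw [h2, hab, ← ha, h1]
    rw [← ha, ← hb]
    exact h3
  refine ⟨P.valuation (cyc ζ), hKc, fun c hc => inertia_of_prime (cyc ζ) hKc c hc P hconj, ?_⟩
  intro n hn
  have h1 : ((n : 𝓞 (cyc ζ))) ∈ P.asIdeal := by
    rw [← P.valuation_lt_one_iff_mem (K := cyc ζ)]
    simpa using hn
  have h2 : ((p : ℕ) : 𝓞 (cyc ζ)) ∈ P.asIdeal := by
    have h3 := Polynomial.sub_dvd_eval_sub hz.toInteger 1 (cyclotomic (p ^ (k + 1)) (𝓞 (cyc ζ)))
    rw [Polynomial.eval_one_cyclotomic_prime_pow] at h3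
    have h4 : (cyclotomic (p ^ (k + 1)) (𝓞 (cyc ζ))).eval hz.toInteger = 0 := by
      have h5 : IsPrimitiveRoot hz.toInteger (p ^ (k + 1)) := hz.toInteger_isPrimitiveRoot
      exact h5.isRoot_cyclotomic (NeZero.pos _)
    rw [h4, zero_sub] at h3
    have := Ideal.mem_of_dvd _ h3 hP1
    rwa [neg_mem_iff] at this
  by_contra hcon
  have hcop : Nat.Coprime n p := (Nat.coprime_comm.mp ((Nat.Prime.coprime_iff_not_dvd hp.out).mpr hcon))
  have h3 := (Nat.isCoprime_iff_coprime.mpr hcop)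
  obtain ⟨u, w, huw⟩ := h3
  apply P.isPrime.ne_top
  rw [Ideal.eq_top_iff_one]
  have h4 : (1 : 𝓞 (cyc ζ)) = (u : 𝓞 (cyc ζ)) * (n : 𝓞 (cyc ζ)) + (w : 𝓞 (cyc ζ)) * (p : 𝓞 (cyc ζ)) := by
    exact_mod_cast huw.symm
  rw [h4]
  exact P.asIdeal.add_mem (P.asIdeal.mul_mem_left _ h1) (P.asIdeal.mul_mem_left _ h2)

/-- a primitive root of unity of order `p^(m+1)` -/
noncomputable def zt (p m : ℕ) : ℂ := Complex.exp (2 * Real.pi * Complex.I / ((p ^ (m + 1) : ℕ) : ℂ))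

theorem zt_prim {p : ℕ} (hp : p ≠ 0) (m : ℕ) : IsPrimitiveRoot (zt p m) (p ^ (m + 1)) :=
  Complex.isPrimitiveRoot_exp _ (pow_ne_zero _ hp)

/-- the field generated by the roots of unity of `p`-power order -/
noncomputable def rootField (p : ℕ) : Subfield ℂ := Subfield.closure {z : ℂ | ∃ k, z ^ (p ^ k) = 1}

theorem mem_rootField {p : ℕ} (hp : p ≠ 0) {w : ℂ} (hw : w ∈ rootField p) :
    ∃ k, ∀ m, k ≤ m → w ∈ cyc (zt p m) := by
  unfold rootField at hw
  induction hw using Subfield.closure_induction with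
  | mem x hx =>
    obtain ⟨k, hk⟩ := hx
    refine ⟨k, fun m hm => ?_⟩
    have h1 : x ^ (p ^ (m + 1)) = 1 := by
      have : p ^ (m + 1) = p ^ k * p ^ (m + 1 - k) := by rw [← pow_add]; congr 1; omega
      rw [this, pow_mul, hk, one_pow]
    have : NeZero (p ^ (m + 1)) := ⟨pow_ne_zero _ hp⟩
    obtain ⟨i, _, hi⟩ := (zt_prim hp m).eq_pow_of_pow_eq_one h1
    rw [← hi]
    exact (cyc _).pow_mem (self_mem_cyc _) i
  | one => exact ⟨0, fun m _ => (cyc _).one_mem⟩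
  | add x y _ _ hx hy =>
    obtain ⟨k, hk⟩ := hx
    obtain ⟨l, hl⟩ := hy
    exact ⟨max k l, fun m hm => (cyc _).add_mem (hk m (le_trans (le_max_left _ _) hm))
      (hl m (le_trans (le_max_right _ _) hm))⟩
  | neg x _ hx =>
    obtain ⟨k, hk⟩ := hx
    exact ⟨k, fun m hm => (cyc _).neg_mem (hk m hm)⟩
  | inv x _ hx =>
    obtain ⟨k, hk⟩ := hx
    exact ⟨k, fun m hm => (cyc _).inv_mem (hk m hm)⟩
  | mul x y _ _ hx hy =>
    obtain ⟨k, hk⟩ := hx
    obtain ⟨l, hl⟩ := hy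
    exact ⟨max k l, fun m hm => (cyc _).mul_mem (hk m (le_trans (le_max_left _ _) hm))
      (hl m (le_trans (le_max_right _ _) hm))⟩

theorem mem_rootField_fin {p : ℕ} (hp : p ≠ 0) {ι : Type*} [Fintype ι] {f : ι → ℂ}
    (hf : ∀ i, f i ∈ rootField p) : ∃ m, ∀ i, f i ∈ cyc (zt p m) := by
  choose k hk using fun i => mem_rootField hp (hf i)
  exact ⟨Finset.univ.sup k, fun i => hk i _ (Finset.le_sup (Finset.mem_univ i))⟩

variable {d n : ℕ}

/-- Triple products in the field of the `p`-power roots of unity: `p ∣ d`. -/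
theorem rootField_lines {p : ℕ} (hp : p.Prime) (hd : 1 ≤ d) (hn : d ^ 2 + d + 2 < 2 * n)
    {x : Fin n → EuclideanSpace ℂ (Fin d)} (hx : IsAngle d n x)
    (hK : ∀ i j k, inner ℂ (x i) (x j) * inner ℂ (x j) (x k) * inner ℂ (x k) (x i) ∈ rootField p) :
    p ∣ d := by
  obtain ⟨m, hm⟩ := mem_rootField_fin (ι := Fin n × Fin n × Fin n) hp.ne_zero
    (f := fun t => inner ℂ (x t.1) (x t.2.1) * inner ℂ (x t.2.1) (x t.2.2)
      * inner ℂ (x t.2.2) (x t.1)) (fun t => hK _ _ _)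
  have : Fact p.Prime := ⟨hp⟩
  obtain ⟨v, hKc, hv, hpn⟩ := cyclo_val m (zt_prim hp.ne_zero m)
  apply hpn
  refine not_inertia_lines hd hn hx (cyc (zt p m))
    (fun a => ⟨(starRingEnd ℂ) (a : ℂ), hKc _ a.2⟩) (fun _ => rfl)
    (fun i j k => hm (i, j, k)) v (hv _ (fun _ => rfl))

theorem rootField_two {p : ℕ} (hp : p.Prime) (hd : 3 ≤ d) (hd4 : d % 4 = 2)
    {x : Fin (d ^ 2) → EuclideanSpace ℂ (Fin d)} (hx : IsMaxETF d x)
    (hK : ∀ i j k, inner ℂ (x i) (x j) * inner ℂ (x j) (x k) * inner ℂ (x k) (x i) ∈ rootField p) :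
    False := by
  obtain ⟨m, hm⟩ := mem_rootField_fin (ι := Fin (d ^ 2) × Fin (d ^ 2) × Fin (d ^ 2)) hp.ne_zero
    (f := fun t => inner ℂ (x t.1) (x t.2.1) * inner ℂ (x t.2.1) (x t.2.2)
      * inner ℂ (x t.2.2) (x t.1)) (fun t => hK _ _ _)
  have : Fact p.Prime := ⟨hp⟩
  obtain ⟨v, hKc, hv, hpn⟩ := cyclo_val m (zt_prim hp.ne_zero m)
  exact no_inertia2 hd hd4 hx (cyc (zt p m))
    (fun a => ⟨(starRingEnd ℂ) (a : ℂ), hKc _ a.2⟩) (fun _ => rfl)
    (fun i j k => hm (i, j, k)) v (hv _ (fun _ => rfl))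

end Pool.Agent.H13.SIC
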