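import Mathlib
import Pool.Agent.H13.ETF.Unram

set_option autoImplicit false

/-!
Extension of a valuation of the real subfield with a new value.
-/

namespace Pool.Agent.H13.SIC

open Pool.Agent.H13.Witt Module

/-- If `iρ ∈ K` and the value of `ρ²` is not the value of a square, then `v` has an extension to `K`
(its square) for which complex conjugation is in the inertia group. -/
theorem exists_ext (K : Subfield ℂ)
    (hKc : ∀ w ∈ K, (starRingEnd ℂ) w ∈ K)
    {ρ : ℝ} (hρ0 : ρ ≠ 0) (hρ : (ρ : ℂ) * Complex.I ∈ K) (δ : Fr K) (hδ : (δ : ℝ) = ρ ^ 2)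
    {Γ : Type*} [LinearOrderedCommGroupWithZero Γ] (v : Valuation (Fr K) Γ)
    (hv : ∀ f : Fr K, v δ ≠ v f ^ 2) : ∃ V : Valuation K Γ,
      (∀ c : K → K, (∀ a, ((c a : K) : ℂ) = (starRingEnd ℂ) (a : ℂ)) →
        ∀ a, V a ≤ 1 → V (c a - a) < 1) ∧ ∀ n : ℕ, V (n : K) = v (n : Fr K) ^ 2 := by
  classical
  let N : K → Fr K := fun z => ⟨Complex.normSq (z : ℂ), normSq_mem hKc z⟩
  let A : K → Fr K := fun z => ⟨(z : ℂ).re, re_mem hKc z.2⟩
  let B : K → Fr K := fun z => ⟨(z : ℂ).im / ρ, im_mem hKc hρ0 hρ z.2⟩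
  have hN : ∀ z, N z = A z ^ 2 + B z ^ 2 * δ := by
    intro z
    apply Subtype.ext
    push_cast
    rw [hδ]
    change Complex.normSq (z : ℂ) = (z : ℂ).re ^ 2 + ((z : ℂ).im / ρ) ^ 2 * ρ ^ 2
    rw [Complex.normSq_apply]
    field_simp
  have hA : ∀ z w, A (z + w) = A z + A w := fun z w => Subtype.ext (by
    change ((z + w : K) : ℂ).re = (z : ℂ).re + (w : ℂ).re
    push_cast
    rw [Complex.add_re])
  have hB : ∀ z w, B (z + w) = B z + B w := fun z w => Subtype.ext (by
    change ((z + w : K) : ℂ).im / ρ = (z : ℂ).im / ρ + (w : ℂ).im / ρ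
    push_cast
    rw [Complex.add_im]
    ring)
  have hNv : ∀ z, v (N z) = max (v (A z) ^ 2) (v (B z) ^ 2 * v δ) := by
    intro z
    have hne : v (A z ^ 2) ≠ v (B z ^ 2 * δ) ∨ B z = 0 := by
      by_cases hb : B z = 0
      · exact Or.inr hb
      · left
        intro h
        apply hv (A z / B z)
        rw [map_div₀, div_pow, eq_div_iff (pow_ne_zero 2 ((Valuation.ne_zero_iff v).mpr hb)),
          ← map_pow v (A z), h, map_mul, map_pow, mul_comm]
    rw [hN]
    rcases hne with h | h
    · rcases lt_or_gt_of_ne h with h1 | h1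
      · rw [Valuation.map_add_eq_of_lt_right v h1, map_mul, map_pow]
        rw [max_eq_right]
        rw [map_pow, map_mul, map_pow] at h1
        exact h1.le
      · rw [Valuation.map_add_eq_of_lt_left v h1, map_pow]
        rw [max_eq_left]
        rw [map_pow, map_mul, map_pow] at h1
        exact h1.le
    · rw [h]
      simp
  let V : Valuation K Γ :=
    { toFun := fun z => v (N z)
      map_zero' := by
        have : N 0 = 0 := Subtype.ext (by
          change Complex.normSq ((0 : K) : ℂ) = 0
          simp)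
        rw [this, map_zero]
      map_one' := by
        have : N 1 = 1 := Subtype.ext (by
          change Complex.normSq ((1 : K) : ℂ) = 1
          simp)
        rw [this, map_one]
      map_mul' := fun z w => by
        have : N (z * w) = N z * N w := Subtype.ext (by
          change Complex.normSq ((z * w : K) : ℂ) = Complex.normSq (z : ℂ) * Complex.normSq (w : ℂ)
          push_cast
          rw [Complex.normSq_mul])
        rw [this, map_mul]
      map_add_le_max' := fun z w => by
        change v (N (z + w)) ≤ max (v (N z)) (v (N w))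
        rw [hNv (z + w), hA, hB]
        have h1 : v (A z) ^ 2 ≤ v (N z) := by rw [hNv]; exact le_max_left _ _
        have h2 : v (B z) ^ 2 * v δ ≤ v (N z) := by rw [hNv]; exact le_max_right _ _
        have h3 : v (A w) ^ 2 ≤ v (N w) := by rw [hNv]; exact le_max_left _ _
        have h4 : v (B w) ^ 2 * v δ ≤ v (N w) := by rw [hNv]; exact le_max_right _ _
        apply max_le
        · rcases le_total (v (A z)) (v (A w)) with h | h
          · have h5 : v (A z + A w) ≤ v (A w) := v.map_add_le h le_rfl
            exact le_max_of_le_right ((pow_le_pow_left₀ zero_le h5 2).trans h3)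
          · have h5 : v (A z + A w) ≤ v (A z) := v.map_add_le le_rfl h
            exact le_max_of_le_left ((pow_le_pow_left₀ zero_le h5 2).trans h1)
        · rcases le_total (v (B z)) (v (B w)) with h | h
          · have h5 : v (B z + B w) ≤ v (B w) := v.map_add_le h le_rfl
            exact le_max_of_le_right ((mul_le_mul' (pow_le_pow_left₀ zero_le h5 2) le_rfl).trans h4)
          · have h5 : v (B z + B w) ≤ v (B z) := v.map_add_le le_rfl h
            exact le_max_of_le_left ((mul_le_mul' (pow_le_pow_left₀ zero_le h5 2) le_rfl).trans h2) }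
  have hV : ∀ z, V z = v (N z) := fun z => rfl
  let c : K → K := fun z => ⟨(starRingEnd ℂ) (z : ℂ), hKc _ z.2⟩
  have hin : ∀ a, V a ≤ 1 → V (c a - a) < 1 := by
    intro a ha
    rw [hV, hNv]
    have hAc : A (c a - a) = 0 := Subtype.ext (by
      change ((c a - a : K) : ℂ).re = 0
      push_cast
      change ((starRingEnd ℂ) (a : ℂ) - (a : ℂ)).re = 0
      simp)
    have hBc : B (c a - a) = - (2 * B a) := Subtype.ext (by
      change ((c a - a : K) : ℂ).im / ρ = - (2 * ((a : ℂ).im / ρ))
      push_cast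
      change ((starRingEnd ℂ) (a : ℂ) - (a : ℂ)).im / ρ = - (2 * ((a : ℂ).im / ρ))
      rw [Complex.sub_im, Complex.conj_im]
      ring)
    rw [hAc, hBc, Valuation.map_neg, map_zero, zero_pow two_ne_zero]
    rw [max_eq_right zero_le]
    have h2 : v (B a) ^ 2 * v δ ≤ 1 := by
      rw [hV, hNv] at ha
      exact (le_max_right _ _).trans ha
    have h3 : v (2 : Fr K) ≤ 1 := by
      have : (2 : Fr K) = 1 + 1 := by norm_num
      rw [this]
      exact v.map_add_le (by simp) (by simp)
    have h4 : v (2 * B a) ^ 2 * v δ ≤ 1 := by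
      rw [map_mul, mul_pow, mul_assoc]
      calc v (2 : Fr K) ^ 2 * (v (B a) ^ 2 * v δ) ≤ 1 * 1 :=
            mul_le_mul' (pow_le_one₀ zero_le h3) h2
        _ = 1 := one_mul 1
    refine lt_of_le_of_ne h4 fun h5 => ?_
    have h6 : v (2 * B a) ≠ 0 := by
      intro h0
      rw [h0, zero_pow two_ne_zero, zero_mul] at h5
      exact zero_ne_one h5
    apply hv (1 / (2 * B a))
    rw [map_div₀, map_one, div_pow, one_pow, eq_div_iff (pow_ne_zero 2 h6), mul_comm]
    exact h5
  refine ⟨V, fun c' hc' => ?_, fun n => ?_⟩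
  · have : c' = c := funext fun a => Subtype.ext (hc' a)
    rw [this]
    exact hin
  · have h2 : N ((n : ℕ) : K) = (n : Fr K) ^ 2 := Subtype.ext (by
      change Complex.normSq (((n : ℕ) : K) : ℂ) = (((n : ℕ) : Fr K) ^ 2 : Fr K)
      push_cast
      rw [Complex.normSq_natCast, sq])
    rw [hV, h2, map_pow]

theorem cc_triple_lines {d n : ℕ} {x : Fin n → EuclideanSpace ℂ (Fin d)} {K : Subfield ℂ}
    (hK : ∀ i j k, inner ℂ (x i) (x j) * inner ℂ (x j) (x k) * inner ℂ (x k) (x i) ∈ K) :
    ∀ i j k, inner ℂ (x i) (x j) * inner ℂ (x j) (x k) * inner ℂ (x k) (x i) ∈ cc K := by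
  intro i j k
  rw [mem_cc]
  refine ⟨hK i j k, ?_⟩
  rw [map_mul, map_mul, inner_conj_symm, inner_conj_symm, inner_conj_symm]
  have := hK i k j
  have e : inner ℂ (x j) (x i) * inner ℂ (x k) (x j) * inner ℂ (x i) (x k)
      = inner ℂ (x i) (x k) * inner ℂ (x k) (x j) * inner ℂ (x j) (x i) := by ring
  rw [e]
  exact this

end Pool.Agent.H13.SIC
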