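import Mathlib
import Pool.Agent.H13.ETF.Final

set_option autoImplicit false

/-!
Local degrees: binary forms and valuations in extensions of odd ramification index and odd inertia
degree.
-/

namespace Pool.Agent.H13.Local

open IsDedekindDomain Module WithZero

section

variable {B L : Type*} [CommRing B] [IsDedekindDomain B] [Field L] [Algebra B L] [IsFractionRing B L]

theorem sqval (w : HeightOneSpectrum B) (c : B)
    (hc : ¬ IsSquare (Ideal.Quotient.mk w.asIdeal (-c))) (a b : L) :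
    ∃ g : L, w.valuation L (a ^ 2 + algebraMap B L c * b ^ 2) = w.valuation L g ^ 2 := by
  by_cases hb : b = 0
  · exact ⟨a, by rw [hb]; simp⟩
  have hcw : c ∉ w.asIdeal := by
    intro h
    apply hc
    rw [Ideal.Quotient.eq_zero_iff_mem.mpr (w.asIdeal.neg_mem h)]
    exact ⟨0, by simp⟩
  have hc1 : w.valuation L (algebraMap B L c) = 1 := w.valuation_eq_one_iff_notMem.mpr hcw
  set t := a / b with ht
  have hab : a ^ 2 + algebraMap B L c * b ^ 2 = b ^ 2 * (t ^ 2 + algebraMap B L c) := by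
    rw [ht]; field_simp
  rw [hab, map_mul, map_pow]
  rcases lt_trichotomy (w.valuation L t) 1 with h | h | h
  · refine ⟨b, ?_⟩
    have h1 : w.valuation L (t ^ 2) < w.valuation L (algebraMap B L c) := by
      rw [hc1, map_pow]
      exact pow_lt_one₀ zero_le h two_ne_zero
    rw [Valuation.map_add_eq_of_lt_right _ h1, hc1, mul_one]
  · refine ⟨b, ?_⟩
    suffices h1 : w.valuation L (t ^ 2 + algebraMap B L c) = 1 by rw [h1, mul_one]
    by_contra hne
    have hle : w.valuation L (t ^ 2 + algebraMap B L c) ≤ 1 :=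
      Valuation.map_add_le _ (by rw [map_pow, h, one_pow]) hc1.le
    have hlt := lt_of_le_of_ne hle hne
    obtain ⟨n, s, hns⟩ := w.exists_primeCompl_mul_eq_of_integer t h.le
    have hs : (s : B) ∉ w.asIdeal := s.2
    apply hc
    have h2 : n ^ 2 + c * (s : B) ^ 2 ∈ w.asIdeal := by
      rw [← w.valuation_lt_one_iff_mem (K := L)]
      have h3 : algebraMap B L (n ^ 2 + c * (s : B) ^ 2)
          = (algebraMap B L (s : B)) ^ 2 * (t ^ 2 + algebraMap B L c) := by
        rw [map_add, map_pow, map_mul, map_pow, ← hns]; ring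
      change w.valuation L (algebraMap B L (n ^ 2 + c * (s : B) ^ 2)) < 1
      rw [h3, map_mul, map_pow, w.valuation_eq_one_iff_notMem.mpr hs, one_pow, one_mul]
      exact hlt
    have : w.asIdeal.IsMaximal := w.isPrime.isMaximal w.ne_bot
    let _ : Field (B ⧸ w.asIdeal) := Ideal.Quotient.field _
    have hs0 : Ideal.Quotient.mk w.asIdeal (s : B) ≠ 0 := by
      rwa [Ne, Ideal.Quotient.eq_zero_iff_mem]
    refine ⟨Ideal.Quotient.mk w.asIdeal n / Ideal.Quotient.mk w.asIdeal (s : B), ?_⟩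
    rw [div_mul_div_comm, eq_div_iff (mul_ne_zero hs0 hs0), ← map_mul, ← map_mul, ← map_mul,
      ← sub_eq_zero, ← map_sub, Ideal.Quotient.eq_zero_iff_mem]
    have h4 : -c * ((s : B) * (s : B)) - n * n = -(n ^ 2 + c * (s : B) ^ 2) := by ring
    rw [h4]
    exact w.asIdeal.neg_mem h2
  · refine ⟨b * t, ?_⟩
    have h1 : w.valuation L (algebraMap B L c) < w.valuation L (t ^ 2) := by
      rw [hc1, map_pow]
      exact one_lt_pow₀ h two_ne_zero
    rw [Valuation.map_add_eq_of_lt_left _ h1, map_mul, mul_pow, map_pow]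

end

section

variable {A K₀ B L : Type*} [CommRing A] [IsDedekindDomain A] [CommRing B] [IsDedekindDomain B]
  [Algebra A B] [Module.IsTorsionFree A B]
  [Field K₀] [Field L] [Algebra K₀ L]
  [Algebra A K₀] [IsFractionRing A K₀] [Algebra A L] [IsScalarTower A K₀ L]
  [Algebra B L] [IsFractionRing B L] [IsScalarTower A B L]
  (v : HeightOneSpectrum A) (w : HeightOneSpectrum B) [w.asIdeal.LiesOver v.asIdeal]

theorem not_sqval {m : K₀} {n : ℕ} (hm : v.valuation K₀ m = exp (-(n : ℤ))) (hn : Odd n)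
    (he : Odd (w.asIdeal.ramificationIdx A)) (g : L) :
    w.valuation L (algebraMap K₀ L m) ≠ w.valuation L g ^ 2 := by
  intro h
  rw [← HeightOneSpectrum.valuation_liesOver L v w,
    Ideal.ramificationIdx'_eq_ramificationIdx v.asIdeal w.asIdeal v.ne_bot, hm] at h
  have hg0 : w.valuation L g ≠ 0 := by
    intro h0
    rw [h0, zero_pow two_ne_zero] at h
    exact absurd (pow_eq_zero_iff (by
      rintro h1
      rw [h1] at he
      exact absurd he (by decide)) |>.mp h) exp_ne_zero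
  obtain ⟨k, hk⟩ : ∃ k : ℤ, w.valuation L g = exp k :=
    ⟨log (w.valuation L g), (exp_log hg0).symm⟩
  rw [hk, ← exp_nsmul, ← exp_nsmul] at h
  have h3 := exp_injective h
  simp only [nsmul_eq_mul] at h3
  push_cast at h3
  obtain ⟨n', hn'⟩ := hn
  obtain ⟨e', he'⟩ := he
  rw [hn', he'] at h3
  push_cast at h3
  have : (2 : ℤ) ∣ 1 := ⟨-(k + 2 * e' * n' + e' + n'), by linear_combination -h3⟩
  omega

omit [Module.IsTorsionFree A B] in
theorem nonresidue {c : A} (hc : ¬ IsSquare (Ideal.Quotient.mk v.asIdeal (-c)))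
    (hf : Odd (w.asIdeal.inertiaDeg A)) :
    ¬ IsSquare (Ideal.Quotient.mk w.asIdeal (-(algebraMap A B c))) := by
  have : w.asIdeal.IsMaximal := w.isPrime.isMaximal w.ne_bot
  have : v.asIdeal.IsMaximal := v.isPrime.isMaximal v.ne_bot
  let _ : Field (A ⧸ v.asIdeal) := Ideal.Quotient.field _
  let _ : Field (B ⧸ w.asIdeal) := Ideal.Quotient.field _
  rw [Ideal.inertiaDeg_eq_of_isMaximal v.asIdeal w.asIdeal] at hf
  have : FiniteDimensional (A ⧸ v.asIdeal) (B ⧸ w.asIdeal) :=
    FiniteDimensional.of_finrank_pos hf.pos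
  rintro ⟨s, hs⟩
  apply hc
  set k : A ⧸ v.asIdeal := Ideal.Quotient.mk v.asIdeal (-c) with hk
  by_cases hk0 : k = 0
  · rw [hk0]; exact ⟨0, by simp⟩
  obtain ⟨u, t, hut⟩ := Pool.Agent.H13.OddDeg.odd_norm hf (0 : A ⧸ v.asIdeal) k hk0 s 0 (by
    rw [hk, map_zero, zero_mul, add_zero, sq, ← hs]
    change Ideal.Quotient.mk w.asIdeal (algebraMap A B (-c)) = _
    rw [map_neg])
  exact ⟨u, by rw [hut]; ring⟩

variable {p : ℕ} [hp : Fact p.Prime]

omit [Algebra A B] [Module.IsTorsionFree A B] [w.asIdeal.LiesOver v.asIdeal] in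
theorem val_nat (hv : v.asIdeal = Ideal.span {(p : A)}) (ψ : A →+* ZMod p) (hp0 : (p : A) ≠ 0)
    (m : ℕ) (hm : m ≠ 0) : v.valuation K₀ (m : K₀) = exp (-(m.factorization p : ℤ)) := by
  obtain ⟨n, m', hpm, hmm⟩ : ∃ n m' : ℕ, ¬ p ∣ m' ∧ m = p ^ n * m' := by
    obtain ⟨n, m', h1, h2⟩ := Nat.exists_eq_pow_mul_and_not_dvd hm p hp.out.ne_one
    exact ⟨n, m', h1, h2⟩
  have hm'0 : m' ≠ 0 := by rintro rfl; exact hpm (dvd_zero _)
  have hfac : m.factorization p = n := by
    rw [hmm, Nat.factorization_mul (pow_ne_zero _ hp.out.ne_zero) hm'0, Finsupp.add_apply,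
      hp.out.factorization_pow, Finsupp.single_eq_same, Nat.factorization_eq_zero_of_not_dvd hpm,
      add_zero]
  have hvp : v.valuation K₀ (p : K₀) = exp (-(1 : ℤ)) := by
    have h1 : v.valuation K₀ (algebraMap A K₀ (p : A)) = v.intValuation (p : A) :=
      v.valuation_of_algebraMap _
    rw [map_natCast] at h1
    rw [h1, v.intValuation_singleton hp0 hv]
  have hvm : v.valuation K₀ (m' : K₀) = 1 := by
    have h1 : v.valuation K₀ (algebraMap A K₀ (m' : A)) = 1 := by
      rw [v.valuation_eq_one_iff_notMem, hv, Ideal.mem_span_singleton]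
      rintro ⟨a, ha⟩
      have h2 := congrArg ψ ha
      rw [map_natCast, map_mul, map_natCast, ZMod.natCast_self, zero_mul,
        ZMod.natCast_eq_zero_iff] at h2
      exact hpm h2
    rwa [map_natCast] at h1
  rw [hfac, hmm]
  push_cast
  rw [map_mul, map_pow, hvp, hvm, mul_one, ← exp_nsmul]
  simp

omit [IsDedekindDomain A] in
theorem nonres_zmod (hv : v.asIdeal = Ideal.span {(p : A)}) (ψ : A →+* ZMod p) {c : A}
    (hc : ¬ IsSquare (ψ (-c))) : ¬ IsSquare (Ideal.Quotient.mk v.asIdeal (-c)) := by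
  rintro ⟨s, hs⟩
  apply hc
  obtain ⟨s, rfl⟩ := Ideal.Quotient.mk_surjective s
  rw [← map_mul, Ideal.Quotient.eq, hv, Ideal.mem_span_singleton] at hs
  obtain ⟨a, ha⟩ := hs
  refine ⟨ψ s, ?_⟩
  have h2 := congrArg ψ ha
  rw [map_sub, map_mul, map_mul, map_natCast, ZMod.natCast_self, zero_mul, sub_eq_zero] at h2
  exact h2

end

end Pool.Agent.H13.Local
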