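import Mathlib
import Pool.Agent.H13.ETF.Local

set_option autoImplicit false

/-!
Local degrees of the real subfield of the field of the triple products.
-/

namespace Pool.Agent.H13.SIC

open IsDedekindDomain Module WithZero Pool.Agent.H13.Local

variable {d : ℕ} {x : Fin (d ^ 2) → EuclideanSpace ℂ (Fin d)}

/-- the primes at which the local degrees of the real subfield are even. -/
def Bad (d p : ℕ) : Prop :=
  (d % 2 = 0 ∧ Odd ((d + 1).factorization p)) ∨ (d % 4 = 1 ∧ Odd (d.factorization p)) ∨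
    (d % 8 = 3 ∧ Odd (d.factorization p) ∧ (p % 8 = 5 ∨ p % 8 = 7)) ∨
    (d % 8 = 7 ∧ Odd (d.factorization p) ∧ (p % 8 = 3 ∨ p % 8 = 5))

/-- facts on the real subfield. -/
theorem facts (hd3 : 3 ≤ d) (hx : IsMaxETF d x) (K : Subfield ℂ)
    (hK : ∀ i j k, inner ℂ (x i) (x j) * inner ℂ (x j) (x k) * inner ℂ (x k) (x i) ∈ K) :
    (d % 4 = 1 → IsSquare ((d : ℕ) : Fr K)) ∧ (d % 4 = 0 → IsSquare ((d + 1 : ℕ) : Fr K)) ∧
    (d % 8 = 3 → ∃ a b : Fr K, (d : Fr K) = a ^ 2 + 2 * b ^ 2) ∧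
    (d % 8 = 7 → ∃ a b : Fr K, (d : Fr K) = a ^ 2 - 2 * b ^ 2) := by
  refine ⟨fun h => sqrt_mem1 (by omega) h hx K hK, fun h => sqrt_mem0 (by omega) h hx K hK,
    fun h => ?_, fun h => ?_⟩
  · have h1 := main3 h hx (cc K) (cc_conj K) (cc_triple hK)
      (sqrt_mem3 (by omega) hx (cc K) (cc_triple hK))
    rwa [Fr_cc] at h1
  · have h1 := main7 h hx (cc K) (cc_conj K) (cc_triple hK)
      (sqrt_mem3 (by omega) hx (cc K) (cc_triple hK))
    rwa [Fr_cc] at h1

theorem square_val' (hd3 : 3 ≤ d) (hd : d % 4 = 2) (hx : IsMaxETF d x) (K : Subfield ℂ)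
    (hK : ∀ i j k, inner ℂ (x i) (x j) * inner ℂ (x j) (x k) * inner ℂ (x k) (x i) ∈ K)
    {Γ : Type*} [LinearOrderedCommGroupWithZero Γ] (v : Valuation (Fr K) Γ) :
    ∃ f : Fr K, v ((d + 1 : ℕ) : Fr K) = v f ^ 2 := by
  have h1 := fun (v : Valuation (Fr (cc K)) Γ) =>
    square_val hd3 hd hx (cc K) (cc_conj K) (cc_triple hK) v
  rw [Fr_cc] at h1
  exact h1 v

section

variable {A B L : Type*} (K₀ : Type*) [CommRing A] [IsDedekindDomain A] [CommRing B] [IsDedekindDomain B]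
  [Algebra A B] [Module.IsTorsionFree A B]
  [Field K₀] [Field L] [Algebra K₀ L]
  [Algebra A K₀] [IsFractionRing A K₀] [Algebra A L] [IsScalarTower A K₀ L]
  [Algebra B L] [IsFractionRing B L] [IsScalarTower A B L]
  (v : HeightOneSpectrum A) (w : HeightOneSpectrum B) [w.asIdeal.LiesOver v.asIdeal]
  {p : ℕ} [hp : Fact p.Prime]

include K₀ in
theorem obstruct (hd3 : 3 ≤ d) (hx : IsMaxETF d x) (K : Subfield ℂ)
    (hK : ∀ i j k, inner ℂ (x i) (x j) * inner ℂ (x j) (x k) * inner ℂ (x k) (x i) ∈ K)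
    (hbad : Bad d p) (hv : v.asIdeal = Ideal.span {(p : A)}) (ψ : A →+* ZMod p)
    (hp0 : (p : A) ≠ 0) (φ : Fr K →+* L) (he : Odd (w.asIdeal.ramificationIdx A))
    (hf : d % 4 = 3 → Odd (w.asIdeal.inertiaDeg A)) : False := by
  obtain ⟨f1, f0, f3, f7⟩ := facts hd3 hx K hK
  have key : ∀ m : ℕ, m ≠ 0 → Odd (m.factorization p) → ∀ g : L,
      w.valuation L (m : L) ≠ w.valuation L g ^ 2 := by
    intro m hm hodd g
    have h1 := not_sqval (K₀ := K₀) (L := L) v w (val_nat (K₀ := K₀) v hv ψ hp0 m hm) hodd he g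
    rwa [map_natCast] at h1
  have key2 : ∀ (m : ℕ) (c : ℤ), m ≠ 0 → Odd (m.factorization p) → d % 4 = 3 →
      ¬ IsSquare ((-c : ℤ) : ZMod p) → ∀ a b : L, (m : L) ≠ a ^ 2 + (c : L) * b ^ 2 := by
    intro m c hm hodd h4 hc a b hab
    have h1 : ¬ IsSquare (ψ (-(c : A))) := by
      rw [map_neg, map_intCast]
      simpa using hc
    have h2 := nonresidue v w (nonres_zmod v hv ψ h1) (hf h4)
    obtain ⟨g, hg⟩ := sqval (L := L) w (algebraMap A B (c : A)) h2 a b
    rw [map_intCast, map_intCast, ← hab] at hg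
    exact key m hm hodd g hg
  rcases hbad with ⟨h, hodd⟩ | ⟨h, hodd⟩ | ⟨h, hodd, hp8⟩ | ⟨h, hodd, hp8⟩
  · have h4 : d % 4 = 0 ∨ d % 4 = 2 := by omega
    rcases h4 with h4 | h4
    · obtain ⟨s, hs⟩ := f0 h4
      refine key (d + 1) (Nat.succ_ne_zero d) hodd (φ s) ?_
      rw [← map_natCast φ, hs, map_mul, map_mul, sq]
    · obtain ⟨f, hf⟩ := square_val' hd3 h4 hx K hK ((w.valuation L).comap φ)
      refine key (d + 1) (Nat.succ_ne_zero d) hodd (φ f) ?_
      rw [Valuation.comap_apply, Valuation.comap_apply, map_natCast] at hf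
      exact hf
  · obtain ⟨s, hs⟩ := f1 h
    refine key d (by omega) hodd (φ s) ?_
    rw [← map_natCast φ, hs, map_mul, map_mul, sq]
  · have hp2 : p ≠ 2 := by rintro rfl; omega
    obtain ⟨a, b, hab⟩ := f3 h
    refine key2 d 2 (by omega) hodd (by omega) ?_ (φ a) (φ b) ?_
    · have : ((-(2 : ℤ) : ℤ) : ZMod p) = -2 := by push_cast; ring
      rw [this, ZMod.exists_sq_eq_neg_two_iff hp2]
      omega
    · rw [← map_natCast φ, hab, map_add, map_mul, map_pow, map_pow]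
      have h2 : φ 2 = 2 := map_ofNat φ 2
      rw [h2]
      push_cast
      rfl
  · have hp2 : p ≠ 2 := by rintro rfl; omega
    obtain ⟨a, b, hab⟩ := f7 h
    refine key2 d (-2) (by omega) hodd (by omega) ?_ (φ a) (φ b) ?_
    · have : ((-(-2 : ℤ) : ℤ) : ZMod p) = 2 := by push_cast; ring
      rw [this, ZMod.exists_sq_eq_two_iff hp2]
      omega
    · rw [← map_natCast φ, hab, map_sub, map_mul, map_pow, map_pow]
      have h2 : φ 2 = 2 := map_ofNat φ 2
      rw [h2]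
      push_cast
      ring

end

end Pool.Agent.H13.SIC
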