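import Mathlib
import Pool.Agent.H13.ETF.Local2

set_option autoImplicit false

namespace Pool.Agent.H13.SIC

open IsDedekindDomain Module WithZero Pool.Agent.H13.Local NumberField

variable {d : ℕ} {x : Fin (d ^ 2) → EuclideanSpace ℂ (Fin d)} {p : ℕ} [hp : Fact p.Prime]

theorem local_number_field (hd3 : 3 ≤ d) (hx : IsMaxETF d x) (K : Subfield ℂ)
    (hK : ∀ i j k, inner ℂ (x i) (x j) * inner ℂ (x j) (x k) * inner ℂ (x k) (x i) ∈ K)
    (hbad : Bad d p) [NumberField (Fr K)] (P : Ideal (𝓞 (Fr K))) (hP : P.IsPrime)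
    (hpP : (p : 𝓞 (Fr K)) ∈ P) (he : Odd (P.ramificationIdx ℤ))
    (hf : d % 4 = 3 → Odd (P.inertiaDeg ℤ)) : False := by
  have hpZ : Prime (p : ℤ) := Nat.prime_iff_prime_int.mp hp.out
  have hspan : (Ideal.span {(p : ℤ)}).IsPrime := (Ideal.span_singleton_prime hpZ.ne_zero).mpr hpZ
  have hspan0 : Ideal.span {(p : ℤ)} ≠ ⊥ := by
    rw [Ne, Ideal.span_singleton_eq_bot]; exact hpZ.ne_zero
  have hmax : (Ideal.span {(p : ℤ)}).IsMaximal := hspan.isMaximal hspan0
  have hP0 : P ≠ ⊥ := by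
    rintro rfl
    rw [Ideal.mem_bot] at hpP
    exact hp.out.ne_zero (by exact_mod_cast hpP)
  let v : HeightOneSpectrum ℤ := ⟨_, hspan, hspan0⟩
  let w : HeightOneSpectrum (𝓞 (Fr K)) := ⟨P, hP, hP0⟩
  have hover : w.asIdeal.LiesOver v.asIdeal := by
    constructor
    refine (hmax.eq_of_le ?_ ?_)
    · exact (Ideal.IsPrime.under ℤ P).ne_top
    · rw [Ideal.span_le, Set.singleton_subset_iff]
      change algebraMap ℤ (𝓞 (Fr K)) (p : ℤ) ∈ P
      simpa using hpP
  exact obstruct (A := ℤ) ℚ v w hd3 hx K hK hbad rfl (Int.castRingHom (ZMod p)) hpZ.ne_zero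
    (RingHom.id _) he hf

theorem local_embedding (hd3 : 3 ≤ d) (hx : IsMaxETF d x) (K : Subfield ℂ)
    (hK : ∀ i j k, inner ℂ (x i) (x j) * inner ℂ (x j) (x k) * inner ℂ (x k) (x i) ∈ K)
    (hbad : Bad d p) (L : Type*) [Field L] [Algebra ℚ_[p] L] [FiniteDimensional ℚ_[p] L]
    (hodd : Odd (finrank ℚ_[p] L)) (φ : Fr K →+* L) : False := by
  classical
  let _ : Algebra ℤ_[p] L := ((algebraMap ℚ_[p] L).comp (algebraMap ℤ_[p] ℚ_[p])).toAlgebra
  have : IsScalarTower ℤ_[p] ℚ_[p] L := IsScalarTower.of_algebraMap_eq' rfl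
  let B := integralClosure ℤ_[p] L
  have : CharZero L := charZero_of_injective_algebraMap (algebraMap ℚ_[p] L).injective
  have : IsDedekindDomain B := integralClosure.isDedekindDomain ℤ_[p] ℚ_[p] L
  have : IsFractionRing B L := integralClosure.isFractionRing_of_finite_extension ℚ_[p] L
  have : Module.Finite ℤ_[p] B := IsIntegralClosure.finite ℤ_[p] ℚ_[p] L B
  have hinj : Function.Injective (algebraMap ℤ_[p] L) := by
    rw [IsScalarTower.algebraMap_eq ℤ_[p] ℚ_[p] L]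
    exact (algebraMap ℚ_[p] L).injective.comp (IsFractionRing.injective ℤ_[p] ℚ_[p])
  have : FaithfulSMul ℤ_[p] L := (faithfulSMul_iff_algebraMap_injective _ _).mpr hinj
  have : Module.IsTorsionFree ℤ_[p] L := inferInstance
  have hinjB : Function.Injective (algebraMap ℤ_[p] B) := by
    intro a b hab
    apply hinj
    rw [IsScalarTower.algebraMap_apply ℤ_[p] B L, IsScalarTower.algebraMap_apply ℤ_[p] B L, hab]
  have : FaithfulSMul ℤ_[p] B := (faithfulSMul_iff_algebraMap_injective _ _).mpr hinjB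
  have : Module.IsTorsionFree ℤ_[p] B := inferInstance
  have hp0 : (p : ℤ_[p]) ≠ 0 := by exact_mod_cast hp.out.ne_zero
  have hspan : (Ideal.span {(p : ℤ_[p])}).IsPrime :=
    (Ideal.span_singleton_prime hp0).mpr PadicInt.prime_p
  have hspan0 : Ideal.span {(p : ℤ_[p])} ≠ ⊥ := by
    rw [Ne, Ideal.span_singleton_eq_bot]; exact hp0
  let v : HeightOneSpectrum ℤ_[p] := ⟨_, hspan, hspan0⟩
  have hvmax : v.asIdeal.IsMaximal := hspan.isMaximal hspan0
  have : Fintype (v.asIdeal.primesOver B) :=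
    (IsDedekindDomain.primesOver_finite v.asIdeal B).fintype
  have hsum := Ideal.sum_ramification_inertia_eq_finrank v.asIdeal B
  have hrank : finrank ℤ_[p] B = finrank ℚ_[p] L := IsIntegralClosure.rank ℤ_[p] ℚ_[p] L B
  obtain ⟨q, hq⟩ : ∃ q : v.asIdeal.primesOver B,
      Odd (q.1.ramificationIdx ℤ_[p] * q.1.inertiaDeg ℤ_[p]) := by
    by_contra hcon
    push Not at hcon
    have h1 : Even (∑ q : v.asIdeal.primesOver B,
        q.1.ramificationIdx ℤ_[p] * q.1.inertiaDeg ℤ_[p]) :=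
      Finset.even_sum _ fun q _ => Nat.not_odd_iff_even.mp (hcon q)
    rw [hsum, hrank] at h1
    exact (Nat.not_even_iff_odd.mpr hodd) h1
  have hqp : q.1.IsPrime := q.2.1
  have hover : q.1.LiesOver v.asIdeal := q.2.2
  have hq0 : q.1 ≠ ⊥ := by
    intro h
    apply v.ne_bot
    rw [hover.over, h, Ideal.under, Ideal.comap_bot_of_injective _ hinjB]
  let w : HeightOneSpectrum B := ⟨q.1, hqp, hq0⟩
  have hover' : w.asIdeal.LiesOver v.asIdeal := hover
  rw [Nat.odd_mul] at hq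
  exact obstruct (A := ℤ_[p]) (B := B) ℚ_[p] v w hd3 hx K hK hbad rfl PadicInt.toZMod hp0 φ hq.1
    (fun _ => hq.2)

end Pool.Agent.H13.SIC
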